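import Mathlib

/-!
Quartic residue symbols in the Gaussian integers: arithmetic of odd primes.
-/

namespace Pool.Agent.Quartic82

open Zsqrtd

/-- The imaginary unit as a Gaussian integer. -/
abbrev gI : GaussianInt := ⟨0, 1⟩

theorem gI_sq : gI ^ 2 = -1 := by
  rw [pow_two]; ext <;> simp

theorem gI_mul_gI : gI * gI = -1 := by
  ext <;> simp

theorem norm_val (z : GaussianInt) : z.norm = z.re ^ 2 + z.im ^ 2 := by
  rw [Zsqrtd.norm_def]; ring

theorem norm_nn (z : GaussianInt) : 0 ≤ z.norm := by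
  rw [norm_val]; positivity

theorem unit_iff (u : GaussianInt) : IsUnit u ↔ u.norm = 1 := by
  rw [Zsqrtd.norm_eq_one_iff' (by norm_num)]

theorem isUnit_gI : IsUnit gI := by
  rw [unit_iff, norm_val]; norm_num

theorem unit_cases {u : GaussianInt} (hu : IsUnit u) : u = 1 ∨ u = -1 ∨ u = gI ∨ u = -gI := by
  rw [unit_iff, norm_val] at hu
  obtain ⟨a, b⟩ := u
  simp only at hu
  have ha : a ^ 2 ≤ 1 := by nlinarith [sq_nonneg b]
  have hb : b ^ 2 ≤ 1 := by nlinarith [sq_nonneg a]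
  have ha1 : -1 ≤ a ∧ a ≤ 1 := by constructor <;> nlinarith
  have hb1 : -1 ≤ b ∧ b ≤ 1 := by constructor <;> nlinarith
  obtain ⟨h1, h2⟩ := ha1
  obtain ⟨h3, h4⟩ := hb1
  interval_cases a <;> interval_cases b <;> simp at hu <;> simp [Zsqrtd.ext_iff]

theorem unit_pow_four {u : GaussianInt} (hu : IsUnit u) : u ^ 4 = 1 := by
  rcases unit_cases hu with h | h | h | h <;> subst h
  · simp
  · norm_num
  · rw [show (4 : ℕ) = 2 * 2 from rfl, pow_mul, gI_sq]; norm_num
  · rw [show (4 : ℕ) = 2 * 2 from rfl, pow_mul, neg_sq, gI_sq]; norm_num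

theorem unit_mul_star {u : GaussianInt} (hu : IsUnit u) : u * star u = 1 := by
  rw [← Zsqrtd.norm_eq_mul_conj, (unit_iff u).1 hu]; simp

theorem star_unit {u : GaussianInt} (hu : IsUnit u) : IsUnit (star u) := by
  rw [unit_iff, Zsqrtd.norm_conj]; exact (unit_iff u).1 hu

/-- A Gaussian integer is odd if its norm is odd. -/
def Od (z : GaussianInt) : Prop := z.norm % 2 = 1

theorem Od.ne_zero {z : GaussianInt} (h : Od z) : z ≠ 0 := by
  rintro rfl
  simp [Od] at h

theorem Od.of_dvd {z w : GaussianInt} (h : Od z) (hw : w ∣ z) : Od w := by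
  obtain ⟨k, rfl⟩ := hw
  unfold Od at *
  rw [Zsqrtd.norm_mul, Int.mul_emod] at h
  rcases Int.emod_two_eq_zero_or_one w.norm with h1 | h1
  · rw [h1] at h; simp at h
  · exact h1

theorem Od.mul {z w : GaussianInt} (h : Od z) (hw : Od w) : Od (z * w) := by
  unfold Od at *
  rw [Zsqrtd.norm_mul, Int.mul_emod, h, hw]; rfl

theorem Od.star {z : GaussianInt} (h : Od z) : Od (star z) := by
  unfold Od at *; rwa [Zsqrtd.norm_conj]

theorem od_unit {u : GaussianInt} (hu : IsUnit u) : Od u := by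
  unfold Od; rw [(unit_iff u).1 hu]; rfl

theorem od_intCast {n : ℤ} : Od (n : GaussianInt) ↔ n % 2 = 1 := by
  unfold Od
  rw [Zsqrtd.norm_intCast, Int.mul_emod]
  rcases Int.emod_two_eq_zero_or_one n with h | h <;> simp [h]

theorem od_natCast {n : ℕ} : Od (n : GaussianInt) ↔ n % 2 = 1 := by
  have := @od_intCast (n : ℤ)
  push_cast at this
  rw [this]; omega

theorem star_dvd_star {a b : GaussianInt} : star a ∣ star b ↔ a ∣ b := by
  constructor
  · rintro ⟨k, hk⟩
    refine ⟨star k, ?_⟩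
    have := congrArg star hk
    simpa [mul_comm] using this
  · rintro ⟨k, hk⟩
    refine ⟨star k, ?_⟩
    rw [hk, star_mul]; ring

/-- distinct units are incongruent modulo an odd non-unit -/
theorem unit_eq_of_dvd {ρ u v : GaussianInt} (hρ : Od ρ) (hnu : ¬ IsUnit ρ) (hu : IsUnit u)
    (hv : IsUnit v) (h : ρ ∣ u - v) : u = v := by
  by_contra hne
  obtain ⟨k, hk⟩ := h
  have hn := congrArg Zsqrtd.norm hk
  rw [Zsqrtd.norm_mul] at hn
  have hd : ρ.norm ∣ (u - v).norm := ⟨_, hn⟩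
  have h24 : (u - v).norm = 2 ∨ (u - v).norm = 4 := by
    rcases unit_cases hu with h | h | h | h <;> subst h <;>
    rcases unit_cases hv with h | h | h | h <;> subst h <;>
    first
    | exact absurd rfl hne
    | (left; rw [norm_val]; simp; done)
    | (right; rw [norm_val]; simp; done)
  have hd4 : ρ.norm ∣ 4 := by
    rcases h24 with h | h
    · rw [h] at hd; exact hd.trans (by norm_num)
    · rwa [h] at hd
  have hle : ρ.norm ≤ 4 := Int.le_of_dvd (by norm_num) hd4
  have h0 := norm_nn ρ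
  unfold Od at hρ
  have : ρ.norm = 1 ∨ ρ.norm = 3 := by omega
  rcases this with h | h
  · exact hnu ((unit_iff ρ).2 h)
  · rw [h] at hd4; norm_num at hd4

theorem prime_star {ρ : GaussianInt} (h : Prime ρ) : Prime (star ρ) := by
  refine ⟨?_, ?_, ?_⟩
  · intro h0
    apply h.ne_zero
    have := congrArg star h0
    simpa using this
  · intro hu
    apply h.not_isUnit
    have := star_unit hu
    simpa using this
  · intro a b hab
    have h1 : ρ ∣ star a * star b := by
      have := star_dvd_star.2 hab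
      rw [star_star, star_mul] at this
      rwa [mul_comm] at this
    rcases h.dvd_or_dvd h1 with h2 | h2
    · left
      have := star_dvd_star.2 h2
      rwa [star_star] at this
    · right
      have := star_dvd_star.2 h2
      rwa [star_star] at this

theorem intCast_dvd' {n : ℤ} {z : GaussianInt} : (n : GaussianInt) ∣ z ↔ n ∣ z.re ∧ n ∣ z.im :=
  Zsqrtd.intCast_dvd n z

theorem exists_nat_prime_dvd {ρ : GaussianInt} (hρ : Prime ρ) (n : ℕ) (hn : n ≠ 0)
    (h : ρ ∣ (n : GaussianInt)) : ∃ q : ℕ, q.Prime ∧ q ∣ n ∧ ρ ∣ (q : GaussianInt) := by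
  induction n using induction_on_primes with
  | zero => exact absurd rfl hn
  | one =>
    exact absurd (isUnit_of_dvd_one (by simpa using h)) hρ.not_isUnit
  | prime_mul p a hp ih =>
    rw [Nat.cast_mul] at h
    rcases hρ.dvd_or_dvd h with h1 | h1
    · exact ⟨p, hp, dvd_mul_right _ _, h1⟩
    · have ha : a ≠ 0 := by
        rintro rfl; exact hn (by simp)
      obtain ⟨q, hq, hqa, h2⟩ := ih ha h1
      exact ⟨q, hq, hqa.mul_left p, h2⟩

/-- Classification of the odd primes of `ℤ[i]`. -/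
theorem prime_class {ρ : GaussianInt} (hρ : Prime ρ) (ho : Od ρ) :
    ∃ q : ℕ, q.Prime ∧ ρ ∣ (q : GaussianInt) ∧
      ((ρ.norm = q ∧ q % 4 = 1) ∨ (Associated ρ (q : GaussianInt) ∧ q % 4 = 3)) := by
  have hn0 : ρ.norm.natAbs ≠ 0 := by
    intro h
    have := ho
    unfold Od at this
    omega
  have hd : ρ ∣ ((ρ.norm.natAbs : ℕ) : GaussianInt) := by
    have h1 : ((ρ.norm.natAbs : ℕ) : GaussianInt) = ((ρ.norm : ℤ) : GaussianInt) := by
      rw [← Int.cast_natCast, Int.natAbs_of_nonneg (norm_nn ρ)]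
    rw [h1, Zsqrtd.norm_eq_mul_conj]
    exact dvd_mul_right _ _
  obtain ⟨q, hq, hqn, hρq⟩ := exists_nat_prime_dvd hρ _ hn0 hd
  refine ⟨q, hq, hρq, ?_⟩
  have hqodd : q % 2 = 1 := by
    rcases hq.eq_two_or_odd with h | h
    · exfalso
      subst h
      unfold Od at ho
      omega
    · exact h
  have hnn : ρ.norm.natAbs ∣ q ^ 2 := by
    obtain ⟨k, hk⟩ := hρq
    have := congrArg Zsqrtd.norm hk
    rw [Zsqrtd.norm_natCast, Zsqrtd.norm_mul] at this
    have h3 : (ρ.norm : ℤ) ∣ (q : ℤ) ^ 2 := ⟨_, by rw [pow_two]; exact this⟩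
    have h4 := Int.natAbs_dvd_natAbs.2 h3
    simpa [Int.natAbs_pow] using h4
  obtain ⟨j, hj, hj2⟩ := (Nat.dvd_prime_pow hq).1 hnn
  have hne1 : ρ.norm.natAbs ≠ 1 := by
    intro h
    exact hρ.not_isUnit (Zsqrtd.norm_eq_one_iff.1 h)
  interval_cases j
  · simp at hj2; exact absurd hj2 (by simpa using hne1)
  · left
    have h5 : ρ.norm = q := by
      have := Int.natAbs_of_nonneg (norm_nn ρ)
      rw [hj2] at this
      simpa using this.symm
    refine ⟨h5, ?_⟩
    have h6 : ρ.re ^ 2 + ρ.im ^ 2 = q := by rw [← norm_val, h5]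
    have hm : (ρ.re ^ 2 + ρ.im ^ 2) % 4 = 1 ∨ (ρ.re ^ 2 + ρ.im ^ 2) % 4 = 0
      ∨ (ρ.re ^ 2 + ρ.im ^ 2) % 4 = 2 := by
      have e1 : ρ.re ^ 2 % 4 = 0 ∨ ρ.re ^ 2 % 4 = 1 := by
        rcases Int.even_or_odd' ρ.re with ⟨k, hk | hk⟩
        · left; rw [hk]; ring_nf; omega
        · right; rw [hk]; ring_nf; omega
      have e2 : ρ.im ^ 2 % 4 = 0 ∨ ρ.im ^ 2 % 4 = 1 := by
        rcases Int.even_or_odd' ρ.im with ⟨k, hk | hk⟩
        · left; rw [hk]; ring_nf; omega
        · right; rw [hk]; ring_nf; omega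
      omega
    rw [h6] at hm
    omega
  · right
    have h5 : ρ.norm = (q : ℤ) ^ 2 := by
      have := Int.natAbs_of_nonneg (norm_nn ρ)
      rw [hj2] at this
      simpa using this.symm
    have hass : Associated ρ (q : GaussianInt) := by
      obtain ⟨k, hk⟩ := hρq
      have h7 := congrArg Zsqrtd.norm hk
      rw [Zsqrtd.norm_natCast, Zsqrtd.norm_mul, h5] at h7
      have hq0 : (q : ℤ) ≠ 0 := by exact_mod_cast hq.ne_zero
      have hk1 : k.norm = 1 := by
        have h8 : (q : ℤ) ^ 2 * 1 = (q : ℤ) ^ 2 * k.norm := by rw [mul_one, ← h7]; ring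
        exact (mul_left_cancel₀ (pow_ne_zero 2 hq0) h8).symm
      obtain ⟨u, hu⟩ := (unit_iff k).2 hk1
      exact ⟨u, by rw [hu, hk]⟩
    refine ⟨hass, ?_⟩
    have := Fact.mk hq
    have hqp : Prime (q : GaussianInt) := hass.prime hρ
    exact (GaussianInt.prime_iff_mod_four_eq_three_of_nat_prime q).1 hqp

/-- Modulo a prime of degree one every Gaussian integer is congruent to a rational integer. -/
theorem deg_one_int {ρ : GaussianInt} {q : ℕ} (hq : q.Prime) (hρ : ρ.norm = q) (α : GaussianInt) :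
    ∃ m : ℤ, ρ ∣ α - (m : GaussianInt) := by
  have h6 : ρ.re ^ 2 + ρ.im ^ 2 = q := by rw [← norm_val, hρ]
  have hc : IsCoprime (q : ℤ) ρ.im := by
    rw [Int.isCoprime_iff_gcd_eq_one]
    have : Nat.Coprime q ρ.im.natAbs := by
      rw [Nat.Prime.coprime_iff_not_dvd hq]
      intro h
      have h1 : (q : ℤ) ∣ ρ.im := Int.natCast_dvd.2 h
      have h2 : (q : ℤ) ∣ ρ.re ^ 2 := by
        have : ρ.re ^ 2 = q - ρ.im * ρ.im := by rw [← h6]; ring
        rw [this]
        exact dvd_sub (dvd_refl _) (h1.mul_right _)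
      have h3 : (q : ℤ) ∣ ρ.re := (Nat.prime_iff_prime_int.1 hq).dvd_of_dvd_pow h2
      obtain ⟨r, hr⟩ := h3
      obtain ⟨s, hs⟩ := h1
      have hq0 : (q : ℤ) ≠ 0 := by exact_mod_cast hq.ne_zero
      have h7 : (q : ℤ) * (r ^ 2 + s ^ 2) = 1 := by
        apply mul_left_cancel₀ hq0
        rw [hr, hs] at h6
        nlinarith
      have h8 : (q : ℤ) ∣ 1 := ⟨_, h7.symm⟩
      have h9 : q ∣ 1 := by exact_mod_cast h8
      exact hq.one_lt.ne' (Nat.dvd_one.1 h9)
    exact this
  obtain ⟨u, v, huv⟩ := hc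
  -- v * im ≡ 1 mod q ; v ρ ≡ v re + i
  refine ⟨α.re - α.im * v * ρ.re, ?_⟩
  have hqρ : ρ ∣ (q : GaussianInt) := by
    have h1 : (q : GaussianInt) = ((ρ.norm : ℤ) : GaussianInt) := by rw [hρ]; simp
    rw [h1, Zsqrtd.norm_eq_mul_conj]
    exact dvd_mul_right _ _
  have e : α - ((α.re - α.im * v * ρ.re : ℤ) : GaussianInt)
      = ρ * ((α.im * v : ℤ) : GaussianInt) + (q : GaussianInt) * ((u * α.im : ℤ) * gI) := by
    have h10 : α.im = (u * q + v * ρ.im) * α.im := by rw [huv, one_mul]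
    ext
    · simp; ring
    · simp; linear_combination h10
  rw [e]
  exact dvd_add (dvd_mul_right _ _) (hqρ.mul_right _)

theorem rat_dvd_of_dvd {ρ : GaussianInt} {q : ℕ} (hq : q.Prime) (hnu : ¬ IsUnit ρ)
    (hρ : ρ ∣ (q : GaussianInt)) (m : ℤ) :
    ρ ∣ (m : GaussianInt) ↔ (q : ℤ) ∣ m := by
  constructor
  · intro h
    by_contra hc
    have h1 : IsCoprime (q : ℤ) m := by
      rw [Int.isCoprime_iff_gcd_eq_one]
      exact (Nat.Prime.coprime_iff_not_dvd hq).2 (fun h => hc (Int.natCast_dvd.2 h))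
    obtain ⟨u, v, huv⟩ := h1
    apply hnu
    apply isUnit_of_dvd_one
    have : (1 : GaussianInt) = (u : GaussianInt) * (q : GaussianInt) + v * m := by
      have := congrArg (fun t : ℤ => (t : GaussianInt)) huv
      push_cast at this
      exact this.symm
    rw [this]
    exact dvd_add (hρ.mul_left _) (h.mul_left _)
  · rintro ⟨k, rfl⟩
    push_cast
    exact hρ.mul_right _

theorem frob_star {q : ℕ} (hq : q.Prime) (h3 : q % 4 = 3) (α : GaussianInt) :
    (q : GaussianInt) ∣ α ^ q - star α := by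
  obtain ⟨r, hr⟩ := exists_add_pow_prime_eq hq (α.re : GaussianInt) (α.im * gI : GaussianInt)
  have hα : (α.re : GaussianInt) + α.im * gI = α := by ext <;> simp
  have hs : star α = (α.re : GaussianInt) - α.im * gI := by ext <;> simp
  rw [hα] at hr
  have hI : gI ^ q = - gI := by
    obtain ⟨k, hk⟩ : ∃ k, q = 4 * k + 3 := ⟨q / 4, by omega⟩
    rw [hk, pow_add, pow_mul, unit_pow_four isUnit_gI, one_pow, one_mul, pow_succ, gI_sq]; ring
  have := Fact.mk hq
  have hf : ∀ m : ℤ, (q : GaussianInt) ∣ (m : GaussianInt) ^ q - m := by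
    intro m
    have h1 : (q : ℤ) ∣ m ^ q - m := by
      have := (ZMod.intCast_zmod_eq_zero_iff_dvd (m ^ q - m) q)
      rw [← this]
      push_cast
      rw [ZMod.pow_card, sub_self]
    have h2 := (Int.cast_dvd_cast (α := GaussianInt) _ _ h1)
    push_cast at h2
    exact h2
  rw [hr, mul_pow, hI, hs]
  have e : (α.re : GaussianInt) ^ q + (α.im : GaussianInt) ^ q * -gI
      + (q : GaussianInt) * (α.re : GaussianInt) * ((α.im : GaussianInt) * gI) * r
      - ((α.re : GaussianInt) - α.im * gI)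
      = ((α.re : GaussianInt) ^ q - α.re) + ((α.im : GaussianInt) ^ q - α.im) * (-gI)
        + (q : GaussianInt) * ((α.re : GaussianInt) * ((α.im : GaussianInt) * gI) * r) := by ring
  rw [e]
  exact dvd_add (dvd_add (hf _) ((hf _).mul_right _)) (dvd_mul_right _ _)

theorem dvd_pow_sub_pow {ρ a b : GaussianInt} (h : ρ ∣ a - b) (n : ℕ) : ρ ∣ a ^ n - b ^ n :=
  h.trans (sub_dvd_pow_sub_pow a b n)

/-- Fermat's little theorem in `ℤ[i]`. -/
theorem fermat {ρ : GaussianInt} (hρ : Prime ρ) (ho : Od ρ) {α : GaussianInt} (hα : ¬ ρ ∣ α) :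
    ρ ∣ α ^ (ρ.norm.natAbs - 1) - 1 := by
  obtain ⟨q, hq, hρq, h⟩ := prime_class hρ ho
  have := Fact.mk hq
  rcases h with ⟨hn, h1⟩ | ⟨ha, h3⟩
  · obtain ⟨m, hm⟩ := deg_one_int hq hn α
    have hN : ρ.norm.natAbs = q := by rw [hn]; simp
    rw [hN]
    have hqm : ¬ (q : ℤ) ∣ m := by
      intro h
      apply hα
      have := (rat_dvd_of_dvd hq hρ.not_isUnit hρq m).2 h
      have h2 := dvd_add hm this
      simpa using h2
    have h2 : (q : ℤ) ∣ m ^ (q - 1) - 1 := by
      rw [← ZMod.intCast_zmod_eq_zero_iff_dvd]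
      push_cast
      rw [ZMod.pow_card_sub_one_eq_one, sub_self]
      intro h
      exact hqm ((ZMod.intCast_zmod_eq_zero_iff_dvd _ _).1 h)
    have h4 := (rat_dvd_of_dvd hq hρ.not_isUnit hρq _).2 h2
    push_cast at h4
    have h5 := dvd_add (dvd_pow_sub_pow hm (q - 1)) h4
    simpa using h5
  · have hN : ρ.norm.natAbs = q * q := by
      have := Zsqrtd.norm_eq_of_associated (by norm_num) ha
      rw [Zsqrtd.norm_natCast] at this
      rw [this]
      simp [Int.natAbs_mul]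
    rw [hN]
    have h5 : (q : GaussianInt) ∣ α ^ (q * q) - α := by
      have e1 := frob_star hq h3 α
      have e2 := dvd_pow_sub_pow e1 q
      have e3 := frob_star hq h3 (star α)
      rw [star_star] at e3
      rw [← pow_mul] at e2
      have := dvd_add e2 e3
      simpa using this
    have h6 : ρ ∣ α * (α ^ (q * q - 1) - 1) := by
      have hpos : 0 < q * q := Nat.mul_pos hq.pos hq.pos
      have e : α * (α ^ (q * q - 1) - 1) = α ^ (q * q) - α := by
        rw [mul_sub, ← pow_succ', Nat.sub_add_cancel hpos, mul_one]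
      rw [e]
      exact hρq.trans h5
    rcases hρ.dvd_or_dvd h6 with h | h
    · exact absurd h hα
    · exact h

theorem norm_mod_four {ρ : GaussianInt} (ho : Od ρ) : ρ.norm % 4 = 1 := by
  unfold Od at ho
  rw [norm_val] at *
  have e1 : ρ.re ^ 2 % 4 = 0 ∨ ρ.re ^ 2 % 4 = 1 := by
    rcases Int.even_or_odd' ρ.re with ⟨k, hk | hk⟩
    · left; rw [hk]; ring_nf; omega
    · right; rw [hk]; ring_nf; omega
  have e2 : ρ.im ^ 2 % 4 = 0 ∨ ρ.im ^ 2 % 4 = 1 := by
    rcases Int.even_or_odd' ρ.im with ⟨k, hk | hk⟩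
    · left; rw [hk]; ring_nf; omega
    · right; rw [hk]; ring_nf; omega
  omega

/-- existence of the quartic symbol -/
theorem exists_symbol {ρ : GaussianInt} (hρ : Prime ρ) (ho : Od ρ) {α : GaussianInt}
    (hα : ¬ ρ ∣ α) : ∃ u : GaussianInt, IsUnit u ∧ ρ ∣ α ^ ((ρ.norm.natAbs - 1) / 4) - u := by
  have h := fermat hρ ho hα
  have hm := norm_mod_four ho
  have h4 : ρ.norm.natAbs - 1 = ((ρ.norm.natAbs - 1) / 4) * 4 := by
    have := norm_nn ρ
    omega
  rw [h4, pow_mul] at h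
  set t := α ^ ((ρ.norm.natAbs - 1) / 4) with ht
  have e : t ^ 4 - 1 = (t - 1) * (t - (-1)) * ((t - gI) * (t - (-gI))) := by
    have : (t - gI) * (t - (-gI)) = t ^ 2 + 1 := by
      have h2 := gI_mul_gI
      linear_combination (-1 : GaussianInt) * h2
    rw [this]; ring
  rw [e] at h
  rcases hρ.dvd_or_dvd h with h | h
  · rcases hρ.dvd_or_dvd h with h | h
    · exact ⟨1, isUnit_one, h⟩
    · exact ⟨-1, isUnit_one.neg, h⟩
  · rcases hρ.dvd_or_dvd h with h | h
    · exact ⟨gI, isUnit_gI, h⟩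
    · exact ⟨-gI, isUnit_gI.neg, h⟩

open Classical in
/-- choose an element with a given property, or `0` if there is none -/
noncomputable def pick (P : GaussianInt → Prop) : GaussianInt :=
  if h : ∃ u : GaussianInt, P u then h.choose else 0

/-- The quartic residue symbol `(α/ρ)_4` for an odd prime `ρ`: the unit congruent to
`α^((N ρ - 1)/4)` modulo `ρ`, and `0` if `ρ ∣ α`. -/
noncomputable def psym (ρ α : GaussianInt) : GaussianInt :=
  pick fun u => IsUnit u ∧ ρ ∣ α ^ ((ρ.norm.natAbs - 1) / 4) - u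

theorem psym_spec {ρ : GaussianInt} (hρ : Prime ρ) (ho : Od ρ) {α : GaussianInt} (hα : ¬ ρ ∣ α) :
    IsUnit (psym ρ α) ∧ ρ ∣ α ^ ((ρ.norm.natAbs - 1) / 4) - psym ρ α := by
  have h := exists_symbol hρ ho hα
  unfold psym pick
  rw [dif_pos h]
  exact h.choose_spec

theorem norm_ge_five {ρ : GaussianInt} (hρ : Prime ρ) (ho : Od ρ) : 5 ≤ ρ.norm.natAbs := by
  have h4 := norm_mod_four ho
  have h0 := norm_nn ρ
  have h1 : ρ.norm ≠ 1 := fun h => hρ.not_isUnit ((unit_iff ρ).2 h)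
  omega

theorem psym_zero {ρ : GaussianInt} (hρ : Prime ρ) (ho : Od ρ) {α : GaussianInt} (hα : ρ ∣ α) :
    psym ρ α = 0 := by
  unfold psym pick
  rw [dif_neg]
  rintro ⟨u, hu, h⟩
  have h5 := norm_ge_five hρ ho
  have h1 : ρ ∣ α ^ ((ρ.norm.natAbs - 1) / 4) := by
    apply dvd_pow hα
    omega
  have h2 : ρ ∣ u := by
    have := dvd_sub h1 h
    simpa using this
  exact hρ.not_isUnit (isUnit_of_dvd_unit h2 hu)

theorem psym_eq {ρ : GaussianInt} (hρ : Prime ρ) (ho : Od ρ) {α u : GaussianInt} (hu : IsUnit u)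
    (h : ρ ∣ α ^ ((ρ.norm.natAbs - 1) / 4) - u) : psym ρ α = u := by
  have hα : ¬ ρ ∣ α := by
    intro hα
    have h5 := norm_ge_five hρ ho
    have h1 : ρ ∣ α ^ ((ρ.norm.natAbs - 1) / 4) := by
      apply dvd_pow hα
      omega
    have h2 : ρ ∣ u := by
      have := dvd_sub h1 h
      simpa using this
    exact hρ.not_isUnit (isUnit_of_dvd_unit h2 hu)
  obtain ⟨h1, h2⟩ := psym_spec hρ ho hα
  apply unit_eq_of_dvd ho hρ.not_isUnit h1 hu
  have := dvd_sub h h2
  have e : α ^ ((ρ.norm.natAbs - 1) / 4) - u - (α ^ ((ρ.norm.natAbs - 1) / 4) - psym ρ α)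
    = psym ρ α - u := by ring
  rwa [e] at this

theorem psym_ne_zero {ρ : GaussianInt} (hρ : Prime ρ) (ho : Od ρ) {α : GaussianInt} (hα : ¬ ρ ∣ α) :
    psym ρ α ≠ 0 := (psym_spec hρ ho hα).1.ne_zero

theorem psym_congr {ρ : GaussianInt} (hρ : Prime ρ) (ho : Od ρ) {α β : GaussianInt}
    (h : ρ ∣ α - β) : psym ρ α = psym ρ β := by
  by_cases hα : ρ ∣ α
  · have hβ : ρ ∣ β := by
      have := dvd_sub hα h
      simpa using this
    rw [psym_zero hρ ho hα, psym_zero hρ ho hβ]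
  · have hβ : ¬ ρ ∣ β := by
      intro hβ
      apply hα
      have := dvd_add h hβ
      simpa using this
    obtain ⟨h1, h2⟩ := psym_spec hρ ho hβ
    apply psym_eq hρ ho h1
    have := dvd_add (dvd_pow_sub_pow h ((ρ.norm.natAbs - 1) / 4)) h2
    simpa using this

theorem psym_mul {ρ : GaussianInt} (hρ : Prime ρ) (ho : Od ρ) (α β : GaussianInt) :
    psym ρ (α * β) = psym ρ α * psym ρ β := by
  by_cases hα : ρ ∣ α
  · rw [psym_zero hρ ho hα, psym_zero hρ ho (hα.mul_right β), zero_mul]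
  by_cases hβ : ρ ∣ β
  · rw [psym_zero hρ ho hβ, psym_zero hρ ho (hβ.mul_left α), mul_zero]
  obtain ⟨h1, h2⟩ := psym_spec hρ ho hα
  obtain ⟨h3, h4⟩ := psym_spec hρ ho hβ
  apply psym_eq hρ ho (h1.mul h3)
  rw [mul_pow]
  have e : ∀ a b c d : GaussianInt, a * b - c * d = (a - c) * b + c * (b - d) := by
    intros; ring
  rw [e]
  exact dvd_add (h2.mul_right _) (h4.mul_left _)

theorem psym_one {ρ : GaussianInt} (hρ : Prime ρ) (ho : Od ρ) : psym ρ 1 = 1 := by
  apply psym_eq hρ ho isUnit_one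
  simp

theorem psym_assoc {ρ ρ' : GaussianInt} (h : Associated ρ ρ') (α : GaussianInt) :
    psym ρ α = psym ρ' α := by
  have hn := Zsqrtd.norm_eq_of_associated (by norm_num) h
  have hfun : (fun u : GaussianInt => (IsUnit u ∧ ρ ∣ α ^ ((ρ.norm.natAbs - 1) / 4) - u)) =
      (fun u : GaussianInt => (IsUnit u ∧ ρ' ∣ α ^ ((ρ'.norm.natAbs - 1) / 4) - u)) := by
    funext u
    rw [hn, h.dvd_iff_dvd_left]
  exact congrArg pick hfun

theorem psym_star {ρ : GaussianInt} (hρ : Prime ρ) (ho : Od ρ) (α : GaussianInt) :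
    psym (star ρ) (star α) = star (psym ρ α) := by
  by_cases hα : ρ ∣ α
  · rw [psym_zero hρ ho hα, psym_zero (prime_star hρ) ho.star (star_dvd_star.2 hα), star_zero]
  · obtain ⟨h1, h2⟩ := psym_spec hρ ho hα
    apply psym_eq (prime_star hρ) ho.star (star_unit h1)
    rw [Zsqrtd.norm_conj, ← star_pow, ← star_sub]
    exact star_dvd_star.2 h2

end Pool.Agent.Quartic82
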