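import Mathlib
import Pool.Agent.Lib_helper82.Quartic.Basic

/-!
Quartic characters modulo primes of degree one, their Jacobi sums, and the
reciprocity law between a prime of degree one and a rational prime.
-/

namespace Pool.Agent.Quartic82

open Zsqrtd

theorem prime_of_norm {π : GaussianInt} {p : ℕ} (hp : p.Prime) (hn : π.norm = p) : Prime π := by
  rw [← irreducible_iff_prime]
  refine ⟨?_, ?_⟩
  · intro hu
    rw [unit_iff, hn] at hu
    exact hp.one_lt.ne' (by exact_mod_cast hu)
  · intro a b hab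
    have h := congrArg Zsqrtd.norm hab
    rw [Zsqrtd.norm_mul, hn] at h
    have h1 : p = a.norm.natAbs * b.norm.natAbs := by
      rw [← Int.natAbs_mul, ← h]; simp
    rcases (Nat.Prime.eq_one_or_self_of_dvd hp a.norm.natAbs ⟨_, h1⟩) with h2 | h2
    · left; exact Zsqrtd.norm_eq_one_iff.1 h2
    · right
      apply Zsqrtd.norm_eq_one_iff.1
      rw [h2] at h1
      have : p * b.norm.natAbs = p * 1 := by rw [mul_one]; exact h1.symm
      exact Nat.eq_of_mul_eq_mul_left hp.pos this

theorem im_ne_zero {π : GaussianInt} {p : ℕ} [hp : Fact p.Prime] (hn : π.norm = p) :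
    (π.im : ZMod p) ≠ 0 := by
  intro h
  rw [ZMod.intCast_zmod_eq_zero_iff_dvd] at h
  have h6 : π.re ^ 2 + π.im ^ 2 = p := by rw [← norm_val, hn]
  have h2 : (p : ℤ) ∣ π.re ^ 2 := by
    have : π.re ^ 2 = p - π.im * π.im := by rw [← h6]; ring
    rw [this]
    exact dvd_sub (dvd_refl _) (h.mul_right _)
  have h3 : (p : ℤ) ∣ π.re := (Nat.prime_iff_prime_int.1 hp.1).dvd_of_dvd_pow h2
  obtain ⟨r, hr⟩ := h3
  obtain ⟨s, hs⟩ := h
  have hq0 : (p : ℤ) ≠ 0 := by exact_mod_cast hp.1.ne_zero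
  have h7 : (p : ℤ) * (r ^ 2 + s ^ 2) = 1 := by
    apply mul_left_cancel₀ hq0
    rw [hr, hs] at h6
    nlinarith
  have h8 : (p : ℤ) ∣ 1 := ⟨_, h7.symm⟩
  have h9 : p ∣ 1 := by exact_mod_cast h8
  exact hp.1.one_lt.ne' (Nat.dvd_one.1 h9)

theorem dvd_norm_self (π : GaussianInt) {p : ℕ} (hn : π.norm = p) : π ∣ (p : GaussianInt) := by
  have h1 : (p : GaussianInt) = ((π.norm : ℤ) : GaussianInt) := by rw [hn]; simp
  rw [h1, Zsqrtd.norm_eq_mul_conj]
  exact dvd_mul_right _ _

theorem hom_ker {π : GaussianInt} {p : ℕ} [hp : Fact p.Prime] (hn : π.norm = p)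
    (f : GaussianInt →+* ZMod p) (hf : f π = 0) (z : GaussianInt) : π ∣ z ↔ f z = 0 := by
  constructor
  · rintro ⟨k, rfl⟩
    rw [map_mul, hf, zero_mul]
  · intro h
    obtain ⟨m, k, hk⟩ := deg_one_int hp.1 hn z
    have h1 := congrArg f hk
    rw [map_sub, map_mul, hf, zero_mul, h, map_intCast, zero_sub, neg_eq_zero,
      ZMod.intCast_zmod_eq_zero_iff_dvd] at h1
    have h2 := (rat_dvd_of_dvd hp.1 (prime_of_norm hp.1 hn).not_isUnit (dvd_norm_self π hn) m).2 h1
    have h3 := dvd_add ⟨k, hk⟩ h2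
    simpa using h3

/-- Reduction modulo a prime of degree one. -/
theorem exists_hom {π : GaussianInt} {p : ℕ} [hp : Fact p.Prime] (hn : π.norm = p) :
    ∃ f : GaussianInt →+* ZMod p, ∀ z, π ∣ z ↔ f z = 0 := by
  have him := im_ne_zero hn
  have h6 : (π.re : ZMod p) ^ 2 + (π.im : ZMod p) ^ 2 = 0 := by
    have : π.re ^ 2 + π.im ^ 2 = p := by rw [← norm_val, hn]
    have := congrArg (fun t : ℤ => (t : ZMod p)) this
    simpa using this
  have hι : (-(π.re : ZMod p) * (π.im : ZMod p)⁻¹) * (-(π.re : ZMod p) * (π.im : ZMod p)⁻¹)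
      = ((-1 : ℤ) : ZMod p) := by
    push_cast
    field_simp
    linear_combination h6
  refine ⟨Zsqrtd.lift ⟨_, hι⟩, hom_ker hn _ ?_⟩
  rw [Zsqrtd.lift_apply_apply]
  simp only
  field_simp
  ring

theorem psym_natCast_congr {π : GaussianInt} {p : ℕ} (hp : p.Prime) (hn : π.norm = p)
    (ho : Od π) {a b : ℤ} (h : (p : ℤ) ∣ a - b) :
    psym π (a : GaussianInt) = psym π (b : GaussianInt) := by
  apply psym_congr (prime_of_norm hp hn) ho
  have := (rat_dvd_of_dvd hp (prime_of_norm hp hn).not_isUnit (dvd_norm_self π hn) _).2 h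
  simpa using this

/-- The quartic character modulo a prime of degree one. -/
noncomputable def chi (π : GaussianInt) (p : ℕ) [hp : Fact p.Prime] (hn : π.norm = p) (ho : Od π) :
    MulChar (ZMod p) GaussianInt where
  toFun t := psym π ((t.val : ℤ) : GaussianInt)
  map_one' := by
    have h : psym π (((1 : ZMod p).val : ℤ) : GaussianInt) = psym π ((1 : ℤ) : GaussianInt) := by
      apply psym_natCast_congr hp.1 hn ho
      rw [← ZMod.intCast_zmod_eq_zero_iff_dvd]
      simp
    rw [h, Int.cast_one, psym_one (prime_of_norm hp.1 hn) ho]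
  map_mul' s t := by
    rw [← psym_mul (prime_of_norm hp.1 hn) ho, ← Int.cast_mul]
    apply psym_natCast_congr hp.1 hn ho
    rw [← ZMod.intCast_zmod_eq_zero_iff_dvd]
    simp
  map_nonunit' t ht := by
    have h0 : t = 0 := by
      by_contra h
      exact ht (isUnit_iff_ne_zero.2 h)
    subst h0
    apply psym_zero (prime_of_norm hp.1 hn) ho
    simp

theorem chi_intCast {π : GaussianInt} {p : ℕ} [hp : Fact p.Prime] (hn : π.norm = p) (ho : Od π)
    (m : ℤ) : chi π p hn ho (m : ZMod p) = psym π (m : GaussianInt) := by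
  show psym π ((((m : ZMod p).val : ℕ) : ℤ) : GaussianInt) = _
  apply psym_natCast_congr hp.1 hn ho
  rw [← ZMod.intCast_zmod_eq_zero_iff_dvd]
  simp

section

variable {π : GaussianInt} {p : ℕ} [hp : Fact p.Prime] (hn : π.norm = p) (ho : Od π)

include hn ho in
theorem od_prime_odd : p % 4 = 1 := by
  have := norm_mod_four ho
  rw [hn] at this
  omega

theorem hom_chi (f : GaussianInt →+* ZMod p) (hf : ∀ z, π ∣ z ↔ f z = 0) (t : ZMod p) :
    f (chi π p hn ho t) = t ^ ((p - 1) / 4) := by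
  obtain ⟨m, rfl⟩ := ZMod.intCast_surjective t
  rw [chi_intCast]
  have hN : π.norm.natAbs = p := by rw [hn]; simp
  have h5 := norm_ge_five (prime_of_norm hp.1 hn) ho
  by_cases h : π ∣ (m : GaussianInt)
  · rw [psym_zero (prime_of_norm hp.1 hn) ho h, map_zero]
    have := (hf _).1 h
    rw [map_intCast] at this
    rw [this, zero_pow]
    omega
  · have h2 := (psym_spec (prime_of_norm hp.1 hn) ho h).2
    rw [hf, map_sub, map_pow, map_intCast, hN, sub_eq_zero] at h2
    exact h2.symm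

theorem chi_pow_four : (chi π p hn ho) ^ 4 = 1 := by
  apply MulChar.ext
  intro t
  rw [MulChar.pow_apply_coe, MulChar.one_apply_coe]
  have hu : IsUnit (chi π p hn ho t) := t.isUnit.map _
  exact unit_pow_four hu

include hn ho in
theorem sum_pow_zero : ∑ t : ZMod p, t ^ ((p - 1) / 4) * (1 - t) ^ ((p - 1) / 4) = 0 := by
  have h4 := od_prime_odd hn ho
  have hp2 := hp.1.two_le
  set k := (p - 1) / 4 with hk
  have h1 : ∀ t : ZMod p, t ^ k * (1 - t) ^ k
      = ∑ j ∈ Finset.range (k + 1), ((k.choose j : ZMod p) * (-1) ^ (k - j)) * t ^ (k + (k - j)) := by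
    intro t
    rw [sub_eq_add_neg, add_pow, Finset.mul_sum]
    apply Finset.sum_congr rfl
    intro j _
    rw [one_pow, one_mul, pow_add, neg_pow]
    ring
  simp_rw [h1]
  rw [Finset.sum_comm]
  apply Finset.sum_eq_zero
  intro j hj
  rw [← Finset.mul_sum, FiniteField.sum_pow_lt_card_sub_one, mul_zero]
  rw [ZMod.card]
  omega

theorem dvd_jacobi : π ∣ jacobiSum (chi π p hn ho) (chi π p hn ho) := by
  obtain ⟨f, hf⟩ := exists_hom hn
  rw [hf, jacobiSum, map_sum]
  rw [← sum_pow_zero hn ho]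
  apply Finset.sum_congr rfl
  intro t _
  rw [map_mul, hom_chi hn ho f hf, hom_chi hn ho f hf]

theorem chi_sq_ne_one : (chi π p hn ho) ^ 2 ≠ 1 := by
  have h4 := od_prime_odd hn ho
  obtain ⟨f, hf⟩ := exists_hom hn
  have hp2 : p ≠ 2 := by rintro rfl; omega
  intro h
  have hF : ringChar (ZMod p) ≠ 2 := by rw [ZMod.ringChar_zmod_n]; exact hp2
  obtain ⟨a, ha⟩ := FiniteField.exists_nonsquare hF
  have ha0 : a ≠ 0 := by
    rintro rfl; exact ha ⟨0, by simp⟩
  have h1 : ((chi π p hn ho) ^ 2) a = 1 := by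
    rw [h, MulChar.one_apply (isUnit_iff_ne_zero.2 ha0)]
  rw [MulChar.pow_apply' _ two_ne_zero] at h1
  have h2 := congrArg f h1
  rw [map_pow, hom_chi hn ho f hf, map_one, ← pow_mul] at h2
  have h3 : (p - 1) / 4 * 2 = p / 2 := by omega
  rw [h3] at h2
  exact ha ((ZMod.euler_criterion p ha0).2 h2)

theorem chi_ne_one : chi π p hn ho ≠ 1 := by
  intro h
  apply chi_sq_ne_one hn ho
  rw [h, one_pow]

theorem norm_jacobi : (jacobiSum (chi π p hn ho) (chi π p hn ho)).norm = p := by
  set χ := chi π p hn ho with hχ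
  set χC := χ.ringHomComp GaussianInt.toComplex with hχC
  have hinj : Function.Injective GaussianInt.toComplex := GaussianInt.toComplex_injective
  have h1 : χC ≠ 1 := (MulChar.ringHomComp_ne_one_iff hinj).2 (chi_ne_one hn ho)
  have h2 : χC * χC ≠ 1 := by
    rw [hχC, ← MulChar.ringHomComp_mul]
    apply (MulChar.ringHomComp_ne_one_iff hinj).2
    rw [← pow_two]; exact chi_sq_ne_one hn ho
  have hch : ringChar ℂ ≠ ringChar (ZMod p) := by
    rw [ZMod.ringChar_zmod_n, ringChar.eq_zero]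
    exact hp.1.ne_zero.symm
  have h3 := jacobiSum_mul_jacobiSum_inv hch h1 h1 h2
  have h4 : jacobiSum χC⁻¹ χC⁻¹ = star (jacobiSum χC χC) := by
    rw [jacobiSum, jacobiSum, star_sum]
    apply Finset.sum_congr rfl
    intro t _
    rw [star_mul', MulChar.star_apply', MulChar.star_apply']
  rw [h4] at h3
  rw [hχC, jacobiSum_ringHomComp] at h3
  have h5 : star (GaussianInt.toComplex (jacobiSum χ χ))
      = GaussianInt.toComplex (star (jacobiSum χ χ)) := by
    rw [GaussianInt.toComplex_star]; rfl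
  rw [h5, ← map_mul, ← Zsqrtd.norm_eq_mul_conj, ZMod.card, map_intCast] at h3
  exact_mod_cast h3

theorem chi_two_sq_im : ((chi π p hn ho) ((2 : ZMod p)⁻¹) * (chi π p hn ho) ((2 : ZMod p)⁻¹)).im
    = 0 := by
  have h4 := od_prime_odd hn ho
  have h2 : (2 : ZMod p) ≠ 0 := by
    have : ((2 : ℕ) : ZMod p) ≠ 0 := by
      rw [Ne, ZMod.natCast_eq_zero_iff]
      intro h
      have := Nat.le_of_dvd (by norm_num) h
      have := hp.1.two_le
      omega
    simpa using this
  have hu : IsUnit (chi π p hn ho ((2 : ZMod p)⁻¹)) :=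
    (isUnit_iff_ne_zero.2 (inv_ne_zero h2)).map _
  rcases unit_cases hu with h | h | h | h <;> rw [h] <;> simp

theorem jacobi_im_even : (jacobiSum (chi π p hn ho) (chi π p hn ho)).im % 2 = 0 := by
  classical
  have h4 := od_prime_odd hn ho
  have h2 : (2 : ZMod p) ≠ 0 := by
    have : ((2 : ℕ) : ZMod p) ≠ 0 := by
      rw [Ne, ZMod.natCast_eq_zero_iff]
      intro h
      have := Nat.le_of_dvd (by norm_num) h
      have := hp.1.two_le
      omega
    simpa using this
  set χ := chi π p hn ho with hχ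
  let h : GaussianInt →+ ZMod 2 :=
    { toFun := fun z => (z.im : ZMod 2)
      map_zero' := by simp
      map_add' := by intro a b; simp }
  have hh : h (jacobiSum χ χ) = 0 := by
    rw [jacobiSum, map_sum]
    rw [← Finset.add_sum_erase Finset.univ _ (Finset.mem_univ ((2 : ZMod p)⁻¹))]
    have e1 : (1 : ZMod p) - 2⁻¹ = 2⁻¹ := by
      field_simp; norm_num
    rw [e1]
    have e2 : h (χ 2⁻¹ * χ 2⁻¹) = 0 := by
      show (((χ 2⁻¹ * χ 2⁻¹).im : ℤ) : ZMod 2) = 0
      rw [chi_two_sq_im hn ho]; simp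
    rw [e2, zero_add]
    apply Finset.sum_involution (fun t _ => 1 - t)
    · intro t _
      have : (1 : ZMod p) - (1 - t) = t := by ring
      rw [this, mul_comm (χ (1 - t)) (χ t)]
      exact CharTwo.add_self_eq_zero _
    · intro t ht _ heq
      rw [Finset.mem_erase] at ht
      apply ht.1
      have h5 : (2 : ZMod p) * t = 1 := by linear_combination (-1 : ZMod p) * heq
      field_simp
      linear_combination h5
    · intro t _; ring
    · intro t ht
      rw [Finset.mem_erase] at ht ⊢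
      refine ⟨?_, Finset.mem_univ _⟩
      intro heq
      apply ht.1
      have h5 : (2 : ZMod p) * t = 1 := by
        have h6 : (2 : ZMod p) * (1 - t) = 1 := by rw [heq]; field_simp
        linear_combination (-1 : ZMod p) * h6 + (1 : ZMod p) * 0
      field_simp
      linear_combination h5
  have h7 : (((jacobiSum χ χ).im : ℤ) : ZMod 2) = 0 := hh
  rw [ZMod.intCast_zmod_eq_zero_iff_dvd] at h7
  exact Int.emod_eq_zero_of_dvd h7

theorem jacobi_sq (him : π.im % 2 = 0) :
    (jacobiSum (chi π p hn ho) (chi π p hn ho)) ^ 2 = π ^ 2 := by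
  obtain ⟨k, hk⟩ := dvd_jacobi hn ho
  have h1 := norm_jacobi hn ho
  have h2 := jacobi_im_even hn ho
  rw [hk, Zsqrtd.norm_mul, hn] at h1
  have hp0 : (p : ℤ) ≠ 0 := by exact_mod_cast hp.1.ne_zero
  have h3 : k.norm = 1 := mul_left_cancel₀ hp0 (by rw [h1, mul_one])
  have hre : π.re % 2 = 1 := by
    have h5 : (π.re ^ 2 + π.im ^ 2) % 2 = 1 := by rw [← norm_val]; exact ho
    obtain ⟨m, hm⟩ : ∃ m, π.im = 2 * m := ⟨π.im / 2, by omega⟩
    rcases Int.even_or_odd' π.re with ⟨l, hl | hl⟩
    · rw [hl, hm] at h5; ring_nf at h5; omega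
    · omega
  rw [hk] at h2
  rw [hk, mul_pow]
  rcases unit_cases ((unit_iff k).2 h3) with h | h | h | h
  · rw [h]; ring
  · rw [h]; ring
  · exfalso
    rw [h] at h2
    simp at h2
    omega
  · exfalso
    rw [h] at h2
    simp at h2
    omega

end

end Pool.Agent.Quartic82
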