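import Mathlib
import Pool.Agent.Lib_helper82.Quartic.Recip

/-!
Reciprocity between a Gaussian prime of degree one and a rational prime, by Gauss sums.
-/

namespace Pool.Agent.Quartic82

open Zsqrtd

theorem setup_field {ρ : GaussianInt} (hρ : Prime ρ) {p q : ℕ} [hp : Fact p.Prime]
    (hq : q.Prime) (hqp : q ≠ p) (hρq : ρ ∣ (q : GaussianInt)) :
    ∃ (K : Type) (_ : Field K) (_ : CharP K q) (φ : GaussianInt →+* K) (ψ : AddChar (ZMod p) K),
      ψ.IsPrimitive ∧ (∀ z, φ z = 0 ↔ ρ ∣ z) := by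
  have hmax : (Ideal.span {ρ} : Ideal GaussianInt).IsMaximal :=
    PrincipalIdealRing.isMaximal_of_irreducible hρ.irreducible
  let _ : Field (GaussianInt ⧸ (Ideal.span {ρ} : Ideal GaussianInt)) := Ideal.Quotient.field _
  let F := GaussianInt ⧸ (Ideal.span {ρ} : Ideal GaussianInt)
  have hq0 : ((q : ℕ) : F) = 0 := by
    have : (Ideal.Quotient.mk (Ideal.span {ρ} : Ideal GaussianInt)) (q : GaussianInt) = 0 := by
      rw [Ideal.Quotient.eq_zero_iff_mem, Ideal.mem_span_singleton]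
      exact hρq
    simpa using this
  have hch : ringChar F = q := CharP.ringChar_of_prime_eq_zero hq hq0
  have hne : ringChar F ≠ ringChar (ZMod p) := by
    rw [hch, ZMod.ringChar_zmod_n]; exact hqp
  let ψ := AddChar.FiniteField.primitiveChar (ZMod p) F hne
  let K := CyclotomicField ψ.n F
  have hqK : ((q : ℕ) : K) = 0 := by
    have := congrArg (algebraMap F K) hq0
    simpa using this
  have hcK : CharP K q := ringChar.of_eq (CharP.ringChar_of_prime_eq_zero hq hqK)
  refine ⟨K, inferInstance, hcK, (algebraMap F K).comp (Ideal.Quotient.mk _), ψ.char, ψ.prim, ?_⟩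
  intro z
  rw [RingHom.comp_apply]
  constructor
  · intro h
    have h1 := (map_eq_zero (algebraMap F K)).1 h
    rwa [Ideal.Quotient.eq_zero_iff_mem, Ideal.mem_span_singleton] at h1
  · intro h
    have h1 : (Ideal.Quotient.mk (Ideal.span {ρ} : Ideal GaussianInt)) z = 0 := by
      rw [Ideal.Quotient.eq_zero_iff_mem, Ideal.mem_span_singleton]
      exact h
    rw [h1, map_zero]

section

variable {π : GaussianInt} {p : ℕ} [hp : Fact p.Prime] (hn : π.norm = p) (ho : Od π)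
  (him : π.im % 2 = 0) {ρ : GaussianInt} (hρ : Prime ρ) {q : ℕ} [hq : Fact q.Prime]
  (hqp : q ≠ p) (hq2 : q % 2 = 1) (hρq : ρ ∣ (q : GaussianInt))
  {K : Type} [Field K] [CharP K q] (φ : GaussianInt →+* K)
  (ψ : AddChar (ZMod p) K) (hψ : ψ.IsPrimitive) (hφ : ∀ z, φ z = 0 ↔ ρ ∣ z)

include hq2 in
omit hp in
theorem two_ne_zero_K : (2 : K) ≠ 0 := by
  intro h
  have h1 : ((2 : ℕ) : K) = 0 := by simpa using h
  rw [CharP.cast_eq_zero_iff K q] at h1
  have := Nat.le_of_dvd (by norm_num) h1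
  have := hq.1.two_le
  omega

include hq2 in
theorem chiK_sq_ne_one : ((chi π p hn ho).ringHomComp φ) ^ 2 ≠ 1 := by
  intro h
  have hp2 : p ≠ 2 := by
    have := od_prime_odd hn ho
    rintro rfl; omega
  obtain ⟨f, hf⟩ := exists_hom hn
  have hF : ringChar (ZMod p) ≠ 2 := by rw [ZMod.ringChar_zmod_n]; exact hp2
  obtain ⟨a, ha⟩ := FiniteField.exists_nonsquare hF
  have ha0 : a ≠ 0 := by
    rintro rfl; exact ha ⟨0, by simp⟩
  have hau : IsUnit a := isUnit_iff_ne_zero.2 ha0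
  have h1 : (((chi π p hn ho).ringHomComp φ) ^ 2) a = 1 := by
    rw [h, MulChar.one_apply hau]
  rw [MulChar.pow_apply' _ two_ne_zero, MulChar.ringHomComp_apply, ← map_pow] at h1
  -- χ(a)^2 = -1
  have hu : IsUnit (chi π p hn ho a) := hau.map _
  have h5 : (chi π p hn ho a) ^ 2 = 1 ∨ (chi π p hn ho a) ^ 2 = -1 := by
    rcases unit_cases hu with h | h | h | h <;> rw [h]
    · left; ring
    · left; ring
    · right; rw [gI_sq]
    · right; rw [neg_sq, gI_sq]
  rcases h5 with h5 | h5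
  · have h2 := congrArg f h5
    have h4 := od_prime_odd hn ho
    rw [map_pow, hom_chi hn ho f hf, map_one, ← pow_mul] at h2
    have h3 : (p - 1) / 4 * 2 = p / 2 := by omega
    rw [h3] at h2
    exact ha ((ZMod.euler_criterion p ha0).2 h2)
  · rw [h5, map_neg, map_one] at h1
    apply two_ne_zero_K hq2 (K := K)
    linear_combination (-1 : K) * h1

include hq2 hψ him in
theorem gauss_pow_four :
    (gaussSum ((chi π p hn ho).ringHomComp φ) ψ) ^ 4 = φ (π ^ 2) * p := by
  set χ := (chi π p hn ho).ringHomComp φ with hχ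
  have h2 : χ * χ ≠ 1 := by
    rw [← pow_two]; exact chiK_sq_ne_one hn ho hq2 φ
  have h3 := jacobiSum_mul_nontrivial h2 ψ
  have h4 : jacobiSum χ χ = φ (jacobiSum (chi π p hn ho) (chi π p hn ho)) := by
    rw [hχ, jacobiSum_ringHomComp]
  have hquad : (χ * χ).IsQuadratic := by
    intro a
    by_cases ha : IsUnit a
    · right
      rw [MulChar.mul_apply, hχ, MulChar.ringHomComp_apply, ← map_mul]
      have hu : IsUnit (chi π p hn ho a) := ha.map _
      rcases unit_cases hu with h | h | h | h <;> rw [h]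
      · left; simp
      · left; simp
      · right; rw [gI_mul_gI]; simp
      · right; rw [neg_mul_neg, gI_mul_gI]; simp
    · left
      exact MulChar.map_nonunit _ ha
  have h5 := gaussSum_sq h2 hquad hψ
  have h6 : (χ * χ) (-1) = 1 := by
    rw [MulChar.mul_apply, ← map_mul, neg_mul_neg, one_mul, map_one]
  rw [h6, one_mul, ZMod.card] at h5
  calc gaussSum χ ψ ^ 4 = (gaussSum χ ψ * gaussSum χ ψ) ^ 2 := by ring
    _ = (gaussSum (χ * χ) ψ * jacobiSum χ χ) ^ 2 := by rw [h3]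
    _ = gaussSum (χ * χ) ψ ^ 2 * jacobiSum χ χ ^ 2 := by ring
    _ = (p : K) * jacobiSum χ χ ^ 2 := by rw [h5]
    _ = φ (π ^ 2) * p := by
      rw [h4, ← map_pow, jacobi_sq hn ho him]; ring

include hn hρ hqp hρq hφ in
omit [CharP K q] in
theorem phi_ne_zero : φ (π ^ 2) * p ≠ 0 := by
  have hρp : ¬ ρ ∣ (p : GaussianInt) := by
    intro h
    have h1 := (rat_dvd_of_dvd hq.1 hρ.not_isUnit hρq (p : ℤ)).1 (by simpa using h)
    have h2 : q ∣ p := by exact_mod_cast h1
    exact hqp ((Nat.prime_dvd_prime_iff_eq hq.1 hp.1).1 h2)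
  have hρπ : ¬ ρ ∣ π := fun h => hρp (h.trans (dvd_norm_self π hn))
  have h1 : φ π ≠ 0 := fun h => hρπ ((hφ _).1 h)
  have h2 : φ (p : GaussianInt) ≠ 0 := fun h => hρp ((hφ _).1 h)
  rw [map_natCast] at h2
  rw [map_pow]
  exact mul_ne_zero (pow_ne_zero 2 h1) h2

theorem chiK_pow_four : ((chi π p hn ho).ringHomComp φ) ^ 4 = 1 := by
  apply MulChar.ext
  intro t
  rw [MulChar.pow_apply_coe, MulChar.one_apply_coe, MulChar.ringHomComp_apply, ← map_pow]
  have hu : IsUnit (chi π p hn ho t) := t.isUnit.map _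
  rw [unit_pow_four hu, map_one]

include hn ho hρ hqp hρq hφ hψ hq2 him in
theorem rec1_aux (hq1 : q % 4 = 1) :
    ρ ∣ (π ^ 2 * (p : GaussianInt)) ^ ((q - 1) / 4) * psym π (q : GaussianInt) - 1 := by
  have hu : Nat.Coprime q p := (Nat.coprime_primes hq.1 hp.1).2 hqp
  set χ := (chi π p hn ho).ringHomComp φ with hχ
  set g := gaussSum χ ψ with hg
  have h4 : g ^ 4 = φ (π ^ 2) * p := gauss_pow_four hn ho him hq2 φ ψ hψ
  have hne : g ≠ 0 := by
    intro h
    have := phi_ne_zero (π := π) hn hρ hqp hρq φ hφ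
    rw [← h4, h] at this
    simp at this
  have hfrob := gaussSum_frob q χ ψ
  have hχq : χ ^ q = χ := by
    obtain ⟨k, hk⟩ : ∃ k, q = 4 * k + 1 := ⟨q / 4, by omega⟩
    rw [hk, pow_succ, pow_mul, hχ, chiK_pow_four hn ho φ, one_pow, one_mul]
  have h5 := gaussSum_mulShift χ ψ (ZMod.unitOfCoprime q hu)
  rw [ZMod.coe_unitOfCoprime] at h5
  rw [hχq, AddChar.pow_mulShift] at hfrob
  rw [← hfrob] at h5
  -- χ q * g ^ q = g
  have h6 : χ (q : ZMod p) * g ^ (q - 1) = 1 := by
    have h7 : χ (q : ZMod p) * g ^ (q - 1) * g = 1 * g := by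
      rw [mul_assoc, ← pow_succ, Nat.sub_add_cancel hq.1.pos, one_mul]
      exact h5
    exact mul_right_cancel₀ hne h7
  have h8 : g ^ (q - 1) = φ ((π ^ 2 * (p : GaussianInt)) ^ ((q - 1) / 4)) := by
    rw [map_pow, map_mul, map_natCast, ← h4, ← pow_mul]
    congr 1
    omega
  rw [← hφ, map_sub, map_mul, map_one, ← h8]
  have h9 : χ (q : ZMod p) = φ (psym π (q : GaussianInt)) := by
    rw [hχ, MulChar.ringHomComp_apply]
    congr 1
    have := chi_intCast hn ho (q : ℤ)
    push_cast at this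
    exact this
  rw [← h9, mul_comm, h6, sub_self]

include hn ho hqp hφ hψ hq2 him in
theorem rec3_aux (hq3 : q % 4 = 3) :
    ρ ∣ (π ^ 2 * (p : GaussianInt)) ^ ((q + 1) / 4) - psym π (-(q : GaussianInt)) * p := by
  have hu : Nat.Coprime q p := (Nat.coprime_primes hq.1 hp.1).2 hqp
  set χ := (chi π p hn ho).ringHomComp φ with hχ
  set g := gaussSum χ ψ with hg
  have h4 : g ^ 4 = φ (π ^ 2) * p := gauss_pow_four hn ho him hq2 φ ψ hψ
  have hfrob := gaussSum_frob q χ ψ
  have hχ4 : χ ^ 4 = 1 := by rw [hχ, chiK_pow_four hn ho φ]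
  have hχq : χ ^ q = χ⁻¹ := by
    obtain ⟨k, hk⟩ : ∃ k, q = 4 * k + 3 := ⟨q / 4, by omega⟩
    rw [hk, pow_add, pow_mul, hχ4, one_pow, one_mul]
    apply eq_inv_of_mul_eq_one_left
    rw [← pow_succ, hχ4]
  have h5 := gaussSum_mulShift χ⁻¹ ψ (ZMod.unitOfCoprime q hu)
  rw [ZMod.coe_unitOfCoprime] at h5
  rw [hχq, AddChar.pow_mulShift] at hfrob
  rw [← hfrob] at h5
  have hχ1 : χ ≠ 1 := by
    intro h
    apply chiK_sq_ne_one hn ho hq2 φ
    rw [← hχ, h, one_pow]
  have h6 := gaussSum_mul_gaussSum_eq_card hχ1 hψ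
  have h7 := mul_gaussSum_inv_eq_gaussSum χ⁻¹ ψ
  rw [ZMod.card] at h6
  have hun : IsUnit (q : ZMod p) := by
    have := (ZMod.unitOfCoprime q hu).isUnit
    rwa [ZMod.coe_unitOfCoprime] at this
  have h8 : χ (q : ZMod p) * χ⁻¹ (q : ZMod p) = 1 := by
    rw [← MulChar.mul_apply, mul_inv_cancel, MulChar.one_apply hun]
  have h9 : χ (-1) * χ⁻¹ (-1) = 1 := by
    rw [← MulChar.mul_apply, mul_inv_cancel, MulChar.one_apply]
    exact isUnit_one.neg
  have h10 : χ (-1) * χ (-1) = 1 := by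
    rw [← map_mul, neg_mul_neg, one_mul, map_one]
  have h11 : χ⁻¹ (-1) = χ (-1) := by
    have : χ (-1) * χ⁻¹ (-1) = χ (-1) * χ (-1) := by rw [h9, h10]
    have hne : χ (-1) ≠ 0 := fun h => by rw [h] at h10; simp at h10
    exact mul_left_cancel₀ hne this
  -- g ^ (q+1) = χ(-q) p
  have h12 : g ^ (q + 1) = χ (-(q : ZMod p)) * p := by
    have e : χ (-(q : ZMod p)) = χ (-1) * χ (q : ZMod p) := by
      rw [← map_mul, neg_one_mul]
    rw [e, pow_succ]
    calc g ^ q * g = (χ (q : ZMod p) * χ⁻¹ (q : ZMod p)) * (g ^ q * g) := by rw [h8, one_mul]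
      _ = χ (q : ZMod p) * (χ⁻¹ (q : ZMod p) * g ^ q) * g := by ring
      _ = χ (q : ZMod p) * (gaussSum χ⁻¹ ψ) * g := by rw [h5]
      _ = χ (q : ZMod p) * (χ⁻¹ (-1) * gaussSum χ⁻¹ ψ⁻¹) * g := by rw [h7]
      _ = χ (q : ZMod p) * χ⁻¹ (-1) * (g * gaussSum χ⁻¹ ψ⁻¹) := by ring
      _ = χ (-1) * χ (q : ZMod p) * p := by rw [h6, h11]; ring
  have h13 : g ^ (q + 1) = φ ((π ^ 2 * (p : GaussianInt)) ^ ((q + 1) / 4)) := by
    rw [map_pow, map_mul, map_natCast, ← h4, ← pow_mul]
    congr 1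
    omega
  rw [← hφ, map_sub, map_mul, ← h13, h12, map_natCast]
  have h14 : χ (-(q : ZMod p)) = φ (psym π (-(q : GaussianInt))) := by
    rw [hχ, MulChar.ringHomComp_apply]
    congr 1
    have := chi_intCast hn ho (-(q : ℤ))
    push_cast at this
    exact this
  rw [h14, sub_self]

end

/-- reciprocity, `q ≡ 1 mod 4` -/
theorem rec1 {π : GaussianInt} {p : ℕ} (hp : p.Prime) (hn : π.norm = p) (ho : Od π)
    (him : π.im % 2 = 0) {ρ : GaussianInt} {q : ℕ} (hq : q.Prime) (hqp : q ≠ p)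
    (hq1 : q % 4 = 1) (hρ : ρ.norm = q) :
    psym π (q : GaussianInt) = psym ρ π * psym (star ρ) π := by
  have := Fact.mk hp
  have := Fact.mk hq
  have hρp := prime_of_norm hq hρ
  have hρq := dvd_norm_self ρ hρ
  have hπp := prime_of_norm hp hn
  have hρo : Od ρ := by unfold Od; rw [hρ]; omega
  obtain ⟨K, _, _, φ, ψ, hψ, hφ⟩ := setup_field hρp hq hqp hρq (p := p)
  have h := rec1_aux hn ho him hρp hqp (by omega) hρq φ ψ hψ hφ hq1
  have hρp' : ¬ ρ ∣ (p : GaussianInt) := by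
    intro h
    have h1 := (rat_dvd_of_dvd hq hρp.not_isUnit hρq (p : ℤ)).1 (by simpa using h)
    have h2 : q ∣ p := by exact_mod_cast h1
    exact hqp ((Nat.prime_dvd_prime_iff_eq hq hp).1 h2)
  have hρπ : ¬ ρ ∣ π := fun h => hρp' (h.trans (dvd_norm_self π hn))
  have hsπ : ¬ star ρ ∣ π := by
    intro h
    have h1 := star_dvd_star.2 (h.trans (dvd_norm_self π hn))
    rw [star_star] at h1
    apply hρp'
    simpa using h1
  have hN : ρ.norm.natAbs = q := by rw [hρ]; simp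
  have hp' : (p : GaussianInt) = π * star π := by
    rw [← Zsqrtd.norm_eq_mul_conj, hn]; simp
  -- the symbol of π^2 p modulo ρ
  have hnd : ¬ ρ ∣ π ^ 2 * (p : GaussianInt) := by
    intro h
    rcases hρp.dvd_or_dvd h with h | h
    · exact hρπ (hρp.dvd_of_dvd_pow h)
    · exact hρp' h
  obtain ⟨hs1, hs2⟩ := psym_spec hρp hρo hnd
  rw [hN] at hs2
  have hπq : ¬ π ∣ (q : GaussianInt) := by
    intro h
    have h1 := (rat_dvd_of_dvd hp hπp.not_isUnit (dvd_norm_self π hn) (q : ℤ)).1 (by simpa using h)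
    have h2 : p ∣ q := by exact_mod_cast h1
    exact hqp ((Nat.prime_dvd_prime_iff_eq hp hq).1 h2).symm
  have hX := (psym_spec hπp ho hπq).1
  have h3 : psym ρ (π ^ 2 * (p : GaussianInt)) * psym π (q : GaussianInt) = 1 := by
    apply unit_eq_of_dvd hρo hρp.not_isUnit (hs1.mul hX) isUnit_one
    have h4 := dvd_sub h (hs2.mul_right (psym π (q : GaussianInt)))
    have e : (π ^ 2 * (p : GaussianInt)) ^ ((q - 1) / 4) * psym π (q : GaussianInt) - 1 -
        ((π ^ 2 * (p : GaussianInt)) ^ ((q - 1) / 4) - psym ρ (π ^ 2 * (p : GaussianInt))) *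
          psym π (q : GaussianInt)
        = psym ρ (π ^ 2 * (p : GaussianInt)) * psym π (q : GaussianInt) - 1 := by ring
    rwa [e] at h4
  have hA := (psym_spec hρp hρo hρπ).1
  have hB := (psym_spec (prime_star hρp) hρo.star hsπ).1
  have hstar : psym ρ (star π) = star (psym (star ρ) π) := by
    have := psym_star (prime_star hρp) hρo.star π
    rwa [star_star] at this
  rw [hp', pow_two, psym_mul hρp hρo, psym_mul hρp hρo, psym_mul hρp hρo, hstar] at h3
  have h5 := unit_pow_four hA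
  have h6 := unit_mul_star hB
  set A := psym ρ π
  set B := psym (star ρ) π
  set X := psym π (q : GaussianInt)
  calc X = A ^ 4 * (B * star B) * X := by rw [h5, h6]; ring
    _ = (A * A * (A * star B) * X) * (A * B) := by ring
    _ = A * B := by rw [h3, one_mul]

/-- reciprocity, `q ≡ 3 mod 4` -/
theorem rec3 {π : GaussianInt} {p : ℕ} (hp : p.Prime) (hn : π.norm = p) (ho : Od π)
    (him : π.im % 2 = 0) {q : ℕ} (hq : q.Prime) (hq3 : q % 4 = 3) :
    psym π (-(q : GaussianInt)) = psym (q : GaussianInt) π := by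
  have := Fact.mk hp
  have := Fact.mk hq
  have hqp : q ≠ p := by
    have := od_prime_odd hn ho
    rintro rfl; omega
  have hρp : Prime (q : GaussianInt) := GaussianInt.prime_of_nat_prime_of_mod_four_eq_three q hq3
  have hπp := prime_of_norm hp hn
  have hρo : Od (q : GaussianInt) := by rw [od_natCast]; omega
  obtain ⟨K, _, _, φ, ψ, hψ, hφ⟩ := setup_field hρp hq hqp dvd_rfl (p := p)
  have h := rec3_aux hn ho him hqp (by omega) φ ψ hψ hφ hq3
  have hρp' : ¬ (q : GaussianInt) ∣ (p : GaussianInt) := by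
    intro h
    have h1 := (rat_dvd_of_dvd hq hρp.not_isUnit dvd_rfl (p : ℤ)).1 (by simpa using h)
    have h2 : q ∣ p := by exact_mod_cast h1
    exact hqp ((Nat.prime_dvd_prime_iff_eq hq hp).1 h2)
  have hρπ : ¬ (q : GaussianInt) ∣ π := fun h => hρp' (h.trans (dvd_norm_self π hn))
  have hπq : ¬ π ∣ -(q : GaussianInt) := by
    intro h
    have h1 := (rat_dvd_of_dvd hp hπp.not_isUnit (dvd_norm_self π hn) (-(q : ℤ))).1 (by simpa using h)
    have h2 : p ∣ q := by
      rw [dvd_neg] at h1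
      exact_mod_cast h1
    exact hqp ((Nat.prime_dvd_prime_iff_eq hp hq).1 h2).symm
  have hX := (psym_spec hπp ho hπq).1
  symm
  apply psym_eq hρp hρo hX
  have hN : (q : GaussianInt).norm.natAbs = q * q := by
    rw [Zsqrtd.norm_natCast]; simp [Int.natAbs_mul]
  rw [hN]
  have hfs := frob_star hq hq3 π
  have hp' : (p : GaussianInt) = π * star π := by
    rw [← Zsqrtd.norm_eq_mul_conj, hn]; simp
  set X := psym π (-(q : GaussianInt))
  have h1 : (q : GaussianInt) ∣ π ^ (q + 1) - (p : GaussianInt) := by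
    rw [hp', pow_succ']
    have := hfs.mul_left π
    rwa [mul_sub] at this
  obtain ⟨k, hk⟩ : ∃ k, q = 4 * k + 3 := ⟨q / 4, by omega⟩
  have hk1 : (q + 1) / 4 = k + 1 := by omega
  rw [hk1] at h
  have h2 : (q : GaussianInt) ∣ (π ^ 2 * π ^ (q + 1)) ^ (k + 1)
      - (π ^ 2 * (p : GaussianInt)) ^ (k + 1) := by
    apply dvd_pow_sub_pow
    rw [← mul_sub]
    exact h1.mul_left _
  have h3 := dvd_add h2 h
  have h4 := dvd_sub h3 (h1.mul_left X)
  have e : (π ^ 2 * π ^ (q + 1)) ^ (k + 1) - (π ^ 2 * (p : GaussianInt)) ^ (k + 1) +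
      ((π ^ 2 * (p : GaussianInt)) ^ (k + 1) - X * (p : GaussianInt)) -
      X * (π ^ (q + 1) - (p : GaussianInt)) =
      π ^ (q + 1) * (π ^ ((q * q - 1) / 4) - X) := by
    have e1 : (π ^ 2 * π ^ (q + 1)) ^ (k + 1) = π ^ (q + 1) * π ^ ((q * q - 1) / 4) := by
      rw [← pow_add, ← pow_mul, ← pow_add]
      congr 1
      have e2 : (q * q - 1) / 4 = (k + 1) * (q - 1) := by
        have e3 : q * q - 1 = 4 * ((k + 1) * (q - 1)) := by
          rw [hk]
          have : 4 * k + 3 - 1 = 4 * k + 2 := by omega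
          rw [this]
          zify
          rw [Nat.cast_sub (by nlinarith)]
          push_cast; ring
        rw [e3, Nat.mul_div_cancel_left _ (by norm_num)]
      rw [e2, hk]
      have : 4 * k + 3 - 1 = 4 * k + 2 := by omega
      rw [this]; ring
    rw [e1]; ring
  rw [e] at h4
  rcases hρp.dvd_or_dvd h4 with h5 | h5
  · exact absurd (hρp.dvd_of_dvd_pow h5) hρπ
  · exact h5

end Pool.Agent.Quartic82
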