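import Mathlib
import Pool.Agent.Lib_helper82.Quartic.Gauss

/-!
The quartic residue symbol `(α/β)_4` for odd Gaussian integers `β`, and the reciprocity law
with rational integers.
-/

namespace Pool.Agent.Quartic82

open Zsqrtd UniqueFactorizationMonoid

/-- The quartic residue symbol `(α/β)_4` (product over the prime factors of `β`). -/
noncomputable def Q4 (α β : GaussianInt) : GaussianInt :=
  ((factors β).map (fun ρ => psym ρ α)).prod

theorem prod_map_of_rel {s t : Multiset GaussianInt} (α : GaussianInt)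
    (h : Multiset.Rel Associated s t) :
    (s.map (fun ρ => psym ρ α)).prod = (t.map (fun ρ => psym ρ α)).prod := by
  induction h with
  | zero => rfl
  | cons hab _ ih =>
    rw [Multiset.map_cons, Multiset.map_cons, Multiset.prod_cons, Multiset.prod_cons, ih,
      psym_assoc hab]

theorem Q4_mul_right (α : GaussianInt) {β β' : GaussianInt} (h : β ≠ 0) (h' : β' ≠ 0) :
    Q4 α (β * β') = Q4 α β * Q4 α β' := by
  unfold Q4
  rw [prod_map_of_rel α (factors_mul h h'), Multiset.map_add, Multiset.prod_add]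

theorem Q4_unit_right (α : GaussianInt) {u : GaussianInt} (hu : IsUnit u) : Q4 α u = 1 := by
  unfold Q4
  rw [factors_of_isUnit hu]; simp

theorem Q4_prime (α : GaussianInt) {ρ : GaussianInt} (hρ : Prime ρ) : Q4 α ρ = psym ρ α := by
  unfold Q4
  obtain ⟨b, hb, hf⟩ := factors_eq_singleton_of_irreducible hρ.irreducible
  rw [hf]
  simp [psym_assoc hb]

theorem Q4_assoc (α : GaussianInt) {β β' : GaussianInt} (h : Associated β β') :
    Q4 α β = Q4 α β' := by
  unfold Q4
  exact prod_map_of_rel α (factors_rel_of_associated h)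

theorem Q4_unit_mul (α : GaussianInt) {u : GaussianInt} (hu : IsUnit u) (β : GaussianInt) :
    Q4 α (u * β) = Q4 α β := by
  apply Q4_assoc
  exact associated_unit_mul_left _ _ hu

theorem Q4_neg_right (α β : GaussianInt) : Q4 α (-β) = Q4 α β := by
  have := Q4_unit_mul α (isUnit_one.neg) β
  simpa using this

theorem od_induction {P : GaussianInt → Prop} (hu : ∀ u, IsUnit u → P u)
    (hp : ∀ ρ, Prime ρ → Od ρ → P ρ)
    (hm : ∀ a b, Od a → Od b → P a → P b → P (a * b)) : ∀ β, Od β → P β := by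
  intro β
  induction β using UniqueFactorizationMonoid.induction_on_prime with
  | h₁ => intro h; exact absurd rfl h.ne_zero
  | h₂ x hx => intro _; exact hu x hx
  | h₃ a p ha hpp ih =>
    intro h
    have h1 : Od p := h.of_dvd (dvd_mul_right _ _)
    have h2 : Od a := h.of_dvd (dvd_mul_left _ _)
    exact hm p a h1 h2 (hp p hpp h1) (ih h2)

theorem Q4_mul_left (α α' : GaussianInt) {β : GaussianInt} (hβ : Od β) :
    Q4 (α * α') β = Q4 α β * Q4 α' β := by
  revert β
  apply od_induction
  · intro u hu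
    simp [Q4_unit_right _ hu]
  · intro ρ hρ ho
    simp only [Q4_prime _ hρ]
    exact psym_mul hρ ho α α'
  · intro a b ha hb h1 h2
    rw [Q4_mul_right _ ha.ne_zero hb.ne_zero, Q4_mul_right _ ha.ne_zero hb.ne_zero,
      Q4_mul_right _ ha.ne_zero hb.ne_zero, h1, h2]
    ring

theorem Q4_one_left {β : GaussianInt} (hβ : Od β) : Q4 1 β = 1 := by
  revert β
  apply od_induction
  · intro u hu
    simp [Q4_unit_right _ hu]
  · intro ρ hρ ho
    rw [Q4_prime _ hρ]
    exact psym_one hρ ho
  · intro a b ha hb h1 h2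
    rw [Q4_mul_right _ ha.ne_zero hb.ne_zero, h1, h2, one_mul]

theorem Q4_pow_left (α : GaussianInt) (n : ℕ) {β : GaussianInt} (hβ : Od β) :
    Q4 (α ^ n) β = Q4 α β ^ n := by
  induction n with
  | zero => simp [Q4_one_left hβ]
  | succ n ih => rw [pow_succ, Q4_mul_left _ _ hβ, ih, pow_succ]

theorem Q4_congr {α α' β : GaussianInt} (hβ : Od β) (h : β ∣ α - α') : Q4 α β = Q4 α' β := by
  revert β
  have key : ∀ β, Od β → β ∣ α - α' → Q4 α β = Q4 α' β := by
    apply od_induction
    · intro u hu _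
      simp [Q4_unit_right _ hu]
    · intro ρ hρ ho h
      simp only [Q4_prime _ hρ]
      exact psym_congr hρ ho h
    · intro a b ha hb h1 h2 h
      rw [Q4_mul_right _ ha.ne_zero hb.ne_zero, Q4_mul_right _ ha.ne_zero hb.ne_zero,
        h1 (dvd_of_mul_right_dvd h), h2 (dvd_of_mul_left_dvd h)]
  intro β hβ h
  exact key β hβ h

theorem Q4_isUnit {α β : GaussianInt} (hβ : Od β) (h : IsCoprime α β) : IsUnit (Q4 α β) := by
  revert h
  revert β
  have key : ∀ β, Od β → IsCoprime α β → IsUnit (Q4 α β) := by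
    apply od_induction
    · intro u hu _
      rw [Q4_unit_right _ hu]; exact isUnit_one
    · intro ρ hρ ho h
      rw [Q4_prime _ hρ]
      apply (psym_spec hρ ho _).1
      intro hd
      exact hρ.not_isUnit (h.isUnit_of_dvd' hd dvd_rfl)
    · intro a b ha hb h1 h2 h
      rw [Q4_mul_right _ ha.ne_zero hb.ne_zero]
      exact (h1 h.of_mul_right_left).mul (h2 h.of_mul_right_right)
  intro β hβ h
  exact key β hβ h

theorem Q4_eq_zero {α β ρ : GaussianInt} (hβ : Od β) (hρ : Prime ρ) (h1 : ρ ∣ α) (h2 : ρ ∣ β) :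
    Q4 α β = 0 := by
  obtain ⟨k, rfl⟩ := h2
  have ha : Od ρ := hβ.of_dvd (dvd_mul_right _ _)
  have hb : Od k := hβ.of_dvd (dvd_mul_left _ _)
  rw [Q4_mul_right _ ha.ne_zero hb.ne_zero, Q4_prime _ hρ, psym_zero hρ ha h1, zero_mul]

theorem Q4_star (α : GaussianInt) {β : GaussianInt} (hβ : Od β) :
    Q4 (star α) (star β) = star (Q4 α β) := by
  revert β
  apply od_induction
  · intro u hu
    rw [Q4_unit_right _ hu, Q4_unit_right _ (star_unit hu), star_one]
  · intro ρ hρ ho
    rw [Q4_prime _ hρ, Q4_prime _ (prime_star hρ)]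
    exact psym_star hρ ho α
  · intro a b ha hb h1 h2
    rw [star_mul, mul_comm (star b), Q4_mul_right _ ha.star.ne_zero hb.star.ne_zero,
      Q4_mul_right _ ha.ne_zero hb.ne_zero, h1, h2, star_mul, mul_comm]

theorem isCoprime_intCast {m n : ℤ} (h : IsCoprime m n) :
    IsCoprime (m : GaussianInt) (n : GaussianInt) := by
  obtain ⟨a, b, hab⟩ := h
  refine ⟨a, b, ?_⟩
  have := congrArg (fun t : ℤ => (t : GaussianInt)) hab
  push_cast at this
  exact this

theorem pow_card_sub_one_dvd {q : ℕ} (hq : q.Prime) {m : ℤ} (hm : ¬ (q : ℤ) ∣ m) :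
    (q : ℤ) ∣ m ^ (q - 1) - 1 := by
  have := Fact.mk hq
  rw [← ZMod.intCast_zmod_eq_zero_iff_dvd]
  push_cast
  rw [ZMod.pow_card_sub_one_eq_one, sub_self]
  intro h
  exact hm ((ZMod.intCast_zmod_eq_zero_iff_dvd _ _).1 h)

theorem psym_inert_int {q : ℕ} (hq : q.Prime) (hq3 : q % 4 = 3) {m : ℤ} (hm : ¬ (q : ℤ) ∣ m) :
    psym (q : GaussianInt) m = 1 := by
  have := Fact.mk hq
  have hρp : Prime (q : GaussianInt) := GaussianInt.prime_of_nat_prime_of_mod_four_eq_three q hq3
  have hρo : Od (q : GaussianInt) := by rw [od_natCast]; omega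
  apply psym_eq hρp hρo isUnit_one
  have hN : (q : GaussianInt).norm.natAbs = q * q := by
    rw [Zsqrtd.norm_natCast]; simp [Int.natAbs_mul]
  rw [hN]
  have h1 := pow_card_sub_one_dvd hq hm
  obtain ⟨k, hk⟩ : ∃ k, q = 4 * k + 3 := ⟨q / 4, by omega⟩
  have e2 : (q * q - 1) / 4 = (q - 1) * (k + 1) := by
    have e3 : q * q - 1 = 4 * ((q - 1) * (k + 1)) := by
      rw [hk]
      have : 4 * k + 3 - 1 = 4 * k + 2 := by omega
      rw [this]
      zify
      rw [Nat.cast_sub (by nlinarith)]
      push_cast; ring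
    rw [e3, Nat.mul_div_cancel_left _ (by norm_num)]
  have h2 : (q : ℤ) ∣ m ^ ((q * q - 1) / 4) - 1 := by
    rw [e2, pow_mul]
    have := h1.trans (sub_dvd_pow_sub_pow (m ^ (q - 1)) 1 (k + 1))
    simpa using this
  have h3 := Int.cast_dvd_cast (α := GaussianInt) _ _ h2
  push_cast at h3
  exact h3

/-- a rational prime `≡ 1 mod 4` splits -/
theorem exists_split {q : ℕ} (hq : q.Prime) (hq1 : q % 4 = 1) :
    ∃ ρ : GaussianInt, ρ.norm = q ∧ Prime ρ ∧ Od ρ ∧ (q : GaussianInt) = ρ * star ρ := by
  have := Fact.mk hq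
  obtain ⟨a, b, hab⟩ := Nat.Prime.sq_add_sq (p := q) (by omega)
  have hn : (⟨a, b⟩ : GaussianInt).norm = q := by
    rw [norm_val]; simp only
    exact_mod_cast hab
  refine ⟨⟨a, b⟩, hn, prime_of_norm hq hn, ?_, ?_⟩
  · unfold Od; rw [hn]; omega
  · rw [← Zsqrtd.norm_eq_mul_conj, hn]; simp

theorem Q4_nat_prime {q : ℕ} (hq : q.Prime) (hq2 : q % 2 = 1) {m : ℤ} (hm : ¬ (q : ℤ) ∣ m) :
    Q4 m (q : GaussianInt) = 1 := by
  have := Fact.mk hq
  have h4 : q % 4 = 1 ∨ q % 4 = 3 := by omega
  rcases h4 with h | h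
  · obtain ⟨ρ, hn, hρp, ho, hs⟩ := exists_split hq h
    rw [hs, Q4_mul_right _ ho.ne_zero ho.star.ne_zero, Q4_prime _ hρp, Q4_prime _ (prime_star hρp)]
    have h1 : psym (star ρ) (m : GaussianInt) = star (psym ρ (m : GaussianInt)) := by
      have := psym_star hρp ho (m : GaussianInt)
      rwa [star_intCast] at this
    rw [h1]
    apply unit_mul_star
    apply (psym_spec hρp ho _).1
    intro hd
    exact hm ((rat_dvd_of_dvd hq hρp.not_isUnit (dvd_norm_self ρ hn) m).1 hd)
  · rw [Q4_prime _ (GaussianInt.prime_of_nat_prime_of_mod_four_eq_three q h)]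
    exact psym_inert_int hq h hm

theorem Q4_nat_prime_zero {q : ℕ} (hq : q.Prime) (hq2 : q % 2 = 1) {m : ℤ} (hm : (q : ℤ) ∣ m) :
    Q4 m (q : GaussianInt) = 0 := by
  have hqo : Od (q : GaussianInt) := by rw [od_natCast]; exact hq2
  obtain ⟨ρ, hρ⟩ : ∃ ρ : GaussianInt, Prime ρ ∧ ρ ∣ (q : GaussianInt) := by
    have hnu : ¬ IsUnit (q : GaussianInt) := by
      rw [unit_iff, Zsqrtd.norm_natCast]
      intro h
      have h1 : (q * q : ℕ) = 1 := by exact_mod_cast h
      have := hq.one_lt
      nlinarith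
    obtain ⟨f, hf1, hf2⟩ := WfDvdMonoid.exists_irreducible_factor hnu hqo.ne_zero
    exact ⟨f, hf1.prime, hf2⟩
  apply Q4_eq_zero hqo hρ.1 _ hρ.2
  have h3 := Int.cast_dvd_cast (α := GaussianInt) _ _ hm
  push_cast at h3
  exact hρ.2.trans h3

/-- induction for odd integers -/
theorem odd_int_induction {P : ℤ → Prop} (h1 : P 1) (hneg : ∀ n, n % 2 = 1 → P n → P (-n))
    (hp : ∀ (q : ℕ) (n : ℤ), q.Prime → q % 2 = 1 → n % 2 = 1 → P n → P (q * n)) :
    ∀ n : ℤ, n % 2 = 1 → P n := by
  have key : ∀ n : ℕ, n % 2 = 1 → P (n : ℤ) := by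
    intro n
    induction n using induction_on_primes with
    | zero => intro h; simp at h
    | one => intro _; simpa using h1
    | prime_mul p a hpp ih =>
      intro h
      have h2 : p % 2 = 1 ∧ a % 2 = 1 := by
        rw [Nat.mul_mod] at h
        rcases Nat.mod_two_eq_zero_or_one p with h3 | h3 <;>
        rcases Nat.mod_two_eq_zero_or_one a with h4 | h4 <;> simp [h3, h4] at h ⊢
      have := hp p a hpp h2.1 (by omega) (ih h2.2)
      push_cast
      exact this
  intro n hn
  rcases Int.natAbs_eq n with h | h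
  · rw [h]; exact key _ (by omega)
  · rw [h]; exact hneg _ (by omega) (key _ (by omega))

theorem Q4_int_int {m n : ℤ} (hn : n % 2 = 1) (h : IsCoprime m n) : Q4 (m : GaussianInt) n = 1 := by
  revert h
  revert n
  have key : ∀ n : ℤ, n % 2 = 1 → IsCoprime m n → Q4 (m : GaussianInt) n = 1 := by
    apply odd_int_induction
    · intro _
      rw [Int.cast_one, Q4_unit_right _ isUnit_one]
    · intro n _ ih h
      rw [Int.cast_neg, Q4_neg_right]
      exact ih (by simpa using h.neg_right)
    · intro q n hq hq2 hn ih h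
      have hqo : Od (q : GaussianInt) := by rw [od_natCast]; exact hq2
      have hno : Od (n : GaussianInt) := by rw [od_intCast]; exact hn
      rw [Int.cast_mul, Int.cast_natCast, Q4_mul_right _ hqo.ne_zero hno.ne_zero,
        ih h.of_mul_right_right, mul_one]
      apply Q4_nat_prime hq hq2
      intro hd
      have h1 : IsCoprime m (q : ℤ) := h.of_mul_right_left
      have h2 := h1.isUnit_of_dvd' hd dvd_rfl
      exact (Nat.prime_iff_prime_int.1 hq).not_isUnit h2
  intro n hn h
  exact key n hn h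

/-- `(i/β)_4 = i^((Nβ-1)/4)` -/
theorem Q4_gI {β : GaussianInt} (hβ : Od β) : Q4 gI β = gI ^ ((β.norm.natAbs - 1) / 4) := by
  revert β
  apply od_induction
  · intro u hu
    rw [Q4_unit_right _ hu, (unit_iff u).1 hu]
    simp
  · intro ρ hρ ho
    rw [Q4_prime _ hρ]
    apply psym_eq hρ ho (isUnit_gI.pow _)
    simp
  · intro a b ha hb h1 h2
    rw [Q4_mul_right _ ha.ne_zero hb.ne_zero, h1, h2, Zsqrtd.norm_mul, Int.natAbs_mul, ← pow_add]
    have h3 := norm_mod_four ha
    have h4 := norm_mod_four hb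
    have h5 := norm_nn a
    have h6 := norm_nn b
    obtain ⟨k, hk⟩ : ∃ k, a.norm.natAbs = 4 * k + 1 := ⟨a.norm.natAbs / 4, by omega⟩
    obtain ⟨l, hl⟩ : ∃ l, b.norm.natAbs = 4 * l + 1 := ⟨b.norm.natAbs / 4, by omega⟩
    rw [hk, hl]
    have e1 : (4 * k + 1 - 1) / 4 = k := by omega
    have e2 : (4 * l + 1 - 1) / 4 = l := by omega
    have e3 : ((4 * k + 1) * (4 * l + 1) - 1) / 4 = k + l + 4 * (k * l) := by
      have : (4 * k + 1) * (4 * l + 1) - 1 = 4 * (k + l + 4 * (k * l)) := by
        zify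
        rw [Nat.cast_sub (by nlinarith)]
        push_cast; ring
      rw [this, Nat.mul_div_cancel_left _ (by norm_num)]
    rw [e1, e2, e3, pow_add gI (k + l), pow_mul, unit_pow_four isUnit_gI, one_pow, mul_one]

/-- the associate `≡ 1 mod 4` of an odd integer -/
def nst (n : ℤ) : ℤ := if n % 4 = 1 then n else -n

theorem nst_mul {m n : ℤ} (hm : m % 2 = 1) (hn : n % 2 = 1) : nst (m * n) = nst m * nst n := by
  unfold nst
  have h1 : m % 4 = 1 ∨ m % 4 = 3 := by omega
  have h2 : n % 4 = 1 ∨ n % 4 = 3 := by omega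
  rcases h1 with h1 | h1 <;> rcases h2 with h2 | h2 <;>
    simp [Int.mul_emod, h1, h2]

theorem nst_neg {n : ℤ} (hn : n % 2 = 1) : nst (-n) = nst n := by
  unfold nst
  have h2 : n % 4 = 1 ∨ n % 4 = 3 := by omega
  rcases h2 with h2 | h2
  · have : (-n) % 4 = 3 := by omega
    simp [h2, this]
  · have : (-n) % 4 = 1 := by omega
    simp [h2, this]

theorem exists_unit_im_even {z : GaussianInt} (hz : Od z) : ∃ u, IsUnit u ∧ (u * z).im % 2 = 0 := by
  have h : (z.re ^ 2 + z.im ^ 2) % 2 = 1 := by rw [← norm_val]; exact hz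
  rcases Int.emod_two_eq_zero_or_one z.im with h1 | h1
  · exact ⟨1, isUnit_one, by simpa using h1⟩
  · refine ⟨gI, isUnit_gI, ?_⟩
    have h2 : (gI * z).im = z.re := by simp
    rw [h2]
    rcases Int.emod_two_eq_zero_or_one z.re with h3 | h3
    · exact h3
    · exfalso
      obtain ⟨k, hk⟩ : ∃ k, z.re = 2 * k + 1 := ⟨z.re / 2, by omega⟩
      obtain ⟨l, hl⟩ : ∃ l, z.im = 2 * l + 1 := ⟨z.im / 2, by omega⟩
      rw [hk, hl] at h
      ring_nf at h
      omega

theorem od_im_even_re {z : GaussianInt} (hz : Od z) (h : z.im % 2 = 0) : z.re % 2 = 1 := by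
  have h5 : (z.re ^ 2 + z.im ^ 2) % 2 = 1 := by rw [← norm_val]; exact hz
  obtain ⟨m, hm⟩ : ∃ m, z.im = 2 * m := ⟨z.im / 2, by omega⟩
  rcases Int.even_or_odd' z.re with ⟨l, hl | hl⟩
  · rw [hl, hm] at h5; ring_nf at h5; omega
  · omega

theorem unit_im_even_unique {z u v : GaussianInt} (hz : Od z) (hu : IsUnit u) (hv : IsUnit v)
    (h1 : (u * z).im % 2 = 0) (h2 : (v * z).im % 2 = 0) : u = v ∨ u = -v := by
  -- w = u * star v
  have h3 : (u * z).re % 2 = 1 := od_im_even_re ((od_unit hu).mul hz) h1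
  have h4 : (v * z).re % 2 = 1 := od_im_even_re ((od_unit hv).mul hz) h2
  rcases unit_cases hu with h | h | h | h <;> rcases unit_cases hv with h' | h' | h' | h' <;>
    subst h <;> subst h' <;> simp at h1 h2 h3 h4 ⊢ <;> omega

theorem Q4_neg_one_int {n : ℤ} (hn : n % 2 = 1) : Q4 (-1) (n : GaussianInt) = 1 := by
  have := Q4_int_int (m := -1) hn ⟨-1, 0, by ring⟩
  simpa using this

theorem Q4_neg_left_int (α : GaussianInt) {n : ℤ} (hn : n % 2 = 1) :
    Q4 (-α) (n : GaussianInt) = Q4 α n := by
  have h : Od (n : GaussianInt) := od_intCast.2 hn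
  rw [← neg_one_mul, Q4_mul_left _ _ h, Q4_neg_one_int hn, one_mul]

/-- reciprocity for `λ` against an odd rational prime -/
theorem RG_prime {q : ℕ} (hq : q.Prime) (hq2 : q % 2 = 1) :
    ∀ l : GaussianInt, Od l → ∀ u, IsUnit u → (u * l).im % 2 = 0 →
      Q4 (nst q : GaussianInt) l = Q4 (u * l) (q : GaussianInt) := by
  have hqo : Od (q : GaussianInt) := by rw [od_natCast]; exact hq2
  have hq2' : (q : ℤ) % 2 = 1 := by omega
  have hneg : ∀ α, Q4 (-α) (q : GaussianInt) = Q4 α q := by
    intro α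
    have := Q4_neg_left_int α hq2'
    simpa using this
  apply od_induction
  · intro v hv u hu h
    rw [Q4_unit_right _ hv]
    have h1 : u * v = 1 ∨ u * v = -1 := by
      rcases unit_cases (hu.mul hv) with h2 | h2 | h2 | h2
      · exact Or.inl h2
      · exact Or.inr h2
      · rw [h2] at h; simp at h
      · rw [h2] at h; simp at h
    rcases h1 with h1 | h1
    · rw [h1, Q4_one_left hqo]
    · rw [h1, hneg, Q4_one_left hqo]
  · intro l hl ho u hu h
    obtain ⟨r, hr, hlr, hcase⟩ := prime_class hl ho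
    rcases hcase with ⟨hn, h1⟩ | ⟨ha, h3⟩
    · -- degree one
      set π := u * l with hπ
      have hπn : π.norm = r := by
        rw [hπ, Zsqrtd.norm_mul, (unit_iff u).1 hu, one_mul, hn]
      have hπo : Od π := (od_unit hu).mul ho
      have hπp := prime_of_norm hr hπn
      rw [← Q4_unit_mul _ hu l, ← hπ, Q4_prime _ hπp]
      by_cases hqr : q = r
      · -- both zero
        subst hqr
        have hd := dvd_norm_self π hπn
        rw [Q4_eq_zero hqo hπp dvd_rfl hd]
        apply psym_zero hπp hπo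
        unfold nst
        split_ifs
        · simpa using hd
        · simpa using hd
      · have h4 : q % 4 = 1 ∨ q % 4 = 3 := by omega
        rcases h4 with h4 | h4
        · obtain ⟨ρ, hρn, hρp, hρo, hs⟩ := exists_split hq h4
          have h5 : nst q = q := by
            unfold nst
            rw [if_pos (by omega)]
          rw [h5, Int.cast_natCast, rec1 hr hπn hπo h hq hqr h4 hρn]
          rw [hs, Q4_mul_right _ hρo.ne_zero hρo.star.ne_zero, Q4_prime _ hρp,
            Q4_prime _ (prime_star hρp)]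
        · have h5 : nst q = -q := by
            unfold nst
            rw [if_neg (by omega)]
          have hqp : Prime (q : GaussianInt) := by
            have := Fact.mk hq
            exact GaussianInt.prime_of_nat_prime_of_mod_four_eq_three q h4
          rw [h5, Int.cast_neg, Int.cast_natCast, rec3 hr hπn hπo h hq h4, Q4_prime _ hqp]
    · -- inert
      have hr2 : r % 2 = 1 := by omega
      have hro : Od (r : GaussianInt) := by rw [od_natCast]; exact hr2
      obtain ⟨v, hv⟩ := ha
      have hvu : IsUnit (v : GaussianInt) := v.isUnit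
      rw [Q4_assoc _ (⟨v, hv⟩ : Associated l (r : GaussianInt))]
      -- u * l = ± r
      have h5 : u * l = r ∨ u * l = -r := by
        have h6 : (((v⁻¹ : GaussianIntˣ) : GaussianInt) * (r : GaussianInt)) = l := by
          rw [← hv, mul_comm, mul_assoc, Units.mul_inv, mul_one]
        have h7 : u * l = (u * ((v⁻¹ : GaussianIntˣ) : GaussianInt)) * r := by
          rw [mul_assoc, h6]
        rw [h7] at h ⊢
        have h8 : IsUnit (u * ((v⁻¹ : GaussianIntˣ) : GaussianInt)) := hu.mul (Units.isUnit _)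
        rcases unit_im_even_unique hro h8 isUnit_one h (by simp) with h9 | h9
        · left; rw [h9, one_mul]
        · right; rw [h9, neg_mul, one_mul]
      have h6 : Q4 (u * l) (q : GaussianInt) = Q4 (r : GaussianInt) q := by
        rcases h5 with h5 | h5
        · rw [h5]
        · rw [h5, hneg]
      rw [h6]
      by_cases hqr : q = r
      · subst hqr
        have z1 := Q4_nat_prime_zero hq hq2 (m := nst q) (by
          unfold nst; split_ifs
          · exact dvd_rfl
          · exact (dvd_neg.2 dvd_rfl))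
        have z2 := Q4_nat_prime_zero hq hq2 (m := q) dvd_rfl
        rw [z1]
        simpa using z2.symm
      · have c1 : ¬ (r : ℤ) ∣ nst q := by
          intro h
          have h7 : (r : ℤ) ∣ q := by
            unfold nst at h
            split_ifs at h
            · exact h
            · exact (dvd_neg.1 h)
          have h8 : r ∣ q := by exact_mod_cast h7
          exact hqr ((Nat.prime_dvd_prime_iff_eq hr hq).1 h8).symm
        have c2 : ¬ (q : ℤ) ∣ (r : ℤ) := by
          intro h
          have h8 : q ∣ r := by exact_mod_cast h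
          exact hqr ((Nat.prime_dvd_prime_iff_eq hq hr).1 h8)
        rw [Q4_nat_prime hr hr2 c1]
        have := Q4_nat_prime hq hq2 c2
        simpa using this.symm
  · intro a b ha hb h1 h2 u hu h
    obtain ⟨ua, hua, hua'⟩ := exists_unit_im_even ha
    obtain ⟨ub, hub, hub'⟩ := exists_unit_im_even hb
    have h3 : ((ua * ub) * (a * b)).im % 2 = 0 := by
      have e : (ua * ub) * (a * b) = (ua * a) * (ub * b) := by ring
      rw [e, Zsqrtd.im_mul]
      have e1 : ∀ s t : ℤ, t % 2 = 0 → (s * t) % 2 = 0 := by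
        intro s t ht; rw [Int.mul_emod, ht]; simp
      rw [Int.add_emod, e1 _ _ hub', mul_comm (ua * a).im, e1 _ _ hua']; rfl
    have h4 := unit_im_even_unique (ha.mul hb) hu (hua.mul hub) h h3
    have h5 : Q4 (u * (a * b)) (q : GaussianInt) = Q4 ((ua * a) * (ub * b)) (q : GaussianInt) := by
      rcases h4 with h4 | h4
      · rw [h4]; congr 1; ring
      · rw [h4, neg_mul, hneg]; congr 1; ring
    rw [h5, Q4_mul_left _ _ hqo, Q4_mul_right _ ha.ne_zero hb.ne_zero, h1 ua hua hua',
      h2 ub hub hub']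

/-- **Reciprocity between a Gaussian and a rational integer**: for odd `n` and `l` odd with even
imaginary part, `(n*/l)_4 = (l/n)_4`. -/
theorem RG {l : GaussianInt} (hl : Od l) (him : l.im % 2 = 0) :
    ∀ n : ℤ, n % 2 = 1 → Q4 (nst n : GaussianInt) l = Q4 l (n : GaussianInt) := by
  apply odd_int_induction
  · rw [Int.cast_one, Q4_unit_right _ isUnit_one]
    have : nst 1 = 1 := rfl
    rw [this, Int.cast_one, Q4_one_left hl]
  · intro n hn ih
    rw [nst_neg hn, ih, Int.cast_neg, Q4_neg_right]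
  · intro q n hq hq2 hn ih
    have hqo : Od (q : GaussianInt) := by rw [od_natCast]; exact hq2
    have hno : Od (n : GaussianInt) := by rw [od_intCast]; exact hn
    have h := RG_prime hq hq2 l hl 1 isUnit_one (by simpa using him)
    rw [one_mul] at h
    rw [nst_mul (by omega) hn, Int.cast_mul, Q4_mul_left _ _ hl, h, ih, Int.cast_mul,
      Int.cast_natCast, Q4_mul_right _ hqo.ne_zero hno.ne_zero]

end Pool.Agent.Quartic82
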