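import Mathlib
import Pool.Agent.Lib_helper82.Quartic.Symbol

/-!
Quadratic residue symbol in `ℤ[i]` and reciprocity laws for primitive elements.
-/

namespace Pool.Agent.Quartic82

open Zsqrtd UniqueFactorizationMonoid

/-- quadratic residue symbol -/
noncomputable def Q2 (α β : GaussianInt) : GaussianInt := Q4 α β ^ 2

theorem Q2_mul_left (α α' : GaussianInt) {β : GaussianInt} (hβ : Od β) :
    Q2 (α * α') β = Q2 α β * Q2 α' β := by
  unfold Q2; rw [Q4_mul_left _ _ hβ]; ring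

theorem Q2_mul_right (α : GaussianInt) {β β' : GaussianInt} (h : β ≠ 0) (h' : β' ≠ 0) :
    Q2 α (β * β') = Q2 α β * Q2 α β' := by
  unfold Q2; rw [Q4_mul_right _ h h']; ring

theorem Q2_congr {α α' β : GaussianInt} (hβ : Od β) (h : β ∣ α - α') : Q2 α β = Q2 α' β := by
  unfold Q2; rw [Q4_congr hβ h]

theorem Q2_isUnit {α β : GaussianInt} (hβ : Od β) (h : IsCoprime α β) : IsUnit (Q2 α β) :=
  (Q4_isUnit hβ h).pow 2

theorem Q2_eq_Q4_sq (α : GaussianInt) {β : GaussianInt} (hβ : Od β) : Q4 (α ^ 2) β = Q2 α β := by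
  unfold Q2; rw [Q4_pow_left _ _ hβ]

theorem Q2_sq {α β : GaussianInt} (hβ : Od β) (h : IsCoprime α β) : Q2 α β * Q2 α β = 1 := by
  unfold Q2
  have := unit_pow_four (Q4_isUnit hβ h)
  rw [← this]; ring

theorem Q2_pm {α β : GaussianInt} (hβ : Od β) (h : IsCoprime α β) : Q2 α β = 1 ∨ Q2 α β = -1 := by
  have h1 := Q2_sq hβ h
  have h2 : (Q2 α β - 1) * (Q2 α β + 1) = 0 := by linear_combination h1
  rcases mul_eq_zero.1 h2 with h3 | h3
  · left; exact sub_eq_zero.1 h3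
  · right; exact eq_neg_of_add_eq_zero_left h3

theorem Q2_sq_left {α β : GaussianInt} (hβ : Od β) (h : IsCoprime α β) : Q2 (α ^ 2) β = 1 := by
  rw [pow_two, Q2_mul_left _ _ hβ, Q2_sq hβ h]

theorem Q2_star {α β : GaussianInt} (hβ : Od β) (h : IsCoprime α β) :
    Q2 (star α) (star β) = Q2 α β := by
  have h1 : Q2 (star α) (star β) = star (Q2 α β) := by
    unfold Q2; rw [Q4_star _ hβ, star_pow]
  rw [h1]
  rcases Q2_pm hβ h with h2 | h2 <;> rw [h2] <;> simp

theorem Q2_assoc (α : GaussianInt) {β β' : GaussianInt} (h : Associated β β') :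
    Q2 α β = Q2 α β' := by
  unfold Q2; rw [Q4_assoc _ h]

theorem Q2_unit_mul (α : GaussianInt) {u : GaussianInt} (hu : IsUnit u) (β : GaussianInt) :
    Q2 α (u * β) = Q2 α β := by
  unfold Q2; rw [Q4_unit_mul _ hu]

theorem Q4_neg_one_sq {β : GaussianInt} (hβ : Od β) : Q4 (-1) β * Q4 (-1) β = 1 := by
  rw [← Q4_mul_left _ _ hβ, neg_mul_neg, one_mul, Q4_one_left hβ]

theorem Q2_neg_one {β : GaussianInt} (hβ : Od β) : Q2 (-1) β = 1 := by
  unfold Q2; rw [pow_two, Q4_neg_one_sq hβ]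

theorem Q2_neg_left (α : GaussianInt) {β : GaussianInt} (hβ : Od β) : Q2 (-α) β = Q2 α β := by
  rw [← neg_one_mul, Q2_mul_left _ _ hβ, Q2_neg_one hβ, one_mul]

theorem Q2_int_int {m n : ℤ} (hn : n % 2 = 1) (h : IsCoprime m n) : Q2 (m : GaussianInt) n = 1 := by
  unfold Q2; rw [Q4_int_int hn h, one_pow]

theorem Q2_gI {β : GaussianInt} (hβ : Od β) : Q2 gI β = Q4 (-1) β := by
  rw [← Q2_eq_Q4_sq _ hβ, gI_sq]

theorem Q2_gI_int {n : ℤ} (hn : n % 2 = 1) : Q2 gI (n : GaussianInt) = 1 := by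
  rw [Q2_gI (od_intCast.2 hn), Q4_neg_one_int hn]

/-- quadratic version of the reciprocity with rational integers -/
theorem RG2 {l : GaussianInt} (hl : Od l) (him : l.im % 2 = 0) (n : ℤ) (hn : n % 2 = 1) :
    Q2 (n : GaussianInt) l = Q2 l (n : GaussianInt) := by
  have h := RG hl him n hn
  have h1 : Q2 (nst n : GaussianInt) l = Q2 (n : GaussianInt) l := by
    unfold nst
    split_ifs
    · rfl
    · rw [Int.cast_neg, Q2_neg_left _ hl]
  rw [← h1]
  unfold Q2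
  rw [h]

theorem coprime_int_of {m n : ℤ} (h : IsCoprime (m : GaussianInt) (n : GaussianInt)) :
    IsCoprime m n := by
  obtain ⟨u, v, huv⟩ := h
  refine ⟨u.re, v.re, ?_⟩
  have := congrArg Zsqrtd.re huv
  simpa using this

theorem isCoprime_star {α β : GaussianInt} (h : IsCoprime α β) : IsCoprime (star α) (star β) := by
  obtain ⟨u, v, huv⟩ := h
  refine ⟨star u, star v, ?_⟩
  have := congrArg star huv
  rw [star_add, star_mul, star_mul, star_one] at this
  rw [mul_comm, mul_comm (star v)]; exact this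

theorem coprime_unit_left {u α β : GaussianInt} (hu : IsUnit u) (h : IsCoprime α β) :
    IsCoprime (u * α) β := (isCoprime_mul_unit_left_left hu α β).2 h

/-- a primitive element is coprime to its real part -/
theorem coprime_re {c d : ℤ} (h : IsCoprime c d) : IsCoprime (c : GaussianInt) (⟨c, d⟩ : GaussianInt) := by
  have h1 : IsCoprime (c : GaussianInt) (gI * d) :=
    (isCoprime_mul_unit_left_right isUnit_gI _ _).2 (isCoprime_intCast h)
  have h2 : (⟨c, d⟩ : GaussianInt) = gI * d + c * 1 := by ext <;> simp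
  rw [h2]
  exact h1.add_mul_left_right 1

/-- the symbol of the real part -/
theorem Q2_re {c d : ℤ} (hc : c % 2 = 1) (hd : d % 2 = 0) (h : IsCoprime c d)
    (ho : Od (⟨c, d⟩ : GaussianInt)) : Q2 (c : GaussianInt) (⟨c, d⟩ : GaussianInt) = 1 := by
  rw [RG2 ho (by simpa using hd) c hc]
  have hco : Od (c : GaussianInt) := od_intCast.2 hc
  have h2 : (⟨c, d⟩ : GaussianInt) - gI * d = (c : GaussianInt) * 1 := by ext <;> simp
  rw [Q2_congr hco (α' := gI * d) (by rw [h2]; exact dvd_mul_right _ _), Q2_mul_left _ _ hco,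
    Q2_gI_int hc, Q2_int_int hc h.symm, one_mul]

theorem Q4_re {c d : ℤ} (hc : c % 4 = 1) (hd : d % 2 = 0) (h : IsCoprime c d)
    (ho : Od (⟨c, d⟩ : GaussianInt)) :
    Q4 (c : GaussianInt) (⟨c, d⟩ : GaussianInt) = Q4 gI (c : GaussianInt) := by
  have h1 := RG ho (by simpa using hd) c (by omega)
  have h3 : nst c = c := by unfold nst; rw [if_pos hc]
  rw [h3] at h1
  rw [h1]
  have hco : Od (c : GaussianInt) := od_intCast.2 (by omega)
  have h2 : (⟨c, d⟩ : GaussianInt) - gI * d = (c : GaussianInt) * 1 := by ext <;> simp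
  rw [Q4_congr hco (α' := gI * d) (by rw [h2]; exact dvd_mul_right _ _), Q4_mul_left _ _ hco,
    Q4_int_int (by omega) h.symm, mul_one]

section recip

variable {a b c d : ℤ}

theorem odd_s (ha : a % 2 = 1) (hb : b % 2 = 0) (hc : c % 2 = 1) :
    (a * c + b * d) % 2 = 1 := by
  rw [Int.add_emod, Int.mul_emod, Int.mul_emod b, ha, hb, hc]; simp

theorem cong1 : (⟨c, d⟩ : GaussianInt) ∣ (c : GaussianInt) * ⟨a, b⟩ - ((a * c + b * d : ℤ) : GaussianInt) := by
  refine ⟨b * gI, ?_⟩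
  ext <;> simp <;> ring

theorem cong2 : (⟨a, b⟩ : GaussianInt) ∣ (a : GaussianInt) * ⟨c, d⟩ - ((a * c + b * d : ℤ) : GaussianInt) := by
  refine ⟨d * gI, ?_⟩
  ext <;> simp <;> ring

theorem coprime_s1 (hcd : IsCoprime c d)
    (h : IsCoprime (⟨a, b⟩ : GaussianInt) (⟨c, d⟩ : GaussianInt)) :
    IsCoprime ((a * c + b * d : ℤ) : GaussianInt) (⟨c, d⟩ : GaussianInt) := by
  obtain ⟨k, hk⟩ := @cong1 a b c d
  have h1 : IsCoprime ((c : GaussianInt) * ⟨a, b⟩) (⟨c, d⟩ : GaussianInt) :=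
    (coprime_re hcd).mul_left h
  have e : ((a * c + b * d : ℤ) : GaussianInt) = (c : GaussianInt) * ⟨a, b⟩ + ⟨c, d⟩ * (-k) := by
    linear_combination (-1 : GaussianInt) * hk
  rw [e]
  exact h1.add_mul_left_left _

theorem coprime_s2 (hab : IsCoprime a b)
    (h : IsCoprime (⟨a, b⟩ : GaussianInt) (⟨c, d⟩ : GaussianInt)) :
    IsCoprime ((a * c + b * d : ℤ) : GaussianInt) (⟨a, b⟩ : GaussianInt) := by
  obtain ⟨k, hk⟩ := @cong2 a b c d
  have h1 : IsCoprime ((a : GaussianInt) * ⟨c, d⟩) (⟨a, b⟩ : GaussianInt) :=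
    (coprime_re hab).mul_left h.symm
  have e : ((a * c + b * d : ℤ) : GaussianInt) = (a : GaussianInt) * ⟨c, d⟩ + ⟨a, b⟩ * (-k) := by
    linear_combination (-1 : GaussianInt) * hk
  rw [e]
  exact h1.add_mul_left_left _

theorem mul_star_eq : (⟨a, b⟩ : GaussianInt) * star (⟨c, d⟩ : GaussianInt)
    = ((a * c + b * d : ℤ) : GaussianInt) + gI * ((b * c - a * d : ℤ) : GaussianInt) := by
  ext <;> simp <;> ring

theorem coprime_s3 (hab : IsCoprime a b) (hcd : IsCoprime c d)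
    (h : IsCoprime (⟨a, b⟩ : GaussianInt) (⟨c, d⟩ : GaussianInt)) :
    IsCoprime (b * c - a * d) (a * c + b * d) := by
  apply coprime_int_of
  have h1 := coprime_s1 hcd h
  have h2 := coprime_s2 hab h
  have h3 := isCoprime_star h1
  rw [star_intCast] at h3
  have h4 := h2.mul_right h3
  rw [mul_star_eq] at h4
  have h5 : IsCoprime ((a * c + b * d : ℤ) : GaussianInt)
      (gI * ((b * c - a * d : ℤ) : GaussianInt)) := by
    have := h4.add_mul_left_right (-1)
    have e : ((a * c + b * d : ℤ) : GaussianInt) + gI * ((b * c - a * d : ℤ) : GaussianInt)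
      + ((a * c + b * d : ℤ) : GaussianInt) * (-1) = gI * ((b * c - a * d : ℤ) : GaussianInt) := by
      ring
    rwa [e] at this
  exact ((isCoprime_mul_unit_left_right isUnit_gI _ _).1 h5).symm

/-- quadratic reciprocity for primitive elements of `ℤ[i]` -/
theorem Q2_recip (ha : a % 2 = 1) (hb : b % 2 = 0) (hc : c % 2 = 1) (hd : d % 2 = 0)
    (hab : IsCoprime a b) (hcd : IsCoprime c d)
    (h : IsCoprime (⟨a, b⟩ : GaussianInt) (⟨c, d⟩ : GaussianInt))
    (hα : Od (⟨a, b⟩ : GaussianInt)) (hβ : Od (⟨c, d⟩ : GaussianInt)) :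
    Q2 (⟨a, b⟩ : GaussianInt) (⟨c, d⟩ : GaussianInt)
      = Q2 (⟨c, d⟩ : GaussianInt) (⟨a, b⟩ : GaussianInt) := by
  have hs := odd_s (d := d) ha hb hc
  have hso : Od ((a * c + b * d : ℤ) : GaussianInt) := od_intCast.2 hs
  have e1 := Q2_congr hβ (@cong1 a b c d)
  have e2 := Q2_congr hα (@cong2 a b c d)
  rw [Q2_mul_left _ _ hβ, Q2_re hc hd hcd hβ, one_mul] at e1
  rw [Q2_mul_left _ _ hα, Q2_re ha hb hab hα, one_mul] at e2
  rw [e1, e2, RG2 hβ (by simpa using hd) _ hs, RG2 hα (by simpa using hb) _ hs]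
  -- compare
  have h1 := coprime_s1 hcd h
  have h2 := coprime_s2 hab h
  have h3 := coprime_s3 hab hcd h
  have e3 : Q2 ((⟨a, b⟩ : GaussianInt) * star (⟨c, d⟩ : GaussianInt))
      ((a * c + b * d : ℤ) : GaussianInt) = 1 := by
    rw [Q2_congr hso (α' := gI * ((b * c - a * d : ℤ) : GaussianInt)), Q2_mul_left _ _ hso,
      Q2_gI_int hs, Q2_int_int hs h3, one_mul]
    rw [mul_star_eq]
    refine ⟨1, by ring⟩
  have e4 : Q2 (star (⟨c, d⟩ : GaussianInt)) ((a * c + b * d : ℤ) : GaussianInt)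
      = Q2 (⟨c, d⟩ : GaussianInt) ((a * c + b * d : ℤ) : GaussianInt) := by
    have := Q2_star hso h1.symm
    rwa [star_intCast] at this
  rw [Q2_mul_left _ _ hso, e4] at e3
  have e5 := Q2_sq hso h1.symm
  calc Q2 (⟨c, d⟩ : GaussianInt) ((a * c + b * d : ℤ) : GaussianInt)
      = (Q2 (⟨a, b⟩ : GaussianInt) ((a * c + b * d : ℤ) : GaussianInt) *
        Q2 (⟨c, d⟩ : GaussianInt) ((a * c + b * d : ℤ) : GaussianInt)) *
        Q2 (⟨c, d⟩ : GaussianInt) ((a * c + b * d : ℤ) : GaussianInt) := by rw [e3, one_mul]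
    _ = Q2 (⟨a, b⟩ : GaussianInt) ((a * c + b * d : ℤ) : GaussianInt) := by
        rw [mul_assoc, e5, mul_one]

/-- quartic reciprocity for primitive elements with real parts `≡ 1 mod 4` -/
theorem Q4_recip (ha : a % 4 = 1) (hb : b % 2 = 0) (hc : c % 4 = 1) (hd : d % 2 = 0)
    (hs1 : (a * c + b * d) % 4 = 1)
    (hab : IsCoprime a b) (hcd : IsCoprime c d)
    (h : IsCoprime (⟨a, b⟩ : GaussianInt) (⟨c, d⟩ : GaussianInt))
    (hα : Od (⟨a, b⟩ : GaussianInt)) (hβ : Od (⟨c, d⟩ : GaussianInt)) :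
    Q4 gI (a : GaussianInt) * Q4 (⟨c, d⟩ : GaussianInt) (⟨a, b⟩ : GaussianInt)
      = Q4 gI ((a * c + b * d : ℤ) : GaussianInt) *
        (Q4 gI (c : GaussianInt) * Q4 (⟨a, b⟩ : GaussianInt) (⟨c, d⟩ : GaussianInt)) := by
  have hs : (a * c + b * d) % 2 = 1 := by omega
  have hso : Od ((a * c + b * d : ℤ) : GaussianInt) := od_intCast.2 hs
  have e1 := Q4_congr hβ (@cong1 a b c d)
  have e2 := Q4_congr hα (@cong2 a b c d)
  rw [Q4_mul_left _ _ hβ, Q4_re hc hd hcd hβ] at e1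
  rw [Q4_mul_left _ _ hα, Q4_re ha hb hab hα] at e2
  have hnst : nst (a * c + b * d) = a * c + b * d := by unfold nst; rw [if_pos hs1]
  have r1 := RG hβ (by simpa using hd) _ hs
  have r2 := RG hα (by simpa using hb) _ hs
  rw [hnst] at r1 r2
  rw [e1, e2, r1, r2]
  -- compare
  have h1 := coprime_s1 hcd h
  have h3 := coprime_s3 hab hcd h
  have e3 : Q4 ((⟨a, b⟩ : GaussianInt) * star (⟨c, d⟩ : GaussianInt))
      ((a * c + b * d : ℤ) : GaussianInt) = Q4 gI ((a * c + b * d : ℤ) : GaussianInt) := by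
    rw [Q4_congr hso (α' := gI * ((b * c - a * d : ℤ) : GaussianInt)), Q4_mul_left _ _ hso,
      Q4_int_int hs h3, mul_one]
    rw [mul_star_eq]
    refine ⟨1, by ring⟩
  have e4 : Q4 (star (⟨c, d⟩ : GaussianInt)) ((a * c + b * d : ℤ) : GaussianInt)
      = star (Q4 (⟨c, d⟩ : GaussianInt) ((a * c + b * d : ℤ) : GaussianInt)) := by
    have := Q4_star (⟨c, d⟩ : GaussianInt) hso
    rwa [star_intCast] at this
  rw [Q4_mul_left _ _ hso, e4] at e3
  have e5 := unit_mul_star (Q4_isUnit hso h1.symm)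
  rw [← e3]
  calc Q4 (⟨a, b⟩ : GaussianInt) ((a * c + b * d : ℤ) : GaussianInt)
      = Q4 (⟨a, b⟩ : GaussianInt) ((a * c + b * d : ℤ) : GaussianInt) *
        (Q4 (⟨c, d⟩ : GaussianInt) ((a * c + b * d : ℤ) : GaussianInt) *
        star (Q4 (⟨c, d⟩ : GaussianInt) ((a * c + b * d : ℤ) : GaussianInt))) := by
          rw [e5, mul_one]
    _ = _ := by ring

end recip

/-- the prime above `2` -/
abbrev gT : GaussianInt := ⟨1, 1⟩

theorem two_eq : (2 : GaussianInt) = (-gI) * gT ^ 2 := by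
  rw [pow_two]; ext <;> simp

theorem coprime_gT {β : GaussianInt} (hβ : Od β) : IsCoprime gT β := by
  -- 2 is coprime to β
  have h : IsCoprime (2 : ℤ) β.norm := by
    rw [Int.isCoprime_iff_gcd_eq_one]
    have h1 : β.norm % 2 = 1 := hβ
    have h2 : Int.gcd 2 β.norm = Int.gcd 2 (β.norm % 2) := by
      rw [Int.gcd_comm 2 (β.norm % 2), Int.gcd_emod, Int.gcd_comm]
    rw [h2, h1]; rfl
  have h1 := isCoprime_intCast h
  rw [Zsqrtd.norm_eq_mul_conj] at h1
  have h2 := h1.of_mul_right_left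
  apply h2.of_isCoprime_of_dvd_left
  refine ⟨⟨1, -1⟩, ?_⟩
  ext <;> simp

theorem Q2_two {β : GaussianInt} (hβ : Od β) : Q2 2 β = Q2 gI β := by
  rw [two_eq, Q2_mul_left _ _ hβ, Q2_neg_left _ hβ, Q2_sq_left hβ (coprime_gT hβ), mul_one]

theorem Q2_gT_int {n : ℤ} (hn : n % 2 = 1) :
    Q2 (star gT) (n : GaussianInt) = Q4 gI (n : GaussianInt) := by
  have ho : Od (n : GaussianInt) := od_intCast.2 hn
  rw [← Q2_eq_Q4_sq _ ho]
  have e : (star gT) ^ 2 = (-1 : GaussianInt) * (gI * ((2 : ℤ) : GaussianInt)) := by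
    rw [pow_two]; ext <;> simp
  rw [e, Q4_mul_left _ _ ho, Q4_mul_left _ _ ho, Q4_neg_one_int hn, one_mul,
    Q4_int_int (m := 2) hn, mul_one]
  rw [Int.isCoprime_iff_gcd_eq_one]
  have h2 : Int.gcd 2 n = Int.gcd 2 (n % 2) := by
    rw [Int.gcd_comm 2 (n % 2), Int.gcd_emod, Int.gcd_comm]
  rw [h2, hn]; rfl

/-- `((1+i)/(c+di))_2 = (2/(c+d))` in the form `(i/(c+d))_4` -/
theorem Q2_gT {c d : ℤ} (hc : c % 2 = 1) (hd : d % 2 = 0) (h : IsCoprime c d)
    (ho : Od (⟨c, d⟩ : GaussianInt)) :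
    Q2 gT (⟨c, d⟩ : GaussianInt) = Q4 gI ((c + d : ℤ) : GaussianInt) := by
  have hs : (c + d) % 2 = 1 := by omega
  have hso : Od ((c + d : ℤ) : GaussianInt) := od_intCast.2 hs
  have e1 : (⟨c, d⟩ : GaussianInt) ∣ (c : GaussianInt) * gT - ((c + d : ℤ) : GaussianInt) := by
    refine ⟨gI, ?_⟩
    ext <;> simp
  have e2 := Q2_congr ho e1
  rw [Q2_mul_left _ _ ho, Q2_re hc hd h ho, one_mul, RG2 ho (by simpa using hd) _ hs] at e2
  rw [e2]
  have e3 : ((c + d : ℤ) : GaussianInt) ∣ (⟨c, d⟩ : GaussianInt) - (c : GaussianInt) * star gT := by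
    refine ⟨gI, ?_⟩
    ext <;> simp
    ring
  have hco : IsCoprime c (c + d) := by
    have := h.add_mul_left_right 1
    rwa [mul_one, add_comm] at this
  rw [Q2_congr hso e3, Q2_mul_left _ _ hso, Q2_int_int hs hco, one_mul, Q2_gT_int hs]

end Pool.Agent.Quartic82
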