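import Mathlib
import Pool.Agent.Lib_helper82.Quartic.Quad

/-!
The auxiliary element `F` and the chain of reciprocities.
-/

namespace Pool.Agent.Quartic82

open Zsqrtd UniqueFactorizationMonoid

/-- A configuration: the data `p = c² + d² = x² + (1+B²) y²` together with an auxiliary
Gaussian integer `l = a + b i`. -/
structure Cfg where
  p : ℕ
  c : ℤ
  d : ℤ
  x : ℤ
  y : ℤ
  B : ℤ
  a : ℤ
  b : ℤ
  n0 : ℤ
  X : ℤ
  Y : ℤ
  e : ℕ
  hp : p.Prime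
  hcd : (p : ℤ) = c ^ 2 + d ^ 2
  hxy : (p : ℤ) = x ^ 2 + (1 + B ^ 2) * y ^ 2
  hc : c % 4 = 1
  hd : d % 2 = 0
  hB : B % 4 = 2
  ha : a % 2 = 1
  hb : b % 2 = 0
  hab : IsCoprime a b
  hL : ¬ (p : ℤ) ∣ a ^ 2 + b ^ 2
  hL8 : (a ^ 2 + b ^ 2) % 8 = 1
  hn : a ^ 2 * (c + x) - 2 * a * b * d + b ^ 2 * (x - c) = 2 ^ e * n0
  hn0 : n0 % 2 = 1
  hny : IsCoprime n0 y
  hnD : IsCoprime n0 (1 + B ^ 2)
  hnx : ∀ q : ℕ, q.Prime → q % 2 = 1 → (q : ℤ) ∣ x → ¬ (q : ℤ) ∣ 2 ^ e * n0 + (a ^ 2 + b ^ 2) * y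
  hX : a * (c + x + y) - b * (d + B * y) = 2 * X
  hY : a * (d - B * y) + b * (c - x - y) = 2 * Y
  hF0 : (X ^ 2 + Y ^ 2) % 2 = 1
  hx0 : ¬ (p : ℤ) ∣ x
  hy0 : ¬ (p : ℤ) ∣ y
  hD0 : ¬ (p : ℤ) ∣ 1 + B ^ 2

namespace Cfg

variable (C : Cfg)

/-- `π = c + d i` -/
def pi : GaussianInt := ⟨C.c, C.d⟩
/-- `γ = B + i` -/
def g : GaussianInt := ⟨C.B, 1⟩
/-- `γ' = 1 - B i` -/
def g' : GaussianInt := ⟨1, -C.B⟩
/-- `λ = a + b i` -/
def l : GaussianInt := ⟨C.a, C.b⟩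
/-- `F₀` -/
def F : GaussianInt := ⟨C.X, C.Y⟩
/-- `κ' = B y + i (x + y)` -/
def k : GaussianInt := ⟨C.B * C.y, C.x + C.y⟩

/-- The integer `E = Im (λ² π) - |λ|² B y`. -/
def E : ℤ := (C.a ^ 2 - C.b ^ 2) * C.d + 2 * C.a * C.b * C.c - (C.a ^ 2 + C.b ^ 2) * C.B * C.y
/-- The norm of `λ`. -/
def L : ℤ := C.a ^ 2 + C.b ^ 2
/-- The integer `n = 2^e n₀`. -/
def n : ℤ := 2 ^ C.e * C.n0

theorem hpp : C.pi * star C.pi = (C.x : GaussianInt) ^ 2 + C.g * star C.g * (C.y : GaussianInt) ^ 2 := by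
  have h : C.c ^ 2 + C.d ^ 2 = C.x ^ 2 + (1 + C.B ^ 2) * C.y ^ 2 := by rw [← C.hcd, C.hxy]
  rw [← Zsqrtd.norm_eq_mul_conj, ← Zsqrtd.norm_eq_mul_conj, norm_val, norm_val]
  have h' := congrArg (fun t : ℤ => (t : GaussianInt)) h
  simp only [pi, g]
  push_cast at h' ⊢
  linear_combination h'

theorem hp_eq : (C.p : GaussianInt) = C.pi * star C.pi := by
  rw [← Zsqrtd.norm_eq_mul_conj, norm_val]
  have h' := congrArg (fun t : ℤ => (t : GaussianInt)) C.hcd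
  simp only [pi]
  push_cast at h' ⊢
  exact h'

theorem h2n : 2 * (C.n : GaussianInt) = C.l ^ 2 * C.pi + star C.l ^ 2 * star C.pi
    + 2 * (C.l * star C.l) * C.x := by
  rw [n, ← C.hn]
  simp only [l, pi, pow_two]
  ext <;> simp <;> ring

theorem hgs : star C.g = C.g - 2 * gI := by
  simp only [g]; ext <;> simp

theorem hF : 2 * C.F = C.l * C.pi + star C.l * (C.x - gI * C.g * C.y) := by
  have h1 := C.hX
  have h2 := C.hY
  simp only [F, l, pi, g]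
  ext
  · simp
    linear_combination -h1
  · simp
    linear_combination -h2

theorem hFs : 2 * star C.F = star C.l * star C.pi + C.l * (C.x + gI * star C.g * C.y) := by
  have h := congrArg star C.hF
  have e1 : star (2 * C.F) = 2 * star C.F := by rw [star_mul, star_ofNat, mul_comm]
  rw [e1] at h
  rw [h]
  simp only [star_add, star_mul, star_sub, star_star, star_intCast]
  have e2 : star gI = -gI := by ext <;> simp
  rw [e2]; ring

theorem hk : C.k = C.g * C.y + gI * C.x := by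
  simp only [k, g]; ext <;> simp; ring

theorem idA : C.g * C.y ∣ (2 * C.F) ^ 2 - 2 * (C.n : GaussianInt) * C.pi := by
  refine ⟨-2 * gI * (C.l * C.pi + star C.l * C.x) * star C.l
    - star C.l ^ 2 * C.g * C.y - star C.l ^ 2 * star C.g * C.y, ?_⟩
  rw [C.hF]
  have h1 := C.hpp
  have h2 := C.h2n
  have h3 := gI_mul_gI
  linear_combination (-C.pi) * h2 - (star C.l ^ 2) * h1
    + (star C.l ^ 2 * C.g ^ 2 * C.y ^ 2) * h3

theorem idB : C.pi ∣ 2 * C.F + gI * star C.l * C.k := by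
  refine ⟨C.l, ?_⟩
  rw [C.hF, C.hk]
  have h3 := gI_mul_gI
  linear_combination (star C.l * C.x) * h3

theorem idC1 : C.pi * (2 * star C.F) + 2 * star C.l * C.x * C.y
    = (2 * C.F) * (C.x + gI * star C.g * C.y) := by
  rw [C.hF, C.hFs]
  have h1 := C.hpp
  have h3 := gI_mul_gI
  have h4 := C.hgs
  linear_combination (star C.l) * h1 + (star C.l * C.g * star C.g * C.y ^ 2) * h3
    + (-(star C.l) * gI * C.x * C.y) * h4 + (2 * star C.l * C.x * C.y) * h3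

theorem idC2 : gI * C.g * C.y * (2 * star C.F) - C.x * (2 * star C.F - 2 * C.l * C.y)
    = -(star C.pi) * (2 * C.F) := by
  rw [C.hF, C.hFs]
  have h1 := C.hpp
  have h3 := gI_mul_gI
  have h4 := C.hgs
  linear_combination (C.l) * h1 + (C.l * C.g * star C.g * C.y ^ 2) * h3
    + (-(C.l) * gI * C.x * C.y) * h4 + (2 * C.l * C.x * C.y) * h3

theorem idC3 : star C.l * (2 * star C.F) + C.l * (2 * C.F)
    = 2 * (C.n : GaussianInt) + 2 * (C.l * star C.l) * C.y := by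
  rw [C.hF, C.hFs]
  have h2 := C.h2n
  have h3 := gI_mul_gI
  have h4 := C.hgs
  linear_combination (-1 : GaussianInt) * h2 + (C.l * star C.l * gI * C.y) * h4
    - (2 * C.l * star C.l * C.y) * h3

theorem idC : C.F ∣ (4 * C.y : GaussianInt) * (gI * (C.pi * C.g) * (star C.F) ^ 2)
    - -((4 * C.y : GaussianInt) * ((C.n : GaussianInt) * C.x ^ 2)) := by
  refine ⟨2 * ((C.x + gI * star C.g * C.y) *
    (C.x * (2 * star C.F) - 2 * C.l * C.x * C.y - star C.pi * (2 * C.F))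
    + 2 * star C.l * C.x * C.y * star C.pi + 2 * C.x ^ 2 * C.y * C.l), ?_⟩
  have h1 := C.idC1
  have h2 := C.idC2
  have h3 := C.idC3
  linear_combination (gI * C.g * C.y * (2 * star C.F)) * h1
    + ((2 * C.F) * (C.x + gI * star C.g * C.y) - 2 * star C.l * C.x * C.y) * h2
    - (2 * (C.x : GaussianInt) ^ 2 * C.y) * h3

theorem idE_aux (N r L y E B : ℤ)
    (h : (N + L * y) ^ 2 - E ^ 2 - 2 * L * y * E * B = 2 * N * (r + L * y)) :
    (⟨N + L * y, E⟩ : GaussianInt) * ⟨N + L * y, E⟩ - 2 * (L : GaussianInt) * y * E * ⟨B, 1⟩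
      = (N : GaussianInt) * (2 * ⟨r + L * y, E⟩) := by
  ext
  · simp
    linear_combination h
  · simp
    ring

theorem idE1 : C.l * (2 * C.F) = ⟨C.n + C.L * C.y, C.E⟩ := by
  rw [C.hF, n, ← C.hn]
  simp only [l, pi, g, L, E]
  ext
  · simp; ring
  · simp; ring

theorem idE : (C.n : GaussianInt) ∣ (C.l * (2 * C.F)) ^ 2
    - 2 * ((C.L : ℤ) : GaussianInt) * C.y * C.E * C.g := by
  refine ⟨2 * ⟨(C.a ^ 2 - C.b ^ 2) * C.c - 2 * C.a * C.b * C.d + C.L * C.y, C.E⟩, ?_⟩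
  have e1 := C.idE1
  have h : C.c ^ 2 + C.d ^ 2 = C.x ^ 2 + (1 + C.B ^ 2) * C.y ^ 2 := by rw [← C.hcd, C.hxy]
  have hn : C.n = (C.a ^ 2 - C.b ^ 2) * C.c - 2 * C.a * C.b * C.d + C.L * C.x := by
    rw [n, ← C.hn, L]; ring
  rw [e1, pow_two]
  apply idE_aux
  rw [hn, L, E]
  linear_combination (-(C.a ^ 2 + C.b ^ 2) ^ 2) * h

end Cfg

end Pool.Agent.Quartic82
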