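import Mathlib
import Pool.Agent.Lib_helper82.Quartic.Chain

/-!
Coprimality facts and the chain of symbols.
-/

namespace Pool.Agent.Quartic82

open Zsqrtd UniqueFactorizationMonoid

theorem not_dvd_two {ρ : GaussianInt} (hρ : Prime ρ) (ho : Od ρ) : ¬ ρ ∣ 2 := by
  intro h
  obtain ⟨k, hk⟩ := h
  have h1 := congrArg Zsqrtd.norm hk
  rw [Zsqrtd.norm_mul] at h1
  have h2 : (2 : GaussianInt).norm = 4 := by
    have : (2 : GaussianInt) = ((2 : ℤ) : GaussianInt) := by simp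
    rw [this, Zsqrtd.norm_intCast]; norm_num
  rw [h2] at h1
  have h3 : ρ.norm ∣ 4 := ⟨_, h1⟩
  have h4 := Int.le_of_dvd (by norm_num) h3
  have h5 := norm_ge_five hρ ho
  have h6 := norm_nn ρ
  omega

theorem coprime_of_primes {α β : GaussianInt} (h0 : β ≠ 0)
    (h : ∀ ρ, Prime ρ → ρ ∣ α → ρ ∣ β → False) : IsCoprime α β := by
  apply isCoprime_of_prime_dvd
  · rintro ⟨_, h⟩; exact h0 h
  · intro ρ hρ h1 h2
    exact h ρ hρ h1 h2

theorem coprime_contra {α β ρ : GaussianInt} (h : IsCoprime α β) (hρ : Prime ρ) (h1 : ρ ∣ α)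
    (h2 : ρ ∣ β) : False := hρ.not_isUnit (h.isUnit_of_dvd' h1 h2)

namespace Cfg

variable (C : Cfg)

theorem pi_norm : C.pi.norm = C.p := by
  rw [norm_val, C.hcd]; rfl

theorem pi_prime : Prime C.pi := prime_of_norm C.hp C.pi_norm

theorem od_pi : Od C.pi := by
  unfold Od
  rw [norm_val]
  simp only [pi]
  have h1 := C.hc
  have h2 := C.hd
  obtain ⟨k, hk⟩ : ∃ k, C.c = 2 * k + 1 := ⟨C.c / 2, by omega⟩
  obtain ⟨m, hm⟩ : ∃ m, C.d = 2 * m := ⟨C.d / 2, by omega⟩
  rw [hk, hm]; ring_nf; omega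

theorem od_g : Od C.g := by
  unfold Od
  rw [norm_val]
  simp only [g]
  have h1 := C.hB
  obtain ⟨k, hk⟩ : ∃ k, C.B = 2 * k := ⟨C.B / 2, by omega⟩
  rw [hk]; ring_nf; omega

theorem od_g' : Od C.g' := by
  unfold Od
  rw [norm_val]
  simp only [g']
  have h1 := C.hB
  obtain ⟨k, hk⟩ : ∃ k, C.B = 2 * k := ⟨C.B / 2, by omega⟩
  rw [hk]; ring_nf; omega

theorem od_l : Od C.l := by
  unfold Od
  rw [norm_val]
  simp only [l]
  have h1 := C.hL8
  omega

theorem od_F : Od C.F := by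
  unfold Od
  rw [norm_val]
  exact C.hF0

theorem od_n0 : Od (C.n0 : GaussianInt) := od_intCast.2 C.hn0

theorem g'_eq : C.g' = -gI * C.g := by
  simp only [g, g']; ext <;> simp

theorem Q4_g' (α : GaussianInt) : Q4 α C.g' = Q4 α C.g := by
  rw [g'_eq]; exact Q4_unit_mul α isUnit_gI.neg _

theorem Q2_g' (α : GaussianInt) : Q2 α C.g' = Q2 α C.g := by
  unfold Q2; rw [Q4_g']

theorem L_eq : ((C.L : ℤ) : GaussianInt) = C.l * star C.l := by
  rw [← Zsqrtd.norm_eq_mul_conj, norm_val]; rfl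

theorem D_eq : ((1 + C.B ^ 2 : ℤ) : GaussianInt) = C.g * star C.g := by
  rw [← Zsqrtd.norm_eq_mul_conj, norm_val]
  simp only [g]; congr 1; ring

/-- a prime dividing `p` and a rational integer -/
theorem p_dvd {ρ : GaussianInt} (hρ : Prime ρ) (h : ρ ∣ (C.p : GaussianInt)) {m : ℤ}
    (hm : ρ ∣ (m : GaussianInt)) : (C.p : ℤ) ∣ m :=
  (rat_dvd_of_dvd C.hp hρ.not_isUnit h m).1 hm

theorem dvd_p_of_pi {ρ : GaussianInt} (h : ρ ∣ C.pi) : ρ ∣ (C.p : GaussianInt) := by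
  rw [C.hp_eq]; exact h.mul_right _

theorem dvd_p_of_pis {ρ : GaussianInt} (h : ρ ∣ star C.pi) : ρ ∣ (C.p : GaussianInt) := by
  rw [C.hp_eq]; exact h.mul_left _

theorem not_p_l {ρ : GaussianInt} (hρ : Prime ρ) (h : ρ ∣ (C.p : GaussianInt)) (hl : ρ ∣ C.l) :
    False := by
  apply C.hL
  apply C.p_dvd hρ h
  have := C.L_eq
  rw [L] at this
  rw [this]
  exact hl.mul_right _

theorem not_p_ls {ρ : GaussianInt} (hρ : Prime ρ) (h : ρ ∣ (C.p : GaussianInt))
    (hl : ρ ∣ star C.l) : False := by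
  apply C.hL
  apply C.p_dvd hρ h
  have := C.L_eq
  rw [L] at this
  rw [this]
  exact hl.mul_left _

theorem cop_pi_g : IsCoprime C.pi C.g := by
  apply coprime_of_primes C.od_g.ne_zero
  intro ρ hρ h1 h2
  apply C.hD0
  apply C.p_dvd hρ (C.dvd_p_of_pi h1)
  rw [D_eq]; exact h2.mul_right _

theorem cop_l_ls : IsCoprime C.l (star C.l) := by
  apply coprime_of_primes C.od_l.star.ne_zero
  intro ρ hρ h1 h2
  have ho : Od ρ := C.od_l.of_dvd h1
  have h3 : ρ ∣ 2 * (C.a : GaussianInt) := by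
    have e : 2 * (C.a : GaussianInt) = C.l + star C.l := by
      simp only [l]; ext <;> simp; ring
    rw [e]; exact dvd_add h1 h2
  have h4 : ρ ∣ 2 * (C.b : GaussianInt) := by
    have e : 2 * (C.b : GaussianInt) = (C.l - star C.l) * (-gI) := by
      simp only [l]; ext <;> simp; ring
    rw [e]; exact (dvd_sub h1 h2).mul_right _
  have h5 := (hρ.dvd_or_dvd h3).resolve_left (not_dvd_two hρ ho)
  have h6 := (hρ.dvd_or_dvd h4).resolve_left (not_dvd_two hρ ho)
  exact coprime_contra (isCoprime_intCast C.hab) hρ h5 h6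

theorem n_cast : (C.n : GaussianInt) = 2 ^ C.e * (C.n0 : GaussianInt) := by
  rw [n]; push_cast; rfl

theorem n0_dvd_n : (C.n0 : GaussianInt) ∣ (C.n : GaussianInt) := by
  rw [n_cast]; exact dvd_mul_left _ _

theorem dvd_n0_of_dvd_n {ρ : GaussianInt} (hρ : Prime ρ) (ho : Od ρ)
    (h : ρ ∣ (C.n : GaussianInt)) : ρ ∣ (C.n0 : GaussianInt) := by
  rw [n_cast] at h
  rcases hρ.dvd_or_dvd h with h | h
  · exact absurd (hρ.dvd_of_dvd_pow h) (not_dvd_two hρ ho)
  · exact h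

theorem cop_n0_l : IsCoprime (C.n0 : GaussianInt) C.l := by
  apply coprime_of_primes C.od_l.ne_zero
  intro ρ hρ h1 h2
  have h3 := C.h2n
  have h4 : ρ ∣ 2 * (C.n : GaussianInt) := (h1.trans C.n0_dvd_n).mul_left _
  have h5 : ρ ∣ star C.l ^ 2 * star C.pi := by
    have e : star C.l ^ 2 * star C.pi = 2 * (C.n : GaussianInt)
      - C.l * (C.l * C.pi + 2 * (star C.l) * C.x) := by
      linear_combination (-1 : GaussianInt) * h3
    rw [e]
    exact dvd_sub h4 (h2.mul_right _)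
  rcases hρ.dvd_or_dvd h5 with h6 | h6
  · exact coprime_contra C.cop_l_ls hρ h2 (hρ.dvd_of_dvd_pow h6)
  · exact C.not_p_l hρ (C.dvd_p_of_pis h6) h2

theorem cop_n0_ls : IsCoprime (C.n0 : GaussianInt) (star C.l) := by
  have := isCoprime_star C.cop_n0_l
  rwa [star_intCast] at this

theorem cop_F_ls : IsCoprime C.F (star C.l) := by
  apply coprime_of_primes C.od_l.star.ne_zero
  intro ρ hρ h1 h2
  have h3 := C.hF
  have h5 : ρ ∣ C.l * C.pi := by
    have e : C.l * C.pi = 2 * C.F - star C.l * (C.x - gI * C.g * C.y) := by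
      linear_combination (-1 : GaussianInt) * h3
    rw [e]
    exact dvd_sub (h1.mul_left _) (h2.mul_right _)
  rcases hρ.dvd_or_dvd h5 with h6 | h6
  · exact coprime_contra C.cop_l_ls hρ h6 h2
  · exact C.not_p_ls hρ (C.dvd_p_of_pi h6) h2

theorem cop_F_pi : IsCoprime C.F C.pi := by
  apply coprime_of_primes C.od_pi.ne_zero
  intro ρ hρ h1 h2
  have ho : Od ρ := C.od_F.of_dvd h1
  have hp := C.dvd_p_of_pi h2
  have h3 : ρ ∣ gI * star C.l * C.k := by
    have := h2.trans C.idB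
    exact (dvd_add_right (h1.mul_left 2)).1 this
  rcases hρ.dvd_or_dvd h3 with h4 | h4
  · rcases hρ.dvd_or_dvd h4 with h5 | h5
    · exact hρ.not_isUnit (isUnit_of_dvd_unit h5 isUnit_gI)
    · exact C.not_p_ls hρ hp h5
  · have e : C.k ^ 2 + (C.p : GaussianInt) = 2 * C.g * C.y * (C.B * C.y + gI * C.x) := by
      have h' := congrArg (fun t : ℤ => (t : GaussianInt)) C.hxy
      push_cast at h'
      have h8 : C.g = C.B + gI := by simp only [g]; ext <;> simp
      rw [h', C.hk, h8]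
      have h9 := gI_mul_gI
      linear_combination (((C.y : GaussianInt)) ^ 2 + (C.x : GaussianInt) ^ 2) * h9
    have h6 : ρ ∣ 2 * C.g * C.y * (C.B * C.y + gI * C.x) := by
      rw [← e]
      exact dvd_add (dvd_pow h4 two_ne_zero) hp
    rcases hρ.dvd_or_dvd h6 with h7 | h7
    · rcases hρ.dvd_or_dvd h7 with h8 | h8
      · rcases hρ.dvd_or_dvd h8 with h9 | h9
        · exact not_dvd_two hρ ho h9
        · exact coprime_contra C.cop_pi_g hρ h2 h9
      · exact C.hy0 (C.p_dvd hρ hp h8)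
    · have e2 : (C.y : GaussianInt) = (C.k - (C.B * C.y + gI * C.x)) * (-gI) := by
        simp only [k]; ext <;> simp
      have h8 : ρ ∣ (C.y : GaussianInt) := by
        rw [e2]; exact (dvd_sub h4 h7).mul_right _
      exact C.hy0 (C.p_dvd hρ hp h8)

theorem n0_g_contra {ρ : GaussianInt} (hρ : Prime ρ) (h1 : ρ ∣ (C.n0 : GaussianInt))
    (h2 : ρ ∣ C.g) : False := by
  apply coprime_contra (isCoprime_intCast C.hnD) hρ h1
  rw [D_eq]; exact h2.mul_right _

theorem cop_n0_g : IsCoprime (C.n0 : GaussianInt) C.g :=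
  coprime_of_primes C.od_g.ne_zero fun _ hρ h1 h2 => C.n0_g_contra hρ h1 h2

theorem F_aux {ρ : GaussianInt} (hρ : Prime ρ) (h1 : ρ ∣ C.F) (h2 : ρ ∣ C.g * C.y) :
    ρ ∣ (C.n0 : GaussianInt) ∨ ρ ∣ C.pi := by
  have ho : Od ρ := C.od_F.of_dvd h1
  have h3 := h2.trans C.idA
  have h4 : ρ ∣ (2 * C.F) ^ 2 := dvd_pow (h1.mul_left 2) two_ne_zero
  have h5 : ρ ∣ 2 * (C.n : GaussianInt) * C.pi := (dvd_sub_right h4).1 h3
  rcases hρ.dvd_or_dvd h5 with h6 | h6
  · rcases hρ.dvd_or_dvd h6 with h7 | h7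
    · exact absurd h7 (not_dvd_two hρ ho)
    · exact Or.inl (C.dvd_n0_of_dvd_n hρ ho h7)
  · exact Or.inr h6

theorem cop_F_g : IsCoprime C.F C.g := by
  apply coprime_of_primes C.od_g.ne_zero
  intro ρ hρ h1 h2
  rcases C.F_aux hρ h1 (h2.mul_right _) with h3 | h3
  · exact C.n0_g_contra hρ h3 h2
  · exact coprime_contra C.cop_pi_g hρ h3 h2

theorem y_ne : C.y ≠ 0 := by
  intro h
  apply C.hy0
  rw [h]; exact dvd_zero _

theorem x_ne : C.x ≠ 0 := by
  intro h
  apply C.hx0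
  rw [h]; exact dvd_zero _

theorem cop_F_y : IsCoprime C.F (C.y : GaussianInt) := by
  apply coprime_of_primes (by exact_mod_cast C.y_ne)
  intro ρ hρ h1 h2
  rcases C.F_aux hρ h1 (h2.mul_left _) with h3 | h3
  · exact coprime_contra (isCoprime_intCast C.hny) hρ h3 h2
  · exact C.hy0 (C.p_dvd hρ (C.dvd_p_of_pi h3) h2)

theorem cop_F_x : IsCoprime C.F (C.x : GaussianInt) := by
  apply coprime_of_primes (by exact_mod_cast C.x_ne)
  intro ρ hρ h1 h2
  have ho : Od ρ := C.od_F.of_dvd h1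
  have h3 := C.idC1
  have h4 : ρ ∣ C.pi * (2 * star C.F) := by
    have e : C.pi * (2 * star C.F) = (2 * C.F) * (C.x + gI * star C.g * C.y)
      - (C.x : GaussianInt) * (2 * star C.l * C.y) := by
      linear_combination h3
    rw [e]
    exact dvd_sub ((h1.mul_left 2).mul_right _) (h2.mul_right _)
  have h5 : ρ ∣ 2 * star C.F := by
    rcases hρ.dvd_or_dvd h4 with h5 | h5
    · exact absurd (C.p_dvd hρ (C.dvd_p_of_pi h5) h2) C.hx0
    · exact h5
  have h6 := C.idC3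
  have h7 : ρ ∣ 2 * (((C.n + C.L * C.y : ℤ)) : GaussianInt) := by
    have e : 2 * (((C.n + C.L * C.y : ℤ)) : GaussianInt)
      = star C.l * (2 * star C.F) + C.l * (2 * C.F) := by
      rw [h6, ← C.L_eq]; push_cast; ring
    rw [e]
    exact dvd_add (h5.mul_left _) ((h1.mul_left 2).mul_left _)
  have h8 := (hρ.dvd_or_dvd h7).resolve_left (not_dvd_two hρ ho)
  obtain ⟨q, hq, hρq, hcase⟩ := prime_class hρ ho
  have hq2 : q % 2 = 1 := by rcases hcase with ⟨_, h⟩ | ⟨_, h⟩ <;> omega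
  have h9 := (rat_dvd_of_dvd hq hρ.not_isUnit hρq _).1 h8
  have h10 := (rat_dvd_of_dvd hq hρ.not_isUnit hρq _).1 h2
  exact C.hnx q hq hq2 h10 h9

theorem cop_F_Fs : IsCoprime C.F (star C.F) := by
  apply coprime_of_primes C.od_F.star.ne_zero
  intro ρ hρ h1 h2
  have ho : Od ρ := C.od_F.of_dvd h1
  have h3 := C.idC1
  have h4 : ρ ∣ 2 * star C.l * C.x * C.y := by
    have e : 2 * star C.l * C.x * C.y = (2 * C.F) * (C.x + gI * star C.g * C.y)
      - C.pi * (2 * star C.F) := by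
      linear_combination h3
    rw [e]
    exact dvd_sub ((h1.mul_left 2).mul_right _) ((h2.mul_left 2).mul_left _)
  rcases hρ.dvd_or_dvd h4 with h5 | h5
  · rcases hρ.dvd_or_dvd h5 with h6 | h6
    · rcases hρ.dvd_or_dvd h6 with h7 | h7
      · exact not_dvd_two hρ ho h7
      · exact coprime_contra C.cop_F_ls hρ h1 h7
    · exact coprime_contra C.cop_F_x hρ h1 h6
  · exact coprime_contra C.cop_F_y hρ h1 h5

theorem cop_X_Y : IsCoprime C.X C.Y := by
  apply coprime_int_of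
  have e1 : C.F = C.X + gI * C.Y := by simp only [F]; ext <;> simp
  have e2 : star C.F = C.X - gI * C.Y := by simp only [F]; ext <;> simp
  by_cases hY : C.Y = 0
  · have := C.cop_F_Fs
    rw [e2, e1, hY] at this
    simp only [Int.cast_zero, mul_zero, add_zero, sub_zero] at this
    rw [hY, Int.cast_zero, isCoprime_zero_right]
    exact isCoprime_self.1 this
  apply coprime_of_primes (by exact_mod_cast hY)
  intro ρ hρ h1 h2
  apply coprime_contra C.cop_F_Fs hρ
  · rw [e1]; exact dvd_add h1 (h2.mul_left _)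
  · rw [e2]; exact dvd_sub h1 (h2.mul_left _)

theorem cop_n0_y : IsCoprime (C.n0 : GaussianInt) (C.y : GaussianInt) := isCoprime_intCast C.hny

theorem cop_n0_L : IsCoprime (C.n0 : GaussianInt) ((C.L : ℤ) : GaussianInt) := by
  rw [L_eq]; exact C.cop_n0_l.mul_right C.cop_n0_ls

theorem cop_E_n0 : IsCoprime (C.E : GaussianInt) (C.n0 : GaussianInt) := by
  apply coprime_of_primes C.od_n0.ne_zero
  intro ρ hρ h2 h1
  have ho : Od ρ := C.od_n0.of_dvd h1
  have hn := h1.trans C.n0_dvd_n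
  have h3 := hn.trans C.idE
  have h4 : ρ ∣ 2 * ((C.L : ℤ) : GaussianInt) * C.y * C.E * C.g := (h2.mul_left _).mul_right _
  have h5 : ρ ∣ (C.l * (2 * C.F)) ^ 2 := by
    have := dvd_add h3 h4
    simpa using this
  have h6 := hρ.dvd_of_dvd_pow h5
  rw [C.idE1] at h6
  have e : (((C.L * C.y : ℤ)) : GaussianInt) = (⟨C.n + C.L * C.y, C.E⟩ : GaussianInt)
    - (C.n : GaussianInt) - gI * (C.E : GaussianInt) := by ext <;> simp
  have h7 : ρ ∣ (((C.L * C.y : ℤ)) : GaussianInt) := by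
    rw [e]
    exact dvd_sub (dvd_sub h6 hn) (h2.mul_left _)
  rw [Int.cast_mul] at h7
  rcases hρ.dvd_or_dvd h7 with h8 | h8
  · exact coprime_contra C.cop_n0_L hρ h1 h8
  · exact coprime_contra C.cop_n0_y hρ h1 h8

theorem cop_F_n0 : IsCoprime C.F (C.n0 : GaussianInt) := by
  apply coprime_of_primes C.od_n0.ne_zero
  intro ρ hρ h2 h1
  have ho : Od ρ := C.od_n0.of_dvd h1
  have hn := h1.trans C.n0_dvd_n
  have h3 := hn.trans C.idE
  have h4 : ρ ∣ (C.l * (2 * C.F)) ^ 2 := dvd_pow ((h2.mul_left 2).mul_left _) two_ne_zero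
  have h5 := (dvd_sub_right h4).1 h3
  rcases hρ.dvd_or_dvd h5 with h6 | h6
  · rcases hρ.dvd_or_dvd h6 with h7 | h7
    · rcases hρ.dvd_or_dvd h7 with h8 | h8
      · rcases hρ.dvd_or_dvd h8 with h9 | h9
        · exact not_dvd_two hρ ho h9
        · exact coprime_contra C.cop_n0_L hρ h1 h9
      · exact coprime_contra C.cop_n0_y hρ h1 h8
    · exact coprime_contra C.cop_E_n0 hρ h7 h1
  · exact C.n0_g_contra hρ h1 h6

theorem cop_ls_pi : IsCoprime (star C.l) C.pi := by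
  apply coprime_of_primes C.od_pi.ne_zero
  intro ρ hρ h1 h2
  exact C.not_p_ls hρ (C.dvd_p_of_pi h2) h1

theorem cop_c_d : IsCoprime C.c C.d := by
  rw [Int.isCoprime_iff_gcd_eq_one]
  have h1 := Int.gcd_dvd_left (a := C.c) (b := C.d)
  have h2 := Int.gcd_dvd_right (a := C.c) (b := C.d)
  have hcd := C.hcd
  obtain ⟨r, hr⟩ := h1
  obtain ⟨s, hs⟩ := h2
  generalize Int.gcd C.c C.d = k at hr hs ⊢
  have h3 : (k : ℤ) * (k : ℤ) ∣ (C.p : ℤ) := by
    refine ⟨r ^ 2 + s ^ 2, ?_⟩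
    rw [hcd, hr, hs]
    ring
  have h4 : k * k ∣ C.p := by exact_mod_cast h3
  have h6 := (Nat.Prime.prime C.hp).squarefree _ h4
  exact Nat.isUnit_iff.1 h6

end Cfg

end Pool.Agent.Quartic82
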