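import Mathlib
import Pool.Agent.Lib_helper82.Quartic.Chain2

/-!
The chain of symbols.
-/

namespace Pool.Agent.Quartic82

open Zsqrtd UniqueFactorizationMonoid

theorem combine {R : Type} [CommRing R]
    (A i lb t Fp gt G' jm jc H N t' Fg up ug tFe Fn w s Jn Gn ln : R)
    (S1 : t * Fp = i * lb * A) (hi : i * i = 1) (hlb : lb * lb = 1) (hgt : gt * gt = 1)
    (S2 : H = jm * (jc * G')) (S3 : H * N = t' * Fg) (S5 : up * ug * (Fp * Fg) = tFe * Fn)
    (S7 : s * N = w * (Jn * Gn)) (hs : s * s = 1) (S8 : Gn = ln * Fn) (S9 : lb = ln)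
    (ht' : t' * t' = 1) (hFn : Fn * Fn = 1) (hup : up * up = 1) (hug : ug * ug = 1)
    (hFg : Fg * Fg = 1) :
    A = (gt * G') * (i * gt * jm * jc * t * t' * up * ug * tFe * w * s * Jn) := by
  have hln : ln * ln = 1 := by rw [← S9]; exact hlb
  have hGn : Gn * Gn = 1 := by
    rw [S8]
    calc ln * Fn * (ln * Fn) = (ln * ln) * (Fn * Fn) := by ring
      _ = 1 := by rw [hln, hFn, one_mul]
  have h1 : w * s * Jn = N * Gn := by
    calc w * s * Jn = s * (w * (Jn * Gn)) * Gn := by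
          have : s * (w * (Jn * Gn)) * Gn = w * s * Jn * (Gn * Gn) := by ring
          rw [this, hGn, mul_one]
      _ = s * (s * N) * Gn := by rw [S7]
      _ = (s * s) * N * Gn := by ring
      _ = N * Gn := by rw [hs, one_mul]
  have h2 : tFe = up * ug * (Fp * Fg) * Fn := by
    rw [S5, mul_assoc, hFn, mul_one]
  have h3 : A = i * lb * (t * Fp) := by
    rw [S1]
    calc A = (i * i) * (lb * lb) * A := by rw [hi, hlb]; ring
      _ = _ := by ring
  calc A = i * lb * (t * Fp) := h3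
    _ = (gt * gt) * (t' * t') * (up * up) * (ug * ug) * (Fg * Fg) * (Fn * Fn) * (i * ln * (t * Fp)) := by
        rw [hgt, ht', hup, hug, hFg, hFn, S9]; ring
    _ = (gt * gt) * i * t * t' * (t' * Fg) * (ln * Fn) * up * ug * (up * ug * (Fp * Fg) * Fn) := by ring
    _ = (gt * gt) * i * t * t' * (H * N) * Gn * up * ug * tFe := by rw [← S3, ← S8, ← h2]
    _ = (gt * gt) * i * t * t' * H * (N * Gn) * up * ug * tFe := by ring
    _ = (gt * gt) * i * t * t' * (jm * (jc * G')) * (w * s * Jn) * up * ug * tFe := by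
        rw [← h1, ← S2]
    _ = _ := by ring

theorem coprime_of_unit {u β : GaussianInt} (hu : IsUnit u) : IsCoprime u β := by
  have := coprime_unit_left (β := β) hu isCoprime_one_left
  rwa [mul_one] at this

namespace Cfg

variable (C : Cfg)

/-- the integer `m = c - B d` -/
def m : ℤ := 1 * C.c + (-C.B) * C.d

theorem m_mod : C.m % 4 = 1 := by
  unfold m
  have h1 := C.hc
  have h2 := C.hd
  have h3 := C.hB
  obtain ⟨k, hk⟩ : ∃ k, C.d = 2 * k := ⟨C.d / 2, by omega⟩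
  obtain ⟨j, hj⟩ : ∃ j, C.B = 2 * j := ⟨C.B / 2, by omega⟩
  have : 1 * C.c + -C.B * C.d = C.c - 4 * (j * k) := by rw [hk, hj]; ring
  rw [this]; omega

theorem S1 : Q2 2 C.pi * Q2 C.F C.pi = Q2 gI C.pi * Q2 (star C.l) C.pi * Q2 C.k C.pi := by
  have h1 : C.pi ∣ 2 * C.F - -(gI * star C.l * C.k) := by
    rw [sub_neg_eq_add]; exact C.idB
  have h2 := Q2_congr C.od_pi h1
  rw [Q2_mul_left _ _ C.od_pi, Q2_neg_left _ C.od_pi, Q2_mul_left _ _ C.od_pi,
    Q2_mul_left _ _ C.od_pi] at h2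
  exact h2

theorem S2 : Q4 C.pi C.g = Q4 gI (C.m : GaussianInt) * (Q4 gI (C.c : GaussianInt) * Q4 C.g' C.pi) := by
  have hB := C.hB
  have h := Q4_recip (a := 1) (b := -C.B) (c := C.c) (d := C.d) (by norm_num) (by omega) C.hc C.hd
    C.m_mod isCoprime_one_left C.cop_c_d ?_ C.od_g' C.od_pi
  · have e1 : Q4 gI ((1 : ℤ) : GaussianInt) = 1 := by
      rw [Int.cast_one, Q4_unit_right _ isUnit_one]
    rw [e1, one_mul] at h
    have h' : Q4 C.pi C.g' = Q4 gI (C.m : GaussianInt) *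
      (Q4 gI (C.c : GaussianInt) * Q4 C.g' C.pi) := h
    rw [Q4_g'] at h'
    exact h'
  · have h1 : IsCoprime C.g' C.pi := by
      rw [g'_eq]
      exact coprime_unit_left isUnit_gI.neg C.cop_pi_g.symm
    exact h1

theorem S3 : Q4 C.pi C.g * Q4 (2 * (C.n : GaussianInt)) C.g = Q2 2 C.g * Q2 C.F C.g := by
  have h1 : C.g ∣ (2 * C.F) ^ 2 - 2 * (C.n : GaussianInt) * C.pi :=
    (dvd_mul_right _ _).trans C.idA
  have h2 := Q4_congr C.od_g h1
  rw [Q2_eq_Q4_sq _ C.od_g, Q2_mul_left _ _ C.od_g, Q4_mul_left _ _ C.od_g] at h2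
  rw [h2, mul_comm]

theorem S4 : Q2 gI C.F * (Q2 C.pi C.F * Q2 C.g C.F) = Q2 (C.n : GaussianInt) C.F := by
  have h1 := Q2_congr C.od_F C.idC
  rw [Q2_neg_left _ C.od_F, Q2_mul_left _ _ C.od_F, Q2_mul_left (4 * (C.y : GaussianInt)) _ C.od_F] at h1
  have hcop : IsCoprime (4 * (C.y : GaussianInt)) C.F := by
    have h2 : IsCoprime (4 : GaussianInt) C.F := by
      have e : (4 : GaussianInt) = (-1 : GaussianInt) * (gT ^ 4) := by
        have := two_eq
        have h4 : (4 : GaussianInt) = 2 * 2 := by norm_num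
        rw [h4, this]
        linear_combination (gT ^ 4) * gI_mul_gI
      rw [e]
      exact coprime_unit_left isUnit_one.neg ((coprime_gT C.od_F).pow_left)
    exact h2.mul_left C.cop_F_y.symm
  have hu := (Q2_isUnit C.od_F hcop).ne_zero
  have h3 := mul_left_cancel₀ hu h1
  have hx2 : Q2 ((C.x : GaussianInt) ^ 2) C.F = 1 := Q2_sq_left C.od_F C.cop_F_x.symm
  have hF2 : Q2 ((star C.F) ^ 2) C.F = 1 := Q2_sq_left C.od_F C.cop_F_Fs.symm
  rw [Q2_mul_left _ _ C.od_F, Q2_mul_left _ _ C.od_F, Q2_mul_left _ _ C.od_F,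
    Q2_mul_left (C.n : GaussianInt) _ C.od_F, hx2, hF2, mul_one, mul_one] at h3
  exact h3

theorem S5 {u : GaussianInt} (hu : u = 1 ∨ u = gI) (him : (u * C.F).im % 2 = 0) :
    Q2 u C.pi * Q2 u C.g * (Q2 C.F C.pi * Q2 C.F C.g) = Q2 (C.n : GaussianInt) C.F := by
  have huu : IsUnit u := by
    rcases hu with h | h
    · rw [h]; exact isUnit_one
    · rw [h]; exact isUnit_gI
  have ho : Od (u * C.F) := (od_unit huu).mul C.od_F
  have hre : (u * C.F).re % 2 = 1 := od_im_even_re ho him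
  have hcop : IsCoprime (u * C.F).re (u * C.F).im := by
    rcases hu with h | h
    · rw [h, one_mul]; exact C.cop_X_Y
    · rw [h]
      have e1 : (gI * C.F).re = -C.Y := by simp [F]
      have e2 : (gI * C.F).im = C.X := by simp [F]
      rw [e1, e2]
      exact C.cop_X_Y.symm.neg_left
  have heta : u * C.F = ⟨(u * C.F).re, (u * C.F).im⟩ := by ext <;> rfl
  have hB := C.hB
  have hc := C.hc
  -- flip with π
  have f1 : Q2 (u * C.F) C.pi = Q2 C.pi C.F := by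
    have h := Q2_recip (a := (u * C.F).re) (b := (u * C.F).im) (c := C.c) (d := C.d) hre him
      (by omega) C.hd hcop C.cop_c_d ?_ (by rw [← heta]; exact ho) C.od_pi
    · rw [← heta] at h
      have h' : Q2 (u * C.F) C.pi = Q2 C.pi (u * C.F) := h
      rw [h', Q2_unit_mul _ huu]
    · rw [← heta]
      exact coprime_unit_left huu C.cop_F_pi
  have f2 : Q2 (u * C.F) C.g = Q2 gI C.F * Q2 C.g C.F := by
    have h := Q2_recip (a := (u * C.F).re) (b := (u * C.F).im) (c := 1) (d := -C.B) hre him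
      (by norm_num) (by omega) hcop isCoprime_one_left ?_ (by rw [← heta]; exact ho) C.od_g'
    · rw [← heta] at h
      have h' : Q2 (u * C.F) C.g' = Q2 C.g' (u * C.F) := h
      rw [Q2_g', Q2_unit_mul _ huu, g'_eq, Q2_mul_left _ _ C.od_F, Q2_neg_left _ C.od_F] at h'
      exact h'
    · rw [← heta]
      apply coprime_unit_left huu
      have h1 : IsCoprime C.F C.g' := by
        rw [g'_eq]
        exact (coprime_unit_left isUnit_gI.neg C.cop_F_g.symm).symm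
      exact h1
  rw [Q2_mul_left _ _ C.od_pi] at f1
  rw [Q2_mul_left _ _ C.od_g] at f2
  rw [← C.S4]
  calc Q2 u C.pi * Q2 u C.g * (Q2 C.F C.pi * Q2 C.F C.g)
      = (Q2 u C.pi * Q2 C.F C.pi) * (Q2 u C.g * Q2 C.F C.g) := by ring
    _ = Q2 C.pi C.F * (Q2 gI C.F * Q2 C.g C.F) := by rw [f1, f2]
    _ = _ := by ring

theorem Q2_n0_F : Q2 (C.n0 : GaussianInt) C.F = Q2 C.F (C.n0 : GaussianInt) := by
  -- choose a unit
  obtain ⟨u, hu, him⟩ := exists_unit_im_even C.od_F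
  have ho : Od (u * C.F) := (od_unit hu).mul C.od_F
  have h := RG2 ho him C.n0 C.hn0
  rw [Q2_unit_mul _ hu, Q2_mul_left _ _ C.od_n0] at h
  have h1 : Q2 u (C.n0 : GaussianInt) = 1 := by
    rcases unit_cases hu with h | h | h | h <;> rw [h]
    · unfold Q2; rw [Q4_one_left C.od_n0, one_pow]
    · exact Q2_neg_one C.od_n0
    · exact Q2_gI_int C.hn0
    · rw [Q2_neg_left _ C.od_n0]; exact Q2_gI_int C.hn0
  rw [h1, one_mul] at h
  exact h

theorem Q2_pow_left (α : GaussianInt) (k : ℕ) {β : GaussianInt} (hβ : Od β) :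
    Q2 (α ^ k) β = Q2 α β ^ k := by
  unfold Q2; rw [Q4_pow_left _ _ hβ, ← pow_mul, ← pow_mul, mul_comm]

theorem Q2_n (β : GaussianInt) (hβ : Od β) : Q2 (C.n : GaussianInt) β
    = Q2 2 β ^ C.e * Q2 (C.n0 : GaussianInt) β := by
  rw [n_cast, Q2_mul_left _ _ hβ, Q2_pow_left _ _ hβ]

theorem S7 : Q4 ((if C.n0 % 4 = 1 then 1 else -1 : ℤ) : GaussianInt) C.g *
      Q4 (2 * (C.n : GaussianInt)) C.g
    = Q4 (2 ^ (1 + C.e)) C.g * (Q4 gI (C.n0 : GaussianInt) * Q4 C.g (C.n0 : GaussianInt)) := by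
  have hB := C.hB
  have h := RG C.od_g' (by simp only [g']; omega) C.n0 C.hn0
  rw [Q4_g', g'_eq, Q4_mul_left _ _ C.od_n0, Q4_neg_left_int _ C.hn0] at h
  rw [← h]
  have e1 : 2 * (C.n : GaussianInt) = 2 ^ (1 + C.e) * (C.n0 : GaussianInt) := by
    rw [n_cast]; ring
  rw [e1, Q4_mul_left (2 ^ (1 + C.e)) _ C.od_g]
  have e2 : ((nst C.n0 : ℤ) : GaussianInt) = ((if C.n0 % 4 = 1 then 1 else -1 : ℤ) : GaussianInt)
      * (C.n0 : GaussianInt) := by
    unfold nst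
    split_ifs <;> simp
  rw [e2, Q4_mul_left _ _ C.od_g]
  ring

theorem S8 : Q4 C.g (C.n0 : GaussianInt) = Q2 C.l (C.n0 : GaussianInt) * Q2 C.F (C.n0 : GaussianInt) := by
  have h1 := Q4_congr C.od_n0 (C.n0_dvd_n.trans C.idE)
  rw [Q2_eq_Q4_sq _ C.od_n0, Q2_mul_left _ _ C.od_n0, Q2_mul_left _ _ C.od_n0,
    Q4_mul_left _ _ C.od_n0] at h1
  have h2 : Q2 2 (C.n0 : GaussianInt) = 1 := by
    rw [Q2_two C.od_n0, Q2_gI_int C.hn0]
  have h3 : Q4 (2 * ((C.L : ℤ) : GaussianInt) * C.y * C.E) (C.n0 : GaussianInt) = 1 := by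
    have e : 2 * ((C.L : ℤ) : GaussianInt) * C.y * C.E
        = ((2 * C.L * C.y * C.E : ℤ) : GaussianInt) := by push_cast; ring
    rw [e]
    apply Q4_int_int C.hn0
    have c2 : IsCoprime (2 : ℤ) C.n0 := by
      apply coprime_int_of
      have : (((2 : ℤ)) : GaussianInt) = (-gI) * gT ^ 2 := by rw [← two_eq]; simp
      rw [this]
      exact coprime_unit_left isUnit_gI.neg (coprime_gT C.od_n0).pow_left
    have cL := (coprime_int_of C.cop_n0_L).symm
    have cE := coprime_int_of C.cop_E_n0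
    exact ((c2.mul_left cL).mul_left C.hny.symm).mul_left cE
  rw [h2, one_mul, h3, one_mul] at h1
  exact h1.symm

theorem Q2_two_l : Q2 2 (star C.l) = 1 := by
  rw [Q2_two C.od_l.star, Q2_gI C.od_l.star]
  have h := Q4_gI C.od_l.star
  have h1 : Q4 (-1) (star C.l) = Q4 gI (star C.l) ^ 2 := by
    rw [← gI_sq, Q4_pow_left _ _ C.od_l.star]
  rw [h1, h, ← pow_mul, Zsqrtd.norm_conj]
  have h8 := C.hL8
  have hl : C.l.norm = C.a ^ 2 + C.b ^ 2 := by rw [norm_val]; rfl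
  have h9 := norm_nn C.l
  obtain ⟨k, hk⟩ : ∃ k, C.l.norm.natAbs = 8 * k + 1 := ⟨C.l.norm.natAbs / 8, by omega⟩
  rw [hk]
  have : (8 * k + 1 - 1) / 4 * 2 = 4 * k := by omega
  rw [this, pow_mul, unit_pow_four isUnit_gI, one_pow]

theorem S9 : Q2 (star C.l) C.pi = Q2 C.l (C.n0 : GaussianInt) := by
  have hc := C.hc
  have hd := C.hd
  have ha := C.ha
  have hb := C.hb
  have e0 : star C.l = ⟨C.a, -C.b⟩ := by simp only [l]; ext <;> simp
  have h := Q2_recip (a := C.a) (b := -C.b) (c := C.c) (d := C.d) ha (by omega) (by omega) hd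
    C.hab.neg_right C.cop_c_d ?_ (by rw [← e0]; exact C.od_l.star) C.od_pi
  · rw [← e0] at h
    have h' : Q2 (star C.l) C.pi = Q2 C.pi (star C.l) := h
    rw [h']
    have h1 : star C.l ∣ 2 * (C.n : GaussianInt) - C.l ^ 2 * C.pi := by
      have h2 := C.h2n
      refine ⟨star C.l * star C.pi + 2 * C.l * C.x, ?_⟩
      linear_combination h2
    have h3 := Q2_congr C.od_l.star h1
    rw [Q2_mul_left _ _ C.od_l.star, Q2_mul_left _ _ C.od_l.star, Q2_n _ _ C.od_l.star,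
      Q2_two_l, one_pow, one_mul, one_mul, Q2_sq_left C.od_l.star C.cop_l_ls, one_mul] at h3
    rw [← h3, RG2 C.od_l.star (by rw [e0]; simp only; omega) C.n0 C.hn0]
    have := Q2_star C.od_n0 C.cop_n0_l.symm
    rwa [star_intCast] at this
  · rw [← e0]; exact C.cop_ls_pi

/-- The value of the chain. -/
theorem main {u : GaussianInt} (hu : u = 1 ∨ u = gI) (him : (u * C.F).im % 2 = 0) :
    Q2 C.k C.pi = Q4 (2 * C.g) C.pi * (Q2 gI C.pi * Q4 gI ((C.c + C.d : ℤ) : GaussianInt)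
      * Q4 gI (C.m : GaussianInt) * Q4 gI (C.c : GaussianInt) * Q2 2 C.pi * Q2 2 C.g
      * Q2 u C.pi * Q2 u C.g * Q2 2 C.F ^ C.e * Q4 (2 ^ (1 + C.e)) C.g
      * Q4 ((if C.n0 % 4 = 1 then 1 else -1 : ℤ) : GaussianInt) C.g
      * Q4 gI (C.n0 : GaussianInt)) := by
  have hc := C.hc
  have huu : IsUnit u := by
    rcases hu with h | h
    · rw [h]; exact isUnit_one
    · rw [h]; exact isUnit_gI
  have hgT : Q2 gT C.pi = Q4 gI ((C.c + C.d : ℤ) : GaussianInt) :=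
    Q2_gT (by omega) C.hd C.cop_c_d C.od_pi
  have hW : Q4 (2 * C.g) C.pi = Q2 gT C.pi * Q4 C.g' C.pi := by
    have e : 2 * C.g = gT ^ 2 * C.g' := by
      rw [g'_eq, two_eq]; ring
    rw [e, Q4_mul_left _ _ C.od_pi, Q2_eq_Q4_sq _ C.od_pi]
  rw [hW, ← hgT]
  have hcop2 : IsCoprime (2 : GaussianInt) C.g := by
    rw [two_eq]; exact coprime_unit_left isUnit_gI.neg (coprime_gT C.od_g).pow_left
  have hs : Q4 ((if C.n0 % 4 = 1 then 1 else -1 : ℤ) : GaussianInt) C.g *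
      Q4 ((if C.n0 % 4 = 1 then 1 else -1 : ℤ) : GaussianInt) C.g = 1 := by
    split_ifs
    · rw [Int.cast_one, Q4_one_left C.od_g, one_mul]
    · rw [Int.cast_neg, Int.cast_one, Q4_neg_one_sq C.od_g]
  refine combine (Q2 C.k C.pi) (Q2 gI C.pi) (Q2 (star C.l) C.pi) (Q2 2 C.pi) (Q2 C.F C.pi)
    (Q2 gT C.pi) (Q4 C.g' C.pi) (Q4 gI (C.m : GaussianInt)) (Q4 gI (C.c : GaussianInt))
    (Q4 C.pi C.g) (Q4 (2 * (C.n : GaussianInt)) C.g) (Q2 2 C.g) (Q2 C.F C.g) (Q2 u C.pi)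
    (Q2 u C.g) (Q2 2 C.F ^ C.e) (Q2 C.F (C.n0 : GaussianInt)) (Q4 (2 ^ (1 + C.e)) C.g)
    (Q4 ((if C.n0 % 4 = 1 then 1 else -1 : ℤ) : GaussianInt) C.g) (Q4 gI (C.n0 : GaussianInt))
    (Q4 C.g (C.n0 : GaussianInt)) (Q2 C.l (C.n0 : GaussianInt)) C.S1 ?_ ?_ ?_ C.S2 C.S3 ?_ C.S7
    hs C.S8 C.S9 ?_ ?_ ?_ ?_ ?_
  · exact Q2_sq C.od_pi (coprime_of_unit isUnit_gI)
  · exact Q2_sq C.od_pi C.cop_ls_pi
  · exact Q2_sq C.od_pi (coprime_gT C.od_pi)
  · rw [C.S5 hu him, Q2_n _ _ C.od_F, Q2_n0_F]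
  · exact Q2_sq C.od_g hcop2
  · exact Q2_sq C.od_n0 C.cop_F_n0
  · exact Q2_sq C.od_pi (coprime_of_unit huu)
  · exact Q2_sq C.od_g (coprime_of_unit huu)
  · exact Q2_sq C.od_g C.cop_F_g

end Cfg

end Pool.Agent.Quartic82
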