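import Mathlib
import Pool.Agent.Lib_helper82.Quartic.Chain3

/-!
The 2-adic evaluation of the chain.
-/

namespace Pool.Agent.Quartic82

open Zsqrtd UniqueFactorizationMonoid

/-- `(2/|n|)` for odd `n` -/
def jj (n : ℤ) : ℤ := if n % 8 = 1 ∨ n % 8 = 7 then 1 else -1

/-- `(-1)^k` -/
def sg (k : ℤ) : ℤ := if k % 2 = 0 then 1 else -1

theorem zmod2_sq (z : ZMod 2) : z ^ 2 = z := by revert z; decide

theorem Q4_gI_int {n : ℤ} (hn : n % 2 = 1) : Q4 gI (n : GaussianInt) = ((jj n : ℤ) : GaussianInt) := by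
  rw [Q4_gI (od_intCast.2 hn), Zsqrtd.norm_intCast]
  unfold jj
  have key : ∀ m : ℕ, m % 2 = 1 → gI ^ ((m * m - 1) / 4)
      = if m % 8 = 1 ∨ m % 8 = 7 then (1 : GaussianInt) else -1 := by
    intro m hm
    have h8 : m % 8 = 1 ∨ m % 8 = 3 ∨ m % 8 = 5 ∨ m % 8 = 7 := by omega
    obtain ⟨k, hk⟩ : ∃ k, m = 8 * k + m % 8 := ⟨m / 8, by omega⟩
    have hI2 : gI ^ 2 = -1 := gI_sq
    rcases h8 with h | h | h | h
    · have e : (m * m - 1) / 4 = 4 * (4 * k ^ 2 + k) := by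
        rw [hk, h]
        have : (8 * k + 1) * (8 * k + 1) - 1 = 4 * (4 * (4 * k ^ 2 + k)) := by
          zify
          rw [Nat.cast_sub (by nlinarith)]
          push_cast; ring
        rw [this, Nat.mul_div_cancel_left _ (by norm_num)]
      rw [e, pow_mul, unit_pow_four isUnit_gI, one_pow, if_pos (Or.inl h)]
    · have e : (m * m - 1) / 4 = 4 * (4 * k ^ 2 + 3 * k) + 2 := by
        rw [hk, h]
        have : (8 * k + 3) * (8 * k + 3) - 1 = 4 * (4 * (4 * k ^ 2 + 3 * k) + 2) := by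
          zify
          rw [Nat.cast_sub (by nlinarith)]
          push_cast; ring
        rw [this, Nat.mul_div_cancel_left _ (by norm_num)]
      rw [e, pow_add, pow_mul, unit_pow_four isUnit_gI, one_pow, one_mul, hI2, if_neg (by omega)]
    · have e : (m * m - 1) / 4 = 4 * (4 * k ^ 2 + 5 * k + 1) + 2 := by
        rw [hk, h]
        have : (8 * k + 5) * (8 * k + 5) - 1 = 4 * (4 * (4 * k ^ 2 + 5 * k + 1) + 2) := by
          zify
          rw [Nat.cast_sub (by nlinarith)]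
          push_cast; ring
        rw [this, Nat.mul_div_cancel_left _ (by norm_num)]
      rw [e, pow_add, pow_mul, unit_pow_four isUnit_gI, one_pow, one_mul, hI2, if_neg (by omega)]
    · have e : (m * m - 1) / 4 = 4 * (4 * k ^ 2 + 7 * k + 3) := by
        rw [hk, h]
        have : (8 * k + 7) * (8 * k + 7) - 1 = 4 * (4 * (4 * k ^ 2 + 7 * k + 3)) := by
          zify
          rw [Nat.cast_sub (by nlinarith)]
          push_cast; ring
        rw [this, Nat.mul_div_cancel_left _ (by norm_num)]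
      rw [e, pow_mul, unit_pow_four isUnit_gI, one_pow, if_pos (Or.inr h)]
  rw [Int.natAbs_mul, key n.natAbs (by omega)]
  by_cases h : n % 8 = 1 ∨ n % 8 = 7
  · rw [if_pos (by omega), if_pos h, Int.cast_one]
  · rw [if_neg (by omega), if_neg h, Int.cast_neg, Int.cast_one]

theorem Q2_gI_val {z : GaussianInt} (hz : Od z) :
    Q2 gI z = (((if z.re % 4 = 0 ∨ z.im % 4 = 0 then 1 else -1 : ℤ)) : GaussianInt) := by
  have h1 : Q2 gI z = gI ^ (2 * ((z.norm.natAbs - 1) / 4)) := by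
    unfold Q2
    rw [Q4_gI hz, ← pow_mul, mul_comm]
  rw [h1]
  have h0 := norm_nn z
  have hv := norm_val z
  have ho : z.norm % 2 = 1 := hz
  have hsq : ∀ t : ℤ, t % 2 = 1 → t ^ 2 % 8 = 1 := by
    intro t ht
    obtain ⟨k, hk⟩ : ∃ k, t = 2 * k + 1 := ⟨t / 2, by omega⟩
    have : t ^ 2 = 4 * (k * (k + 1)) + 1 := by rw [hk]; ring
    obtain ⟨r, hr⟩ := Int.even_mul_succ_self k
    rw [this, hr]; omega
  have hsq0 : ∀ t : ℤ, t % 4 = 0 → t ^ 2 % 8 = 0 := by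
    intro t ht
    obtain ⟨k, hk⟩ : ∃ k, t = 4 * k := ⟨t / 4, by omega⟩
    rw [hk]; ring_nf; omega
  have hsq2 : ∀ t : ℤ, t % 4 = 2 → t ^ 2 % 8 = 4 := by
    intro t ht
    obtain ⟨k, hk⟩ : ∃ k, t = 4 * k + 2 := ⟨t / 4, by omega⟩
    rw [hk]; ring_nf; omega
  have hcase : z.norm % 8 = if z.re % 4 = 0 ∨ z.im % 4 = 0 then 1 else 5 := by
    have hpar : (z.re % 2 = 1 ∧ z.im % 2 = 0) ∨ (z.re % 2 = 0 ∧ z.im % 2 = 1) := by
      rcases Int.emod_two_eq_zero_or_one z.re with h | h <;>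
      rcases Int.emod_two_eq_zero_or_one z.im with h' | h'
      · exfalso
        obtain ⟨k, hk⟩ : ∃ k, z.re = 2 * k := ⟨z.re / 2, by omega⟩
        obtain ⟨l, hl⟩ : ∃ l, z.im = 2 * l := ⟨z.im / 2, by omega⟩
        rw [hv, hk, hl] at ho; ring_nf at ho; omega
      · exact Or.inr ⟨h, h'⟩
      · exact Or.inl ⟨h, h'⟩
      · exfalso
        have h3 := hsq _ h
        have h4 := hsq _ h'
        omega
    rcases hpar with ⟨h, h'⟩ | ⟨h, h'⟩
    · have h3 := hsq _ h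
      have h5 : z.im % 4 = 0 ∨ z.im % 4 = 2 := by omega
      rcases h5 with h5 | h5
      · have h6 := hsq0 _ h5
        rw [if_pos (Or.inr h5)]; omega
      · have h6 := hsq2 _ h5
        rw [if_neg (by omega)]; omega
    · have h3 := hsq _ h'
      have h5 : z.re % 4 = 0 ∨ z.re % 4 = 2 := by omega
      rcases h5 with h5 | h5
      · have h6 := hsq0 _ h5
        rw [if_pos (Or.inl h5)]; omega
      · have h6 := hsq2 _ h5
        rw [if_neg (by omega)]; omega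
  by_cases hc : z.re % 4 = 0 ∨ z.im % 4 = 0
  · rw [if_pos hc] at hcase ⊢
    have : 2 * ((z.norm.natAbs - 1) / 4) = 4 * ((z.norm.natAbs - 1) / 8) := by omega
    rw [this, pow_mul, unit_pow_four isUnit_gI, one_pow, Int.cast_one]
  · rw [if_neg hc] at hcase ⊢
    have : 2 * ((z.norm.natAbs - 1) / 4) = 4 * ((z.norm.natAbs - 1) / 8) + 2 := by omega
    rw [this, pow_add, pow_mul, unit_pow_four isUnit_gI, one_pow, one_mul, gI_sq, Int.cast_neg,
      Int.cast_one]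

namespace Cfg

variable (C : Cfg)

theorem Q2_gI_g : Q2 gI C.g = -1 := by
  have hB := C.hB
  rw [Q2_gI_val C.od_g, if_neg]
  · simp
  · simp only [g]; omega

theorem Q4_neg_one_g : Q4 (-1) C.g = -1 := by
  rw [← Q2_gI C.od_g, Q2_gI_g]

theorem Q2_two_g : Q2 2 C.g = -1 := by
  rw [Q2_two C.od_g, Q2_gI_g]

theorem Q4_gI_g : Q4 gI C.g = gI := by
  rw [Q4_gI C.od_g]
  have hB := C.hB
  obtain ⟨k, hk⟩ : ∃ k, C.B = 4 * k + 2 := ⟨C.B / 4, by omega⟩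
  have hn : C.g.norm = 4 * (4 * (k ^ 2 + k) + 1) + 1 := by
    rw [norm_val]; simp only [g]; rw [hk]; ring
  have h0 : 0 ≤ k ^ 2 + k := by nlinarith [sq_nonneg (2 * k + 1)]
  obtain ⟨r, hr⟩ := Int.eq_ofNat_of_zero_le h0
  have h2 : C.g.norm.natAbs = 4 * (4 * r + 1) + 1 := by
    rw [hn, hr]; omega
  rw [h2]
  have : (4 * (4 * r + 1) + 1 - 1) / 4 = 4 * r + 1 := by omega
  rw [this, pow_succ, pow_mul, unit_pow_four isUnit_gI, one_pow, one_mul]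

theorem Q4_two_g : Q4 2 C.g = -(gI * ((jj (1 - C.B) : ℤ) : GaussianInt)) := by
  have hB := C.hB
  have h1 : Q2 gT C.g = ((jj (1 - C.B) : ℤ) : GaussianInt) := by
    rw [← Q2_g']
    have h := Q2_gT (c := 1) (d := -C.B) (by norm_num) (by omega) isCoprime_one_left C.od_g'
    have h' : Q2 gT C.g' = Q4 gI ((1 + -C.B : ℤ) : GaussianInt) := h
    rw [h', Q4_gI_int (by omega)]
    rfl
  have e : (2 : GaussianInt) = (-1) * (gI * gT ^ 2) := by rw [two_eq]; ring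
  rw [e, Q4_mul_left _ _ C.od_g, Q4_mul_left _ _ C.od_g,
    Q4_neg_one_g, Q4_gI_g, Q2_eq_Q4_sq _ C.od_g, h1]
  ring

theorem Q4_four_g : Q4 (2 ^ (1 + 1)) C.g = -1 := by
  have : (2 : GaussianInt) ^ (1 + 1) = 2 ^ 2 := by norm_num
  rw [this, Q2_eq_Q4_sq _ C.od_g, Q2_two_g]

theorem sn_val : Q4 ((if C.n0 % 4 = 1 then 1 else -1 : ℤ) : GaussianInt) C.g
    = ((if C.n0 % 4 = 1 then 1 else -1 : ℤ) : GaussianInt) := by
  split_ifs
  · rw [Int.cast_one, Q4_one_left C.od_g]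
  · rw [Int.cast_neg, Int.cast_one, Q4_neg_one_g]

theorem pi_cancel : Q2 gI C.pi * Q2 2 C.pi = 1 := by
  rw [Q2_two C.od_pi]
  exact Q2_sq C.od_pi (coprime_of_unit isUnit_gI)

/-- the value of the chain with the symbols evaluated -/
theorem main2 {u : GaussianInt} (hu : u = 1 ∨ u = gI) (him : (u * C.F).im % 2 = 0) :
    Q2 C.k C.pi = Q4 (2 * C.g) C.pi * (-(((jj (C.c + C.d) * jj C.m * jj C.c *
      (if C.n0 % 4 = 1 then 1 else -1) * jj C.n0 : ℤ) : GaussianInt)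
      * (Q2 u C.pi * Q2 u C.g) * Q2 gI C.F ^ C.e * Q4 (2 ^ (1 + C.e)) C.g)) := by
  have hc := C.hc
  have hd := C.hd
  have hm := C.m_mod
  rw [C.main hu him, Q4_gI_int (n := C.c + C.d) (by omega), Q4_gI_int (n := C.m) (by omega),
    Q4_gI_int (n := C.c) (by omega), Q4_gI_int C.hn0, sn_val, Q2_two_g, Q2_two C.od_F]
  have h1 := C.pi_cancel
  congr 1
  rw [Int.cast_mul, Int.cast_mul, Int.cast_mul, Int.cast_mul]
  generalize ((if C.n0 % 4 = 1 then 1 else -1 : ℤ) : GaussianInt) = s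
  linear_combination (-((jj (C.c + C.d) : ℤ) : GaussianInt) * ((jj C.m : ℤ) : GaussianInt)
    * ((jj C.c : ℤ) : GaussianInt) * Q2 u C.pi * Q2 u C.g * Q2 gI C.F ^ C.e
    * Q4 (2 ^ (1 + C.e)) C.g * s * ((jj C.n0 : ℤ) : GaussianInt)) * h1

theorem Bd_mod : ∃ k, C.B * C.d = 4 * k ∧ (C.d % 4 = 0 → k % 2 = 0) ∧ (C.d % 4 = 2 → k % 2 = 1) := by
  have hB := C.hB
  have hd := C.hd
  obtain ⟨j, hj⟩ : ∃ j, C.B = 2 * (2 * j + 1) := ⟨C.B / 4, by omega⟩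
  obtain ⟨k, hk⟩ : ∃ k, C.d = 2 * k := ⟨C.d / 2, by omega⟩
  refine ⟨(2 * j + 1) * k, by rw [hj, hk]; ring, ?_, ?_⟩
  · intro h
    obtain ⟨r, hr⟩ : ∃ r, k = 2 * r := ⟨k / 2, by omega⟩
    rw [hr]; ring_nf; omega
  · intro h
    obtain ⟨r, hr⟩ : ∃ r, k = 2 * r + 1 := ⟨k / 2, by omega⟩
    rw [hr]; ring_nf; omega

theorem m_eq : C.m = C.c - C.B * C.d := by unfold m; ring

theorem Q2_gI_pi_pos (hd : C.d % 4 = 0) : Q2 gI C.pi = 1 := by
  rw [Q2_gI_val C.od_pi, if_pos]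
  · simp
  · right; exact hd

theorem Q2_gI_pi_neg (hd : C.d % 4 = 2) : Q2 gI C.pi = -1 := by
  have hc := C.hc
  rw [Q2_gI_val C.od_pi, if_neg]
  · simp
  · simp only [pi]; omega

variable (ha1 : C.a = 1) (hb16 : C.b % 16 = 0)

include ha1 hb16

theorem n_mod : ∃ k, 2 ^ C.e * C.n0 = C.c + C.x + 16 * k := by
  obtain ⟨b', hb'⟩ : ∃ b', C.b = 16 * b' := ⟨C.b / 16, by omega⟩
  refine ⟨-2 * b' * C.d + 16 * b' ^ 2 * (C.x - C.c), ?_⟩
  rw [← C.hn, ha1, hb']; ring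

theorem X_mod : ∃ k, 2 * C.X = C.c + C.x + C.y + 16 * k := by
  obtain ⟨b', hb'⟩ : ∃ b', C.b = 16 * b' := ⟨C.b / 16, by omega⟩
  refine ⟨-b' * (C.d + C.B * C.y), ?_⟩
  rw [← C.hX, ha1, hb']; ring

theorem Y_mod : ∃ k, 2 * C.Y = C.d - C.B * C.y + 16 * k := by
  obtain ⟨b', hb'⟩ : ∃ b', C.b = 16 * b' := ⟨C.b / 16, by omega⟩
  refine ⟨b' * (C.c - C.x - C.y), ?_⟩
  rw [← C.hY, ha1, hb']; ring

/-- case `2 ∥ x` -/
theorem case1 (hx : C.x % 8 = 2) (hy : C.y % 4 = 1) (hd : C.d % 4 = 0) (he : C.e = 0) :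
    Q2 C.k C.pi = Q4 (2 * C.g) C.pi * (gI * ((sg ((C.B + 2) / 4 + C.d / 4) : ℤ) : GaussianInt)) := by
  have hc := C.hc
  have hB := C.hB
  obtain ⟨k1, hk1⟩ := C.n_mod ha1 hb16
  obtain ⟨k2, hk2⟩ := C.X_mod ha1 hb16
  obtain ⟨k4, hk4, hk4', _⟩ := C.Bd_mod
  have hk4'' := hk4' hd
  rw [he, pow_zero, one_mul] at hk1
  have him : (gI * C.F).im % 2 = 0 := by
    have e2 : (gI * C.F).im = C.X := by simp [F]
    rw [e2]; omega
  rw [C.main2 (Or.inr rfl) him, he, pow_zero, mul_one, Q2_gI_g, C.Q2_gI_pi_pos hd]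
  have e3 : (2 : GaussianInt) ^ (1 + 0) = 2 := by norm_num
  rw [e3, Q4_two_g]
  congr 1
  have hm : C.m % 8 = C.c % 8 := by rw [m_eq, hk4]; omega
  have key : jj (C.c + C.d) * jj C.m * jj C.c * (if C.n0 % 4 = 1 then 1 else -1) * jj C.n0
      * jj (1 - C.B) = - sg ((C.B + 2) / 4 + C.d / 4) := by
    have hc8 : C.c % 8 = 1 ∨ C.c % 8 = 5 := by omega
    have hB8 : C.B % 8 = 2 ∨ C.B % 8 = 6 := by omega
    have hd8 : C.d % 8 = 0 ∨ C.d % 8 = 4 := by omega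
    have e1 : (C.c + C.d) % 8 = (C.c % 8 + C.d % 8) % 8 := by omega
    have e4 : C.n0 % 8 = (C.c % 8 + 2) % 8 := by omega
    have e5 : C.n0 % 4 = (C.c % 8 + 2) % 4 := by omega
    have e6 : (1 - C.B) % 8 = (1 - C.B % 8) % 8 := by omega
    have e7 : ((C.B + 2) / 4 + C.d / 4) % 2 = ((C.B % 8 + 2) / 4 + (C.d % 8) / 4) % 2 := by omega
    rcases hc8 with h | h <;> rcases hB8 with h' | h' <;> rcases hd8 with h'' | h'' <;>
      simp only [jj, sg, e1, hm, e4, e5, e6, e7, h, h', h''] <;> rfl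
  have key' := congrArg (fun t : ℤ => (t : GaussianInt)) key
  simp only [Int.cast_mul, Int.cast_neg] at key' ⊢
  linear_combination (-gI) * key'

/-- case `4 ∣ x` -/
theorem case3 (hx : C.x % 4 = 0) (hy : C.y % 4 = 1) (hd : C.d % 8 = 2) (he : C.e = 0) :
    Q2 C.k C.pi = Q4 (2 * C.g) C.pi * (gI * ((sg ((C.B - 2) / 4 + C.x / 4) : ℤ) : GaussianInt)) := by
  have hc := C.hc
  have hB := C.hB
  obtain ⟨k1, hk1⟩ := C.n_mod ha1 hb16
  obtain ⟨k3, hk3⟩ := C.Y_mod ha1 hb16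
  obtain ⟨k4, hk4, _, hk4'⟩ := C.Bd_mod
  have hk4'' := hk4' (by omega)
  rw [he, pow_zero, one_mul] at hk1
  have hBy : (C.B * C.y) % 4 = 2 := by
    rw [Int.mul_emod, hB, hy]; rfl
  have him : (1 * C.F).im % 2 = 0 := by
    have e2 : (1 * C.F).im = C.Y := by simp [F]
    rw [e2]; omega
  rw [C.main2 (Or.inl rfl) him, he, pow_zero, mul_one]
  have e3 : (2 : GaussianInt) ^ (1 + 0) = 2 := by norm_num
  have e4 : Q2 1 C.pi = 1 := by unfold Q2; rw [Q4_one_left C.od_pi, one_pow]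
  have e5 : Q2 1 C.g = 1 := by unfold Q2; rw [Q4_one_left C.od_g, one_pow]
  rw [e3, Q4_two_g, e4, e5]
  congr 1
  have hm : C.m % 8 = (C.c + 4) % 8 := by rw [m_eq, hk4]; omega
  have key : jj (C.c + C.d) * jj C.m * jj C.c * (if C.n0 % 4 = 1 then 1 else -1) * jj C.n0
      * jj (1 - C.B) = sg ((C.B - 2) / 4 + C.x / 4) := by
    have hc8 : C.c % 8 = 1 ∨ C.c % 8 = 5 := by omega
    have hB8 : C.B % 8 = 2 ∨ C.B % 8 = 6 := by omega
    have hx8 : C.x % 8 = 0 ∨ C.x % 8 = 4 := by omega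
    have e1 : (C.c + C.d) % 8 = (C.c % 8 + 2) % 8 := by omega
    have e2 : C.m % 8 = (C.c % 8 + 4) % 8 := by omega
    have e4 : C.n0 % 8 = (C.c % 8 + C.x % 8) % 8 := by omega
    have e5 : C.n0 % 4 = (C.c % 8 + C.x % 8) % 4 := by omega
    have e6 : (1 - C.B) % 8 = (1 - C.B % 8) % 8 := by omega
    have e7 : ((C.B - 2) / 4 + C.x / 4) % 2 = ((C.B % 8 - 2) / 4 + (C.x % 8) / 4) % 2 := by omega
    rcases hc8 with h | h <;> rcases hB8 with h' | h' <;> rcases hx8 with h'' | h'' <;>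
      simp only [jj, sg, e1, e2, e4, e5, e6, e7, h, h', h''] <;> rfl
  have key' := congrArg (fun t : ℤ => (t : GaussianInt)) key
  simp only [Int.cast_mul] at key' ⊢
  linear_combination (gI) * key'

/-- case `4 ∣ y` -/
theorem case4 (hx : C.x % 4 = 1) (hy : C.y % 4 = 0) (hd : C.d % 4 = 0) (he : C.e = 1) :
    Q2 C.k C.pi = Q4 (2 * C.g) C.pi * (((sg (C.d / 4 + C.y / 4) : ℤ) : GaussianInt)) := by
  have hc := C.hc
  have hB := C.hB
  obtain ⟨k1, hk1⟩ := C.n_mod ha1 hb16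
  obtain ⟨k3, hk3⟩ := C.Y_mod ha1 hb16
  obtain ⟨k2, hk2⟩ := C.X_mod ha1 hb16
  obtain ⟨k4, hk4, hk4', _⟩ := C.Bd_mod
  have hk4'' := hk4' (by omega)
  rw [he, pow_one] at hk1
  obtain ⟨y1, hy1⟩ : ∃ y1, C.y = 4 * y1 := ⟨C.y / 4, by omega⟩
  obtain ⟨d1, hd1⟩ : ∃ d1, C.d = 4 * d1 := ⟨C.d / 4, by omega⟩
  obtain ⟨B1, hB1⟩ : ∃ B1, C.B = 2 * B1 := ⟨C.B / 2, by omega⟩
  obtain ⟨r, hr⟩ : ∃ r, C.c - C.x = 2 * r := ⟨(C.c - C.x) / 2, by omega⟩
  obtain ⟨t, ht⟩ : ∃ t, C.c + C.x = 2 * t := ⟨(C.c + C.x) / 2, by omega⟩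
  have htodd : t % 2 = 1 := by omega
  -- r t = 4 (D y1^2 - d1^2)
  have hrt : r * t = 4 * ((1 + C.B ^ 2) * y1 ^ 2 - d1 ^ 2) := by
    have h : C.c ^ 2 + C.d ^ 2 = C.x ^ 2 + (1 + C.B ^ 2) * C.y ^ 2 := by rw [← C.hcd, C.hxy]
    have h2 : (C.c - C.x) * (C.c + C.x) = (1 + C.B ^ 2) * C.y ^ 2 - C.d ^ 2 := by
      linear_combination h
    rw [hr, ht, hy1, hd1] at h2
    have h3 : 4 * (r * t) = 4 * (4 * ((1 + C.B ^ 2) * y1 ^ 2 - d1 ^ 2)) := by
      linear_combination h2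
    exact mul_left_cancel₀ (by norm_num) h3
  have hr4 : (4 : ℤ) ∣ r := by
    have h5 : (4 : ℤ) ∣ r * t := ⟨_, hrt⟩
    have h6 : IsCoprime (4 : ℤ) t := by
      rw [Int.isCoprime_iff_gcd_eq_one]
      have h7 : t % 4 = 1 ∨ t % 4 = 3 := by omega
      rw [Int.gcd_comm, ← Int.gcd_emod, Int.gcd_comm]
      rcases h7 with h7 | h7 <;> rw [h7] <;> rfl
    exact h6.dvd_of_dvd_mul_right h5
  obtain ⟨r1, hr1⟩ := hr4
  have hr1t : r1 * t = (1 + C.B ^ 2) * y1 ^ 2 - d1 ^ 2 := by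
    rw [hr1] at hrt
    have h3 : 4 * (r1 * t) = 4 * ((1 + C.B ^ 2) * y1 ^ 2 - d1 ^ 2) := by linear_combination hrt
    exact mul_left_cancel₀ (by norm_num) h3
  have hpar : (r1 - (y1 + d1)) % 2 = 0 := by
    have h := congrArg (fun t : ℤ => (t : ZMod 2)) hr1t
    have ht2 : ((t : ℤ) : ZMod 2) = 1 := by
      have : t = 2 * (t / 2) + 1 := by omega
      rw [this]; push_cast
      have h2 : (2 : ZMod 2) = 0 := by decide
      rw [h2]; ring
    have hB2 : ((C.B : ℤ) : ZMod 2) = 0 := by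
      rw [hB1]; push_cast
      have h2 : (2 : ZMod 2) = 0 := by decide
      rw [h2]; ring
    push_cast at h
    rw [ht2, hB2, zmod2_sq (y1 : ZMod 2), zmod2_sq (d1 : ZMod 2)] at h
    have h3 : (((r1 - (y1 + d1)) : ℤ) : ZMod 2) = 0 := by
      push_cast
      have h4 : ∀ z : ZMod 2, -z = z := by decide
      have h5 := h4 (d1 : ZMod 2)
      linear_combination h + h5
    rw [ZMod.intCast_zmod_eq_zero_iff_dvd] at h3
    exact Int.emod_eq_zero_of_dvd h3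
  have hBy : C.B * C.y = 8 * (B1 * y1) := by rw [hB1, hy1]; ring
  have him : (1 * C.F).im % 2 = 0 := by
    have e2 : (1 * C.F).im = C.Y := by simp [F]
    rw [e2]; omega
  rw [C.main2 (Or.inl rfl) him, he, pow_one, Q4_four_g, Q2_gI_val C.od_F]
  have e4 : Q2 1 C.pi = 1 := by unfold Q2; rw [Q4_one_left C.od_pi, one_pow]
  have e5 : Q2 1 C.g = 1 := by unfold Q2; rw [Q4_one_left C.od_g, one_pow]
  rw [e4, e5]
  congr 1
  have hm : C.m % 8 = C.c % 8 := by rw [m_eq, hk4]; omega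
  have key : jj (C.c + C.d) * jj C.m * jj C.c * (if C.n0 % 4 = 1 then 1 else -1) * jj C.n0
      * (if C.F.re % 4 = 0 ∨ C.F.im % 4 = 0 then 1 else -1) = sg (C.d / 4 + C.y / 4) := by
    have e6 : C.F.re = C.X := rfl
    have e7 : C.F.im = C.Y := rfl
    rw [e6, e7]
    have hXodd : C.X % 2 = 1 := by omega
    have hY4 : C.Y % 4 = 0 ↔ d1 % 2 = 0 := by omega
    have hc8 : C.c % 8 = (C.n0 + 4 * (y1 + d1)) % 8 := by omega
    have hd4 : C.d / 4 = d1 := by omega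
    have hy4 : C.y / 4 = y1 := by omega
    rw [hd4, hy4]
    have hXY : (C.X % 4 = 0 ∨ C.Y % 4 = 0) ↔ d1 % 2 = 0 := by
      rw [← hY4]
      constructor
      · rintro (h | h)
        · omega
        · exact h
      · exact Or.inr
    have hn8 : C.n0 % 8 = 1 ∨ C.n0 % 8 = 5 := by omega
    have hd2 : d1 % 2 = 0 ∨ d1 % 2 = 1 := by omega
    have hy2 : y1 % 2 = 0 ∨ y1 % 2 = 1 := by omega
    have e1 : (C.c + C.d) % 8 = (C.n0 % 8 + 4 * (y1 % 2 + d1 % 2) + 4 * (d1 % 2)) % 8 := by omega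
    have e2 : C.c % 8 = (C.n0 % 8 + 4 * (y1 % 2 + d1 % 2)) % 8 := by omega
    have e3 : C.n0 % 4 = (C.n0 % 8) % 4 := by omega
    have e7 : (d1 + y1) % 2 = (d1 % 2 + y1 % 2) % 2 := by omega
    rcases hn8 with h | h <;> rcases hd2 with h' | h' <;> rcases hy2 with h'' | h'' <;>
      simp only [jj, sg, e1, hm, e2, e3, hXY, e7, h, h', h''] <;> rfl
  have key' := congrArg (fun t : ℤ => (t : GaussianInt)) key
  simp only [Int.cast_mul] at key' ⊢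
  linear_combination key'

/-- case `2 ∥ y` -/
theorem case2 (hx : C.x % 4 = 1) (hy : C.y % 8 = 2) (hd : C.d % 8 = 2) (he : C.e = 1) :
    Q2 C.k C.pi = Q4 (2 * C.g) C.pi := by
  have hc := C.hc
  have hB := C.hB
  obtain ⟨k1, hk1⟩ := C.n_mod ha1 hb16
  obtain ⟨k3, hk3⟩ := C.Y_mod ha1 hb16
  obtain ⟨k2, hk2⟩ := C.X_mod ha1 hb16
  obtain ⟨k4, hk4, _, hk4'⟩ := C.Bd_mod
  have hk4'' := hk4' (by omega)
  rw [he, pow_one] at hk1
  obtain ⟨y1, hy1⟩ : ∃ y1, C.y = 2 * (4 * y1 + 1) := ⟨C.y / 8, by omega⟩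
  obtain ⟨d1, hd1⟩ : ∃ d1, C.d = 2 * (4 * d1 + 1) := ⟨C.d / 8, by omega⟩
  obtain ⟨B1, hB1⟩ : ∃ B1, C.B = 2 * (2 * B1 + 1) := ⟨C.B / 4, by omega⟩
  obtain ⟨r, hr⟩ : ∃ r, C.c - C.x = 2 * r := ⟨(C.c - C.x) / 2, by omega⟩
  obtain ⟨t, ht⟩ : ∃ t, C.c + C.x = 2 * t := ⟨(C.c + C.x) / 2, by omega⟩
  have htodd : t % 2 = 1 := by omega
  -- r t = D (4y1+1)^2 - (4d1+1)^2
  have hrt : r * t = (1 + C.B ^ 2) * (4 * y1 + 1) ^ 2 - (4 * d1 + 1) ^ 2 := by
    have h : C.c ^ 2 + C.d ^ 2 = C.x ^ 2 + (1 + C.B ^ 2) * C.y ^ 2 := by rw [← C.hcd, C.hxy]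
    have h2 : (C.c - C.x) * (C.c + C.x) = (1 + C.B ^ 2) * C.y ^ 2 - C.d ^ 2 := by
      linear_combination h
    rw [hr, ht, hy1, hd1] at h2
    have h3 : 4 * (r * t) = 4 * ((1 + C.B ^ 2) * (4 * y1 + 1) ^ 2 - (4 * d1 + 1) ^ 2) := by
      linear_combination h2
    exact mul_left_cancel₀ (by norm_num) h3
  have hrt8 : (r * t) % 8 = 4 := by
    rw [hrt, hB1]
    ring_nf
    omega
  have hr4 : r % 8 = 4 := by
    have h7 : t % 8 = 1 ∨ t % 8 = 3 ∨ t % 8 = 5 ∨ t % 8 = 7 := by omega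
    have h8 : r % 8 = 0 ∨ r % 8 = 1 ∨ r % 8 = 2 ∨ r % 8 = 3 ∨ r % 8 = 4 ∨ r % 8 = 5 ∨ r % 8 = 6 ∨
      r % 8 = 7 := by omega
    rw [Int.mul_emod] at hrt8
    rcases h7 with h7 | h7 | h7 | h7 <;>
    rcases h8 with h8 | h8 | h8 | h8 | h8 | h8 | h8 | h8 <;>
    rw [h7, h8] at hrt8 <;> first | exact h8 | (norm_num at hrt8)
  have hBy : (C.B * C.y) % 8 = 4 := by
    rw [hB1, hy1]; ring_nf; omega
  have him : (gI * C.F).im % 2 = 0 := by
    have e2 : (gI * C.F).im = C.X := by simp [F]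
    rw [e2]; omega
  rw [C.main2 (Or.inr rfl) him, he, pow_one, Q4_four_g, Q2_gI_val C.od_F, Q2_gI_g,
    C.Q2_gI_pi_neg (by omega)]
  have hm : C.m % 8 = (C.c + 4) % 8 := by rw [m_eq, hk4]; omega
  have key : jj (C.c + C.d) * jj C.m * jj C.c * (if C.n0 % 4 = 1 then 1 else -1) * jj C.n0
      * (if C.F.re % 4 = 0 ∨ C.F.im % 4 = 0 then 1 else -1) = 1 := by
    have e6 : C.F.re = C.X := rfl
    have e7 : C.F.im = C.Y := rfl
    rw [e6, e7]
    have hYodd : C.Y % 2 = 1 := by omega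
    have hXY : (C.X % 4 = 0 ∨ C.Y % 4 = 0) ↔ (C.n0 % 8) % 4 = 3 := by
      constructor
      · rintro (h | h) <;> omega
      · intro h; left; omega
    have hn8 : C.n0 % 8 = 1 ∨ C.n0 % 8 = 5 := by omega
    have e1 : (C.c + C.d) % 8 = (C.n0 % 8 + 6) % 8 := by omega
    have e2 : C.c % 8 = (C.n0 % 8 + 4) % 8 := by omega
    have e4 : C.m % 8 = (C.n0 % 8) % 8 := by omega
    have e3 : C.n0 % 4 = (C.n0 % 8) % 4 := by omega
    rcases hn8 with h | h <;> simp only [jj, e1, e2, e3, e4, hXY, h] <;> rfl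
  have key' := congrArg (fun t : ℤ => (t : GaussianInt)) key
  simp only [Int.cast_mul, Int.cast_one] at key' ⊢
  linear_combination (Q4 (2 * C.g) C.pi) * key'

end Cfg

end Pool.Agent.Quartic82
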