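import Mathlib
import Pool.Agent.Lib_helper82.Quartic.Signs

/-!
Existence of the auxiliary element.
-/

namespace Pool.Agent.Quartic82

theorem crt (S : Finset ℕ) (hS : ∀ q ∈ S, q.Prime) (M : ℤ) (hM : ∀ q ∈ S, ¬ (q : ℤ) ∣ M)
    (β : ℕ → ℤ) : ∃ b : ℤ, M ∣ b ∧ ∀ q ∈ S, (q : ℤ) ∣ b - β q := by
  classical
  induction S using Finset.induction_on with
  | empty => exact ⟨0, dvd_zero _, by simp⟩
  | insert q S hq ih =>
    obtain ⟨b, hb, hbS⟩ := ih (fun r hr => hS r (Finset.mem_insert_of_mem hr))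
      (fun r hr => hM r (Finset.mem_insert_of_mem hr))
    have hqp := hS q (Finset.mem_insert_self _ _)
    have hqi : Prime (q : ℤ) := Nat.prime_iff_prime_int.1 hqp
    set N : ℤ := M * ∏ r ∈ S, (r : ℤ) with hN
    have hqN : ¬ (q : ℤ) ∣ N := by
      intro h
      rcases hqi.dvd_or_dvd h with h | h
      · exact hM q (Finset.mem_insert_self _ _) h
      · rw [Prime.dvd_finsetProd_iff hqi] at h
        obtain ⟨r, hr, hqr⟩ := h
        have h1 : q ∣ r := by exact_mod_cast hqr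
        have h2 := (Nat.prime_dvd_prime_iff_eq hqp (hS r (Finset.mem_insert_of_mem hr))).1 h1
        rw [h2] at hq
        exact hq hr
    have hco : IsCoprime N (q : ℤ) := by
      rw [isCoprime_comm]
      exact (Prime.coprime_iff_not_dvd hqi).2 hqN
    obtain ⟨u, v, huv⟩ := hco
    refine ⟨b + N * (u * (β q - b)), ?_, ?_⟩
    · exact dvd_add hb ((Dvd.intro _ rfl : M ∣ N).mul_right _)
    · intro r hr
      rcases Finset.mem_insert.1 hr with h | h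
      · subst h
        refine ⟨(b - β r) * v, ?_⟩
        linear_combination (β r - b) * huv
      · have h1 := hbS r h
        have h2 : (r : ℤ) ∣ N := (Finset.dvd_prod_of_mem _ h).mul_left _
        have e : b + N * (u * (β q - b)) - β r = (b - β r) + N * (u * (β q - b)) := by ring
        rw [e]
        exact dvd_add h1 (h2.mul_right _)

/-- The value of the form `Q(1,b)`. -/
def nn (c d x b : ℤ) : ℤ := (c + x) - 2 * b * d + b ^ 2 * (x - c)

theorem nn_congr {q c d x b β : ℤ} (h : q ∣ b - β) : q ∣ nn c d x b - nn c d x β := by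
  obtain ⟨k, hk⟩ := h
  refine ⟨-2 * k * d + k * (b + β) * (x - c), ?_⟩
  unfold nn
  have hb : b = β + q * k := by linear_combination hk
  rw [hb]; ring

theorem prime_sq_not {p : ℕ} (hp : p.Prime) {q : ℕ} (hq : q.Prime) {c d : ℤ}
    (hcd : (p : ℤ) = c ^ 2 + d ^ 2) (h1 : (q : ℤ) ∣ c) (h2 : (q : ℤ) ∣ d) : False := by
  obtain ⟨r, hr⟩ := h1
  obtain ⟨s, hs⟩ := h2
  have h3 : (q : ℤ) * (q : ℤ) ∣ (p : ℤ) := by
    refine ⟨r ^ 2 + s ^ 2, ?_⟩
    rw [hcd, hr, hs]; ring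
  have h4 : q * q ∣ p := by exact_mod_cast h3
  have h6 := (Nat.Prime.prime hp).squarefree _ h4
  exact hq.one_lt.ne' (Nat.isUnit_iff.1 h6)

theorem odd_prime_cancel_two {q : ℕ} (hq : q.Prime) (hq2 : q ≠ 2) {z : ℤ}
    (h : (q : ℤ) ∣ 2 * z) : (q : ℤ) ∣ z := by
  have hqi : Prime (q : ℤ) := Nat.prime_iff_prime_int.1 hq
  rcases hqi.dvd_or_dvd h with h | h
  · exfalso
    have h1 : q ∣ 2 := by exact_mod_cast h
    exact hq2 ((Nat.prime_dvd_prime_iff_eq hq Nat.prime_two).1 h1)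
  · exact h

theorem exists_beta {p : ℕ} (hp : p.Prime) {c d x y : ℤ} (hcd : (p : ℤ) = c ^ 2 + d ^ 2)
    {q : ℕ} (hq : q.Prime) (hq2 : q ≠ 2) : ∃ β : ℤ,
      ((q : ℤ) ∣ x → ¬ (q : ℤ) ∣ nn c d x β + (1 + β ^ 2) * y) ∧
      (¬ (q : ℤ) ∣ x → ¬ (q : ℤ) ∣ nn c d x β) := by
  by_cases hx : (q : ℤ) ∣ x
  · by_contra hcon
    push Not at hcon
    have key : ∀ β : ℤ, (q : ℤ) ∣ nn c d x β + (1 + β ^ 2) * y := by
      intro β
      by_contra hc
      have := hcon β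
      tauto
    have k0 := key 0
    have k1 := key 1
    have k2 := key (-1)
    unfold nn at k0 k1 k2
    have e1 : (q : ℤ) ∣ 2 * (2 * d) := by
      have := dvd_sub k2 k1
      have e : (c + x) - 2 * (-1) * d + (-1) ^ 2 * (x - c) + (1 + (-1) ^ 2) * y -
        ((c + x) - 2 * 1 * d + 1 ^ 2 * (x - c) + (1 + 1 ^ 2) * y) = 2 * (2 * d) := by ring
      rwa [e] at this
    have hd := odd_prime_cancel_two hq hq2 (odd_prime_cancel_two hq hq2 e1)
    have e2 : (q : ℤ) ∣ 2 * c := by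
      have h3 := dvd_sub (k0.mul_left 2) k1
      have h4 := dvd_sub h3 (hd.mul_left 2)
      have e : 2 * ((c + x) - 2 * 0 * d + 0 ^ 2 * (x - c) + (1 + 0 ^ 2) * y) -
        ((c + x) - 2 * 1 * d + 1 ^ 2 * (x - c) + (1 + 1 ^ 2) * y) - 2 * d = 2 * c := by ring
      rwa [e] at h4
    exact prime_sq_not hp hq hcd (odd_prime_cancel_two hq hq2 e2) hd
  · by_contra hcon
    push Not at hcon
    have key : ∀ β : ℤ, (q : ℤ) ∣ nn c d x β := by
      intro β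
      by_contra hc
      have := hcon β
      tauto
    have k0 := key 0
    have k1 := key 1
    have k2 := key (-1)
    unfold nn at k0 k1 k2
    have e1 : (q : ℤ) ∣ 2 * (2 * d) := by
      have := dvd_sub k2 k1
      have e : (c + x) - 2 * (-1) * d + (-1) ^ 2 * (x - c) -
        ((c + x) - 2 * 1 * d + 1 ^ 2 * (x - c)) = 2 * (2 * d) := by ring
      rwa [e] at this
    have hd := odd_prime_cancel_two hq hq2 (odd_prime_cancel_two hq hq2 e1)
    have e2 : (q : ℤ) ∣ 2 * c := by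
      have h3 := dvd_sub (k0.mul_left 2) k1
      have h4 := dvd_sub h3 (hd.mul_left 2)
      have e : 2 * ((c + x) - 2 * 0 * d + 0 ^ 2 * (x - c)) -
        ((c + x) - 2 * 1 * d + 1 ^ 2 * (x - c)) - 2 * d = 2 * c := by ring
      rwa [e] at h4
    exact prime_sq_not hp hq hcd (odd_prime_cancel_two hq hq2 e2) hd

theorem not_p_dvd {p : ℕ} {x : ℤ} (hx : x ≠ 0) (h : x ^ 2 < (p : ℤ)) : ¬ (p : ℤ) ∣ x := by
  intro hd
  have h1 := Int.le_of_dvd (abs_pos.2 hx) ((dvd_abs _ _).2 hd)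
  have h2 : |x| ^ 2 = x ^ 2 := sq_abs x
  have h3 : 1 ≤ |x| := Int.one_le_abs hx
  nlinarith

/-- Existence of the configuration. -/
theorem exists_cfg {p : ℕ} (hp : p.Prime) {c d x y B : ℤ}
    (hcd : (p : ℤ) = c ^ 2 + d ^ 2) (hxy : (p : ℤ) = x ^ 2 + (1 + B ^ 2) * y ^ 2)
    (hc : c % 4 = 1) (hd : d % 2 = 0) (hB : B % 4 = 2) (hx0 : x ≠ 0) (hy0 : y ≠ 0)
    (e : ℕ) (he : (e = 0 ∧ x % 2 = 0 ∧ y % 4 = 1) ∨ (e = 1 ∧ x % 4 = 1 ∧ y % 2 = 0))
    (hpar : ((c + x + y) / 2 + (d - B * y) / 2) % 2 = 1) :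
    ∃ C : Cfg, C.p = p ∧ C.c = c ∧ C.d = d ∧ C.x = x ∧ C.y = y ∧ C.B = B ∧ C.a = 1 ∧
      C.b % 16 = 0 ∧ C.e = e := by
  have hD : 0 < 1 + B ^ 2 := by positivity
  have hyp : 0 < y ^ 2 := by positivity
  have hxp : 0 < x ^ 2 := by positivity
  have hpx : ¬ (p : ℤ) ∣ x := not_p_dvd hx0 (by nlinarith)
  have hpy : ¬ (p : ℤ) ∣ y := not_p_dvd hy0 (by nlinarith [sq_nonneg B, mul_nonneg (sq_nonneg B) hyp.le])
  have hpi : Prime (p : ℤ) := Nat.prime_iff_prime_int.1 hp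
  have hpD : ¬ (p : ℤ) ∣ 1 + B ^ 2 := by
    intro h
    have h1 : (p : ℤ) ∣ x ^ 2 := by
      have e1 : x ^ 2 = p - (1 + B ^ 2) * y ^ 2 := by rw [hxy]; ring
      rw [e1]
      exact dvd_sub dvd_rfl (h.mul_right _)
    exact hpx (hpi.dvd_of_dvd_pow h1)
  have hp2 : p ≠ 2 := by
    rintro rfl
    obtain ⟨k, hk⟩ : ∃ k, d = 2 * k := ⟨d / 2, by omega⟩
    obtain ⟨l, hl⟩ : ∃ l, c = 2 * l + 1 := ⟨c / 2, by omega⟩
    rw [hk, hl] at hcd
    push_cast at hcd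
    ring_nf at hcd
    omega
  -- the set of primes
  set T : ℤ := x * y * (1 + B ^ 2) with hT
  have hT0 : T ≠ 0 := mul_ne_zero (mul_ne_zero hx0 hy0) hD.ne'
  set S : Finset ℕ := T.natAbs.primeFactors.erase 2 with hS
  have hmem : ∀ q : ℕ, q ∈ S ↔ (q ≠ 2 ∧ q.Prime ∧ (q : ℤ) ∣ T) := by
    intro q
    rw [hS, Finset.mem_erase, Nat.mem_primeFactors]
    constructor
    · rintro ⟨h1, h2, h3, _⟩
      exact ⟨h1, h2, Int.natCast_dvd.2 h3⟩
    · rintro ⟨h1, h2, h3⟩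
      exact ⟨h1, h2, Int.natCast_dvd.1 h3, by simpa using hT0⟩
  have hpT : ¬ (p : ℤ) ∣ T := by
    intro h
    rcases hpi.dvd_or_dvd h with h | h
    · rcases hpi.dvd_or_dvd h with h | h
      · exact hpx h
      · exact hpy h
    · exact hpD h
  have hβ : ∀ q : ℕ, ∃ β : ℤ, q.Prime → q ≠ 2 →
      (((q : ℤ) ∣ x → ¬ (q : ℤ) ∣ nn c d x β + (1 + β ^ 2) * y) ∧
      (¬ (q : ℤ) ∣ x → ¬ (q : ℤ) ∣ nn c d x β)) := by
    intro q
    by_cases hq : q.Prime ∧ q ≠ 2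
    · obtain ⟨β, hβ⟩ := exists_beta (x := x) (y := y) hp hcd hq.1 hq.2
      exact ⟨β, fun _ _ => hβ⟩
    · exact ⟨0, fun h1 h2 => absurd ⟨h1, h2⟩ hq⟩
  choose β hβ using hβ
  obtain ⟨b, hMb, hbS⟩ := crt S (fun q hq => ((hmem q).1 hq).2.1) (16 * p) (by
    intro q hq h
    obtain ⟨h1, h2, h3⟩ := (hmem q).1 hq
    have hqi : Prime (q : ℤ) := Nat.prime_iff_prime_int.1 h2
    rcases hqi.dvd_or_dvd h with h | h
    · have h4 : q ∣ 2 ^ 4 := by
        have : (q : ℤ) ∣ ((2 ^ 4 : ℕ) : ℤ) := by simpa using h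
        exact_mod_cast this
      have h5 := h2.dvd_of_dvd_pow h4
      exact h1 ((Nat.prime_dvd_prime_iff_eq h2 Nat.prime_two).1 h5)
    · have h4 : q ∣ p := by exact_mod_cast h
      have h5 := (Nat.prime_dvd_prime_iff_eq h2 hp).1 h4
      rw [h5] at h3
      exact hpT h3) β
  have hb16 : (16 : ℤ) ∣ b := (Dvd.intro _ rfl : (16 : ℤ) ∣ 16 * p).trans hMb
  have hbp : (p : ℤ) ∣ b := (Dvd.intro_left _ rfl : (p : ℤ) ∣ 16 * p).trans hMb
  obtain ⟨b', hb'⟩ := hb16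
  -- the integer n
  have hn : ∃ n0 : ℤ, nn c d x b = 2 ^ e * n0 ∧ n0 % 2 = 1 := by
    have h1 : nn c d x b = c + x + 16 * (-2 * b' * d + 16 * b' ^ 2 * (x - c)) := by
      unfold nn; rw [hb']; ring
    rcases he with ⟨h, hx, _⟩ | ⟨h, hx, _⟩
    · refine ⟨nn c d x b, by rw [h, pow_zero, one_mul], ?_⟩
      rw [h1]; omega
    · refine ⟨nn c d x b / 2, ?_, ?_⟩
      · rw [h, pow_one, h1]; omega
      · rw [h1]; omega
  obtain ⟨n0, hn0, hn0'⟩ := hn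
  have hn0n : n0 ∣ nn c d x b := ⟨2 ^ e, by rw [hn0]; ring⟩
  have hprime : ∀ q : ℕ, q.Prime → q ≠ 2 → (q : ℤ) ∣ n0 → (q : ℤ) ∣ T → (q : ℤ) ∣ x := by
    intro q hq hq2 h1 h2
    by_contra hx
    have h3 := (hβ q hq hq2).2 hx
    have h4 := hbS q ((hmem q).2 ⟨hq2, hq, h2⟩)
    have h5 := nn_congr (c := c) (d := d) (x := x) h4
    apply h3
    have h6 := h1.trans hn0n
    exact (dvd_sub_right h6).1 h5
  have hq2 : ∀ q : ℕ, (q : ℤ) ∣ n0 → q ≠ 2 := by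
    rintro q h rfl
    have : (2 : ℤ) ∣ n0 := by exact_mod_cast h
    omega
  have hx_not : ∀ q : ℕ, q.Prime → (q : ℤ) ∣ (1 + B ^ 2) * y ^ 2 → (q : ℤ) ∣ x → False := by
    intro q hq h1 h2
    have h3 : (q : ℤ) ∣ p := by
      rw [hxy]
      exact dvd_add (dvd_pow h2 two_ne_zero) h1
    have h4 : q ∣ p := by exact_mod_cast h3
    have h5 := (Nat.prime_dvd_prime_iff_eq hq hp).1 h4
    rw [h5] at h2
    exact hpx h2
  have hny : IsCoprime n0 y := by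
    rw [Int.isCoprime_iff_gcd_eq_one]
    by_contra hg
    obtain ⟨q, hq, hqg⟩ := Nat.exists_prime_and_dvd hg
    have h1 : (q : ℤ) ∣ n0 := (Int.natCast_dvd_natCast.2 hqg).trans (Int.gcd_dvd_left ..)
    have h2 : (q : ℤ) ∣ y := (Int.natCast_dvd_natCast.2 hqg).trans (Int.gcd_dvd_right ..)
    have h3 := hprime q hq (hq2 q h1) h1 ((h2.mul_left _).mul_right _)
    exact hx_not q hq ((dvd_pow h2 two_ne_zero).mul_left _) h3
  have hnD : IsCoprime n0 (1 + B ^ 2) := by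
    rw [Int.isCoprime_iff_gcd_eq_one]
    by_contra hg
    obtain ⟨q, hq, hqg⟩ := Nat.exists_prime_and_dvd hg
    have h1 : (q : ℤ) ∣ n0 := (Int.natCast_dvd_natCast.2 hqg).trans (Int.gcd_dvd_left ..)
    have h2 : (q : ℤ) ∣ 1 + B ^ 2 := (Int.natCast_dvd_natCast.2 hqg).trans (Int.gcd_dvd_right ..)
    have h3 := hprime q hq (hq2 q h1) h1 (h2.mul_left _)
    exact hx_not q hq (h2.mul_right _) h3
  have hXe : ∃ X : ℤ, 1 * (c + x + y) - b * (d + B * y) = 2 * X ∧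
      X % 2 = ((c + x + y) / 2) % 2 := by
    refine ⟨(c + x + y) / 2 - 8 * (b' * (d + B * y)), ?_, ?_⟩
    · rw [hb']
      have h2 : c + x + y = 2 * ((c + x + y) / 2) := by omega
      linear_combination h2
    · omega
  obtain ⟨X, hX, hX2⟩ := hXe
  have hBy : (B * y) % 2 = 0 := by
    rw [Int.mul_emod]
    have : B % 2 = 0 := by omega
    rw [this]; simp
  have hYe : ∃ Y : ℤ, 1 * (d - B * y) + b * (c - x - y) = 2 * Y ∧
      Y % 2 = ((d - B * y) / 2) % 2 := by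
    refine ⟨(d - B * y) / 2 + 8 * (b' * (c - x - y)), ?_, ?_⟩
    · rw [hb']
      have h2 : d - B * y = 2 * ((d - B * y) / 2) := by omega
      linear_combination h2
    · omega
  obtain ⟨Y, hY, hY2⟩ := hYe
  refine ⟨⟨p, c, d, x, y, B, 1, b, n0, X, Y, e, hp, hcd, hxy, hc, hd, hB, by norm_num, by omega,
    isCoprime_one_left, ?_, ?_, ?_, hn0', hny, hnD, ?_, hX, hY, ?_, hpx, hpy, hpD⟩,
    rfl, rfl, rfl, rfl, rfl, rfl, rfl, by simp only; omega, rfl⟩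
  · intro h
    have h1 : (p : ℤ) ∣ b ^ 2 := dvd_pow hbp two_ne_zero
    have h2 : (p : ℤ) ∣ 1 := by
      have h3 := dvd_sub h h1
      have e1 : 1 ^ 2 + b ^ 2 - b ^ 2 = (1 : ℤ) := by ring
      rwa [e1] at h3
    have h3 : p ∣ 1 := by exact_mod_cast h2
    exact hp.one_lt.ne' (Nat.dvd_one.1 h3)
  · rw [hb']; ring_nf; omega
  · rw [← hn0]; unfold nn; ring
  · intro q hq hq2 hqx h
    have hq2' : q ≠ 2 := by rintro rfl; omega
    have h3 := (hβ q hq hq2').1 hqx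
    have h4 := hbS q ((hmem q).2 ⟨hq2', hq, (hqx.mul_right _).mul_right _⟩)
    have h5 := nn_congr (c := c) (d := d) (x := x) h4
    apply h3
    rw [← hn0] at h
    have h6 : (q : ℤ) ∣ (nn c d x b + (1 + b ^ 2) * y) - (nn c d x (β q) + (1 + (β q) ^ 2) * y) := by
      obtain ⟨k, hk⟩ := h4
      obtain ⟨j, hj⟩ := h5
      refine ⟨j + k * (b + β q) * y, ?_⟩
      linear_combination hj + (b + β q) * y * hk
    have h7 : (q : ℤ) ∣ nn c d x b + (1 + b ^ 2) * y := by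
      have e1 : nn c d x b + (1 ^ 2 + b ^ 2) * y = nn c d x b + (1 + b ^ 2) * y := by ring
      rwa [e1] at h
    exact (dvd_sub_right h7).1 h6
  · have hXY : (X + Y) % 2 = 1 := by omega
    rcases Int.emod_two_eq_zero_or_one X with h | h
    · have hY1 : Y % 2 = 1 := by omega
      obtain ⟨k, hk⟩ : ∃ k, X = 2 * k := ⟨X / 2, by omega⟩
      obtain ⟨l, hl⟩ : ∃ l, Y = 2 * l + 1 := ⟨Y / 2, by omega⟩
      rw [hk, hl]; ring_nf; omega
    · have hY1 : Y % 2 = 0 := by omega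
      obtain ⟨k, hk⟩ : ∃ k, X = 2 * k + 1 := ⟨X / 2, by omega⟩
      obtain ⟨l, hl⟩ : ∃ l, Y = 2 * l := ⟨Y / 2, by omega⟩
      rw [hk, hl]; ring_nf; omega

end Pool.Agent.Quartic82
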