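import Mathlib
import Pool.Agent.Lib_helper82.Quartic.Exist

/-!
The value of `(B + w)^((p-1)/4)` modulo `p`, where `w² = 1 + B²`.
-/

namespace Pool.Agent.Quartic82

open Zsqrtd UniqueFactorizationMonoid

theorem hom_Q4 (C : Cfg) [Fact C.p.Prime] (f : GaussianInt →+* ZMod C.p)
    (hf : ∀ z, C.pi ∣ z ↔ f z = 0) (z : GaussianInt) :
    f (Q4 z C.pi) = f z ^ ((C.p - 1) / 4) := by
  rw [Q4_prime _ C.pi_prime]
  have hN : C.pi.norm.natAbs = C.p := by rw [C.pi_norm]; simp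
  have h5 := norm_ge_five C.pi_prime C.od_pi
  by_cases h : C.pi ∣ z
  · rw [psym_zero C.pi_prime C.od_pi h, map_zero, (hf _).1 h, zero_pow]
    omega
  · have h2 := (psym_spec C.pi_prime C.od_pi h).2
    rw [hf, map_sub, map_pow, hN, sub_eq_zero] at h2
    exact h2.symm

/-- `(B+w)^((p-1)/4)` in terms of the chain value. -/
theorem value (C : Cfg) [Fact C.p.Prime] (f : GaussianInt →+* ZMod C.p)
    (hf : ∀ z, C.pi ∣ z ↔ f z = 0) (w : ZMod C.p) (hw : (C.y : ZMod C.p) * w = f gI * C.x)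
    (s0 : GaussianInt) (h : Q2 C.k C.pi = Q4 (2 * C.g) C.pi * s0) :
    ((C.B : ZMod C.p) + w) ^ ((C.p - 1) / 4) * (C.y : ZMod C.p) ^ (2 * ((C.p - 1) / 4)) = f s0 := by
  set K := (C.p - 1) / 4 with hK
  have hy : (C.y : ZMod C.p) ≠ 0 := by
    intro h0
    rw [ZMod.intCast_zmod_eq_zero_iff_dvd] at h0
    exact C.hy0 h0
  have hI : f gI * f gI = -1 := by
    rw [← map_mul, gI_mul_gI, map_neg, map_one]
  have hxy : (C.x : ZMod C.p) ^ 2 + (1 + (C.B : ZMod C.p) ^ 2) * (C.y : ZMod C.p) ^ 2 = 0 := by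
    have h1 := congrArg (fun t : ℤ => (t : ZMod C.p)) C.hxy
    push_cast at h1
    rw [← h1]
    exact ZMod.natCast_self _
  have hw2 : w ^ 2 = 1 + (C.B : ZMod C.p) ^ 2 := by
    have h1 : (C.y : ZMod C.p) ^ 2 * w ^ 2 = (C.y : ZMod C.p) ^ 2 * (1 + (C.B : ZMod C.p) ^ 2) := by
      calc (C.y : ZMod C.p) ^ 2 * w ^ 2 = (C.y * w) ^ 2 := by ring
        _ = (f gI * f gI) * (C.x : ZMod C.p) ^ 2 := by rw [hw]; ring
        _ = _ := by rw [hI]; linear_combination (-1 : ZMod C.p) * hxy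
    exact mul_left_cancel₀ (pow_ne_zero 2 hy) h1
  have hfg : f C.g = (C.B : ZMod C.p) + f gI := by
    have e : C.g = (C.B : GaussianInt) + gI := by
      simp only [Cfg.g]; ext <;> simp
    rw [e, map_add, map_intCast]
  have hfk : f C.k = (C.y : ZMod C.p) * (f C.g + w) := by
    rw [C.hk, map_add, map_mul, map_mul, map_intCast, map_intCast, mul_add, hw]; ring
  have hsq : (f C.g + w) ^ 2 = (2 * f C.g) * ((C.B : ZMod C.p) + w) := by
    rw [hfg]
    linear_combination hw2 + hI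
  have h2g : f (2 * C.g) ≠ 0 := by
    intro h0
    rw [← hf] at h0
    rcases C.pi_prime.dvd_or_dvd h0 with h1 | h1
    · exact not_dvd_two C.pi_prime C.od_pi h1
    · exact coprime_contra C.cop_pi_g C.pi_prime dvd_rfl h1
  have h1 := congrArg f h
  unfold Q2 at h1
  rw [map_pow, map_mul, hom_Q4 C f hf, hom_Q4 C f hf, hfk, ← pow_mul, ← hK] at h1
  have h2 : ((C.y : ZMod C.p) * (f C.g + w)) ^ (K * 2)
      = f (2 * C.g) ^ K * (((C.B : ZMod C.p) + w) ^ K * (C.y : ZMod C.p) ^ (2 * K)) := by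
    rw [mul_comm K 2, mul_pow, pow_mul (f C.g + w), hsq, mul_pow, map_mul, map_ofNat]
    ring
  rw [h2] at h1
  exact mul_left_cancel₀ (pow_ne_zero K h2g) h1

/-- the quadratic character of `y` -/
theorem legendre_y {p : ℕ} (hp : p.Prime) (h4 : p % 4 = 1) {x y D : ℤ} (j : ℕ) {y0 : ℤ}
    (hy0 : y0 % 2 = 1) (hy : y = 2 ^ j * y0) (hxy : (p : ℤ) = x ^ 2 + D * y ^ 2)
    (hj : j = 0 ∨ p % 8 = 1) [Fact p.Prime] : legendreSym p y = 1 := by
  rw [jacobiSym.legendreSym.to_jacobiSym, hy, jacobiSym.mul_left]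
  have hpo : Odd p := Nat.odd_iff.2 (by omega)
  have h2 : jacobiSym (2 ^ j) p = 1 := by
    rcases hj with hj | hj
    · rw [hj, pow_zero, jacobiSym.one_left]
    · rw [jacobiSym.pow_left, jacobiSym.at_two hpo, ZMod.χ₈_nat_mod_eight, hj]
      have : ZMod.χ₈ ((1 : ℕ) : ZMod 8) = 1 := by decide
      rw [this, one_pow]
  have hneg : jacobiSym (-1) p = 1 := by
    rw [jacobiSym.at_neg_one hpo, ZMod.χ₄_nat_mod_four, h4]
    decide
  have hy1 : jacobiSym y0 p = jacobiSym (y0.natAbs : ℤ) p := by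
    rcases Int.natAbs_eq y0 with h | h
    · rw [← h]
    · conv_lhs => rw [h, ← neg_one_mul, jacobiSym.mul_left, hneg, one_mul]
  have hodd : Odd y0.natAbs := Nat.odd_iff.2 (by omega)
  have hq := jacobiSym.quadratic_reciprocity_one_mod_four h4 hodd
  rw [h2, one_mul, hy1, ← hq]
  have hmod : jacobiSym (p : ℤ) y0.natAbs = jacobiSym (x ^ 2) y0.natAbs := by
    apply jacobiSym.mod_left'
    apply Int.ModEq.symm
    rw [Int.modEq_iff_dvd]
    have e : (p : ℤ) - x ^ 2 = D * y ^ 2 := by rw [hxy]; ring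
    rw [e, Int.natAbs_dvd, hy]
    refine ⟨D * 2 ^ j * 2 ^ j * y0, by ring⟩
  rw [hmod]
  apply jacobiSym.sq_one'
  by_contra hg
  obtain ⟨q, hq', hqg⟩ := Nat.exists_prime_and_dvd hg
  have h1 : (q : ℤ) ∣ x := (Int.natCast_dvd_natCast.2 hqg).trans (Int.gcd_dvd_left ..)
  have h3 : (q : ℤ) ∣ y0 := by
    have := (Int.natCast_dvd_natCast.2 hqg).trans (Int.gcd_dvd_right x (y0.natAbs : ℤ))
    rwa [Int.dvd_natAbs] at this
  obtain ⟨r, hr⟩ := h1
  obtain ⟨s, hs⟩ := h3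
  have h4' : (q : ℤ) * q ∣ (p : ℤ) := by
    refine ⟨r ^ 2 + D * (2 ^ j * s) ^ 2, ?_⟩
    rw [hxy, hy, hr, hs]; ring
  have h5 : q * q ∣ p := by exact_mod_cast h4'
  have h6 := (Nat.Prime.prime hp).squarefree _ h5
  exact hq'.one_lt.ne' (Nat.isUnit_iff.1 h6)

theorem legendre_two {p : ℕ} (h8 : p % 8 = 5) [Fact p.Prime] : legendreSym p 2 = -1 := by
  have hpo : Odd p := Nat.odd_iff.2 (by omega)
  rw [jacobiSym.legendreSym.to_jacobiSym, jacobiSym.at_two hpo, ZMod.χ₈_nat_mod_eight, h8]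
  decide

end Pool.Agent.Quartic82
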